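import Pool.Agent.Lib.MP_666dc0_nt.FM.ODefs

/-!
# FM, D0: the ring homomorphism from the matrices over `Λ` to the endomorphisms of the columns, and its kernel

`mact_mulM`: `act` is a ring homomorphism, exchange the sums. `eq_zero_of_mact`: if `X p q ≠ 0`, `𝒲.lower` gives `C`
with `(1 - C / ℓ ^ dep i) dim (W i) ≤ rank (act i (X p q)) = 0` for all `i` (the column with the entry `w` at `q`:
`mact i X (Pi.single q w) p = act i (X p q) w`), and there are `i` with `dep i` large and `dim (W i) > 0`.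
-/

namespace Pool.Agent.Lib.MP_666dc0_nt.FM

variable {Λ : Type} [Ring Λ] {Ω : Type} [Field Ω] {ℓ : ℕ}

theorem MFam.mact_addM (𝒲 : MFam Λ Ω ℓ) (i : 𝒲.ix) {κ κ' : Type} [Fintype κ'] (X Y : Matrix κ κ' Λ) :
    𝒲.mact i (X + Y) = 𝒲.mact i X + 𝒲.mact i Y := by
  refine LinearMap.ext fun w => funext fun p => ?_
  simp only [LinearMap.add_apply, Pi.add_apply, MFam.mact_apply, Matrix.add_apply, map_add,
    Finset.sum_add_distrib]

theorem MFam.mact_sub (𝒲 : MFam Λ Ω ℓ) (i : 𝒲.ix) {κ κ' : Type} [Fintype κ'] (X Y : Matrix κ κ' Λ) :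
    𝒲.mact i (X - Y) = 𝒲.mact i X - 𝒲.mact i Y := by
  refine LinearMap.ext fun w => funext fun p => ?_
  simp only [LinearMap.sub_apply, Pi.sub_apply, MFam.mact_apply, Matrix.sub_apply, map_sub,
    Finset.sum_sub_distrib]

theorem MFam.mact_mulM (𝒲 : MFam Λ Ω ℓ) (i : 𝒲.ix) {κ κ' κ'' : Type} [Fintype κ'] [Fintype κ'']
    (X : Matrix κ κ' Λ) (Y : Matrix κ' κ'' Λ) (w : κ'' → 𝒲.W i) :
    𝒲.mact i (X * Y) w = 𝒲.mact i X (𝒲.mact i Y w) := by
  funext p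
  simp only [MFam.mact_apply, Matrix.mul_apply, map_sum, map_mul, LinearMap.sum_apply, Module.End.mul_apply]
  exact Finset.sum_comm

theorem MFam.mact_oneM (𝒲 : MFam Λ Ω ℓ) (i : 𝒲.ix) {κ : Type} [Fintype κ] [DecidableEq κ] (w : κ → 𝒲.W i) :
    𝒲.mact i (1 : Matrix κ κ Λ) w = w := by
  funext p
  rw [MFam.mact_apply, Finset.sum_eq_single p]
  · rw [Matrix.one_apply_eq, map_one, Module.End.one_apply]
  · intro q _ hq
    rw [Matrix.one_apply_ne hq.symm, map_zero, LinearMap.zero_apply]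
  · intro h
    exact absurd (Finset.mem_univ p) h

theorem MFam.mact_intCast (𝒲 : MFam Λ Ω ℓ) (i : 𝒲.ix) {κ : Type} [Fintype κ] [DecidableEq κ] (n : ℤ)
    (w : κ → 𝒲.W i) : 𝒲.mact i ((n : Matrix κ κ Λ)) w = (n : Ω) • w := by
  funext p
  rw [MFam.mact_apply, Finset.sum_eq_single p]
  · rw [Matrix.intCast_apply, if_pos rfl, map_intCast, Pi.smul_apply, Int.cast_smul_eq_zsmul,
      Module.End.intCast_apply]
  · intro q _ hq
    rw [Matrix.intCast_apply, if_neg hq.symm, Int.cast_zero, map_zero, LinearMap.zero_apply]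
  · intro h
    exact absurd (Finset.mem_univ p) h

/-- The family is faithful. -/
theorem MFam.eq_zero_of_mact (𝒲 : MFam Λ Ω ℓ) (hℓ : 1 < ℓ)
    (hdeep : ∀ s, ∃ i, s ≤ 𝒲.dep i ∧ 0 < Module.finrank Ω (𝒲.W i)) {κ κ' : Type} [Fintype κ'] [DecidableEq κ']
    (X : Matrix κ κ' Λ) (h : ∀ i, 𝒲.mact i X = 0) : X = 0 := by
  have h0 : ∀ i p q, 𝒲.act i (X p q) = 0 := by
    intro i p q
    refine LinearMap.ext fun w => ?_
    have h1 : 𝒲.mact i X (Pi.single q w) p = 0 := by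
      rw [h i, LinearMap.zero_apply, Pi.zero_apply]
    rw [MFam.mact_apply, Finset.sum_eq_single q] at h1
    · rw [Pi.single_eq_same] at h1
      rw [h1, LinearMap.zero_apply]
    · intro q' _ hq
      rw [Pi.single_eq_of_ne hq, map_zero]
    · intro hq
      exact absurd (Finset.mem_univ q) hq
  refine Matrix.ext fun p q => ?_
  rw [Matrix.zero_apply]
  by_contra hne
  obtain ⟨C, hC⟩ := 𝒲.lower _ hne
  have h1 : (1 : ℝ) < ℓ := by exact_mod_cast hℓ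
  obtain ⟨s, hs⟩ := pow_unbounded_of_one_lt (max C 0) h1
  obtain ⟨i, hi, hpos⟩ := hdeep s
  have h2 := hC i
  rw [h0 i p q, LinearMap.range_zero, finrank_bot, Nat.cast_zero] at h2
  have h3 : (ℓ : ℝ) ^ s ≤ (ℓ : ℝ) ^ 𝒲.dep i := pow_le_pow_right₀ h1.le hi
  have h4 : C < (ℓ : ℝ) ^ 𝒲.dep i := lt_of_le_of_lt (le_max_left C 0) (lt_of_lt_of_le hs h3)
  have h5 : (0 : ℝ) < (ℓ : ℝ) ^ 𝒲.dep i := pow_pos (by linarith) _
  have h6 : C / (ℓ : ℝ) ^ 𝒲.dep i < 1 := (div_lt_one h5).2 h4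
  have h7 : (0 : ℝ) < (Module.finrank Ω (𝒲.W i) : ℝ) := by exact_mod_cast hpos
  have h8 : 0 < (1 - C / (ℓ : ℝ) ^ 𝒲.dep i) * (Module.finrank Ω (𝒲.W i) : ℝ) := mul_pos (by linarith) h7
  linarith

end Pool.Agent.Lib.MP_666dc0_nt.FM
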