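import Pool.Agent.Lib.MP_666dc0_nt.ZO.RDefs

/-!
# Completed group rings of uniform groups: definitions (complete, NOT a task)
-/

namespace Pool.Agent.Lib.MP_666dc0_nt.FM

open ZO

/-- A tower of rings `A 0 ← A 1 ← …`. -/
structure RTow where
  A : ℕ → Type
  [ring : ∀ s, Ring (A s)]
  f : ∀ s, A (s + 1) →+* A s

attribute [instance] RTow.ring

/-- The inverse limit of a tower of rings. -/
def RTow.Lim (𝒜 : RTow) : Subring (∀ s, 𝒜.A s) where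
  carrier := {a | ∀ s, 𝒜.f s (a (s + 1)) = a s}
  mul_mem' {a b} ha hb s := by rw [Pi.mul_apply, Pi.mul_apply, map_mul, ha s, hb s]
  one_mem' s := by rw [Pi.one_apply, Pi.one_apply, map_one]
  add_mem' {a b} ha hb s := by rw [Pi.add_apply, Pi.add_apply, map_add, ha s, hb s]
  zero_mem' s := by rw [Pi.zero_apply, Pi.zero_apply, map_zero]
  neg_mem' {a} ha s := by rw [Pi.neg_apply, Pi.neg_apply, map_neg, ha s]

/-- The projection to the level `s`. -/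
def RTow.pi (𝒜 : RTow) (s : ℕ) : 𝒜.Lim →+* 𝒜.A s :=
  (Pi.evalRingHom 𝒜.A s).comp 𝒜.Lim.subtype

theorem RTow.pi_apply (𝒜 : RTow) (s : ℕ) (a : 𝒜.Lim) : 𝒜.pi s a = a.1 s := rfl

theorem RTow.f_pi (𝒜 : RTow) (s : ℕ) (a : 𝒜.Lim) : 𝒜.f s (𝒜.pi (s + 1) a) = 𝒜.pi s a := a.2 s

theorem RTow.ext (𝒜 : RTow) {a b : 𝒜.Lim} (h : ∀ s, 𝒜.pi s a = 𝒜.pi s b) : a = b :=
  Subtype.ext (funext h)

/-- The tower of the finite quotients `P s = K / K ^ (ℓ ^ s)` of a uniform pro-`ℓ` group of dimension `d`, with the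
images of a system of generators. -/
structure UTow (ℓ d : ℕ) where
  P : ℕ → Type
  [grp : ∀ s, Group (P s)]
  [fin : ∀ s, Finite (P s)]
  pr : ∀ s, P (s + 1) →* P s
  surj : ∀ s, Function.Surjective (pr s)
  g : ∀ s, Fin d → P s
  pr_g : ∀ s i, pr s (g (s + 1) i) = g s i
  ug : ∀ s, IsUG ℓ (ℓ ^ s) d (P s) (g s)

attribute [instance] UTow.grp UTow.fin

variable {ℓ d : ℕ}

/-- The tower of the group algebras `k[P s]`. -/
noncomputable def UTow.om (𝒯 : UTow ℓ d) (k : Type) [Field k] : RTow where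
  A s := MonoidAlgebra k (𝒯.P s)
  f s := MonoidAlgebra.mapDomainRingHom k (𝒯.pr s)

/-- The tower of the group rings `(ℤ / ℓ ^ (s + 1))[P s]`. -/
noncomputable def UTow.la (𝒯 : UTow ℓ d) : RTow where
  A s := MonoidAlgebra (ZMod (ℓ ^ (s + 1))) (𝒯.P s)
  f s := (MonoidAlgebra.mapDomainRingHom (ZMod (ℓ ^ (s + 1))) (𝒯.pr s)).comp
    (MonoidAlgebra.mapRingHom (𝒯.P (s + 1))
      (ZMod.castHom (pow_dvd_pow ℓ (Nat.le_succ (s + 1))) (ZMod (ℓ ^ (s + 1)))))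

/-- The completed group algebra `k[[K]]`. -/
abbrev UTow.Om (𝒯 : UTow ℓ d) (k : Type) [Field k] : Type := (𝒯.om k).Lim

/-- The completed group ring `ℤ_ℓ[[K]]`. -/
abbrev UTow.La (𝒯 : UTow ℓ d) : Type := 𝒯.la.Lim

theorem RTow.mem_lim (𝒜 : RTow) {a : ∀ s, 𝒜.A s} : a ∈ 𝒜.Lim ↔ ∀ s, 𝒜.f s (a (s + 1)) = a s := Iff.rfl

/-- The reduction modulo `ℓ` at the level `s`. -/
noncomputable def UTow.redf (𝒯 : UTow ℓ d) [Fact ℓ.Prime] (s : ℕ) : 𝒯.la.A s →+* (𝒯.om (ZMod ℓ)).A s :=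
  MonoidAlgebra.mapRingHom (𝒯.P s) (ZMod.castHom (dvd_pow_self ℓ (Nat.succ_ne_zero s)) (ZMod ℓ))

theorem UTow.redf_f (𝒯 : UTow ℓ d) [Fact ℓ.Prime] (s : ℕ) (a : 𝒯.la.A (s + 1)) :
    (𝒯.om (ZMod ℓ)).f s (𝒯.redf (s + 1) a) = 𝒯.redf s (𝒯.la.f s a) := by
  have h : ((𝒯.om (ZMod ℓ)).f s).comp (𝒯.redf (s + 1)) = (𝒯.redf s).comp (𝒯.la.f s) := by
    refine MonoidAlgebra.ringHom_ext (fun r => ?_) (fun x => ?_)
    · change MonoidAlgebra.mapDomain (𝒯.pr s) (MonoidAlgebra.mapRingHom (𝒯.P (s + 1)) _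
        (MonoidAlgebra.single (1 : 𝒯.P (s + 1)) r)) = MonoidAlgebra.mapRingHom (𝒯.P s) _
        (MonoidAlgebra.mapDomain (𝒯.pr s) (MonoidAlgebra.mapRingHom (𝒯.P (s + 1)) _
        (MonoidAlgebra.single (1 : 𝒯.P (s + 1)) r)))
      rw [MonoidAlgebra.mapRingHom_single, MonoidAlgebra.mapDomain_single, MonoidAlgebra.mapRingHom_single,
        MonoidAlgebra.mapDomain_single, MonoidAlgebra.mapRingHom_single, map_one]
      congr 1
      exact congrArg (fun f : ZMod (ℓ ^ (s + 1 + 1)) →+* ZMod ℓ => f r) (RingHom.ext_zmod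
        (ZMod.castHom (dvd_pow_self ℓ (Nat.succ_ne_zero (s + 1))) (ZMod ℓ))
        ((ZMod.castHom (dvd_pow_self ℓ (Nat.succ_ne_zero s)) (ZMod ℓ)).comp
          (ZMod.castHom (pow_dvd_pow ℓ (Nat.le_succ (s + 1))) (ZMod (ℓ ^ (s + 1))))))
    · change MonoidAlgebra.mapDomain (𝒯.pr s) (MonoidAlgebra.mapRingHom (𝒯.P (s + 1)) _
        (MonoidAlgebra.single x 1)) = MonoidAlgebra.mapRingHom (𝒯.P s) _
        (MonoidAlgebra.mapDomain (𝒯.pr s) (MonoidAlgebra.mapRingHom (𝒯.P (s + 1)) _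
        (MonoidAlgebra.single x 1)))
      rw [MonoidAlgebra.mapRingHom_single, MonoidAlgebra.mapDomain_single, MonoidAlgebra.mapRingHom_single,
        MonoidAlgebra.mapDomain_single, MonoidAlgebra.mapRingHom_single, map_one, map_one, map_one]
  exact RingHom.congr_fun h a

/-- The reduction modulo `ℓ`. -/
noncomputable def UTow.red (𝒯 : UTow ℓ d) [Fact ℓ.Prime] : 𝒯.La →+* 𝒯.Om (ZMod ℓ) where
  toFun a := ⟨fun s => 𝒯.redf s (a.1 s), fun s => by rw [𝒯.redf_f, a.2 s]⟩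
  map_one' := Subtype.ext (funext fun s => map_one (𝒯.redf s))
  map_mul' a b := Subtype.ext (funext fun s => map_mul (𝒯.redf s) _ _)
  map_zero' := Subtype.ext (funext fun s => map_zero (𝒯.redf s))
  map_add' a b := Subtype.ext (funext fun s => map_add (𝒯.redf s) _ _)

theorem UTow.pi_red (𝒯 : UTow ℓ d) [Fact ℓ.Prime] (s : ℕ) (a : 𝒯.La) :
    (𝒯.om (ZMod ℓ)).pi s (𝒯.red a) = 𝒯.redf s (𝒯.la.pi s a) := rfl

end Pool.Agent.Lib.MP_666dc0_nt.FM
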