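import Pool.Agent.Lib.MP_666dc0_nt.FM.ODefs

/-!
# FM, C3: commuting endomorphisms and the stable rank
-/

namespace Pool.Agent.Lib.MP_666dc0_nt.FM

section aux

variable {D V : Type} [DivisionRing D] [AddCommGroup V] [Module D V]

/-- Fitting's lemma. -/
theorem pow_fit [FiniteDimensional D V] (f : Module.End D V) (x : V)
    (h : (f ^ Module.finrank D V) ((f ^ Module.finrank D V) x) = 0) : (f ^ Module.finrank D V) x = 0 := by
  have h1 : x ∈ LinearMap.ker (f ^ (Module.finrank D V + Module.finrank D V)) := by
    rw [LinearMap.mem_ker, pow_add]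
    exact h
  rw [Module.End.ker_pow_eq_ker_pow_finrank_of_le (by omega)] at h1
  exact h1

/-- Eigenvectors for different natural numbers are independent. -/
theorem exists_inj [CharZero D] [FiniteDimensional D V] (A B : Module.End D V) (V₁ : Submodule D V)
    (hA : ∀ x ∈ V₁, A x = 0 → x = 0) :
    ∃ c : ℕ, ∀ x ∈ V₁, (c : D) • A x + B x = 0 → x = 0 := by
  classical
  by_contra hcon
  push Not at hcon
  choose v hv1 hv2 hv3 using hcon
  have hind : LinearIndependent D v := by
    rw [linearIndependent_iff']
    intro s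
    induction s using Finset.induction_on with
    | empty => intro g _ i hi; exact absurd hi (Finset.notMem_empty i)
    | insert n s hn ih =>
      intro g hg
      have h1 : A (∑ i ∈ insert n s, (g i * (i : D)) • v i) = 0 := by
        have h2 := congrArg B hg
        rw [map_sum, map_zero] at h2
        rw [map_sum, ← neg_eq_zero, ← Finset.sum_neg_distrib]
        refine Eq.trans (Finset.sum_congr rfl fun i _ => ?_) h2
        rw [map_smul, map_smul, mul_smul, ← smul_neg, eq_neg_of_add_eq_zero_right (hv2 i)]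
      have h3 : ∑ i ∈ insert n s, (g i * (i : D)) • v i = 0 :=
        hA _ (Submodule.sum_mem _ fun i _ => Submodule.smul_mem _ _ (hv1 i)) h1
      have h4 : ∑ i ∈ s, (g i * ((i : D) - n)) • v i = 0 := by
        have h5 : ∑ i ∈ insert n s, (g i * ((i : D) - n)) • v i = 0 := by
          have h6 : ∀ i, (g i * ((i : D) - n)) • v i = (g i * (i : D)) • v i - (n : D) • g i • v i := by
            intro i
            rw [mul_sub, sub_smul, ← mul_smul, (Nat.cast_commute n (g i)).eq]
          rw [Finset.sum_congr rfl fun i _ => h6 i, Finset.sum_sub_distrib, h3, ← Finset.smul_sum, hg,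
            smul_zero, sub_zero]
        rwa [Finset.sum_insert hn, sub_self, mul_zero, zero_smul, zero_add] at h5
      have h7 : ∀ i ∈ s, g i = 0 := by
        intro i hi
        have h8 := ih (fun i => g i * ((i : D) - n)) h4 i hi
        refine (mul_eq_zero.1 h8).resolve_right (sub_ne_zero.2 ?_)
        intro h9
        exact hn ((Nat.cast_injective h9 : i = n) ▸ hi)
      intro i hi
      rcases Finset.mem_insert.1 hi with rfl | hi
      · rw [Finset.sum_insert hn, Finset.sum_eq_zero fun j hj => by rw [h7 j hj, zero_smul], add_zero] at hg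
        exact (smul_eq_zero.1 hg).resolve_right (hv3 i)
      · exact h7 i hi
  exact (Infinite.not_finite (α := ℕ)) hind.finite_of_isNoetherian

end aux

theorem srk_max {D V : Type} [DivisionRing D] [CharZero D] [AddCommGroup V] [Module D V] [FiniteDimensional D V]
    (t u : Module.End D V) (htu : Commute t u)
    (hmax : ∀ c : ℕ, srk ((c : Module.End D V) * t ^ Module.finrank D V + u ^ Module.finrank D V) ≤ srk t)
    (v : V) (hv : (t ^ Module.finrank D V) v = 0) : (u ^ Module.finrank D V) v = 0 := by
  classical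
  by_contra hne
  obtain ⟨A, hA⟩ : ∃ A, A = t ^ Module.finrank D V := ⟨_, rfl⟩
  obtain ⟨B, hB⟩ : ∃ B, B = u ^ Module.finrank D V := ⟨_, rfl⟩
  have hAA : ∀ x, A (A x) = 0 → A x = 0 := by rw [hA]; exact pow_fit t
  have hBB : ∀ x, B (B x) = 0 → B x = 0 := by rw [hB]; exact pow_fit u
  have hAB : ∀ x, A (B x) = B (A x) := by
    have h := htu.pow_pow (Module.finrank D V) (Module.finrank D V)
    rw [← hA, ← hB] at h
    exact fun x => LinearMap.congr_fun h x
  rw [← hA] at hv
  rw [← hB] at hne
  obtain ⟨c, hc⟩ := exists_inj A B (LinearMap.range A) (by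
    rintro _ ⟨x, rfl⟩ h
    exact hAA x h)
  have hmc := hmax c
  rw [← hA, ← hB] at hmc
  obtain ⟨f, hf⟩ : ∃ f, f = (c : Module.End D V) * A + B := ⟨_, rfl⟩
  rw [← hf] at hmc
  have hfx : ∀ x, f x = (c : D) • A x + B x := by
    intro x
    rw [hf, LinearMap.add_apply, Module.End.mul_apply, Module.End.natCast_apply, Nat.cast_smul_eq_nsmul]
  let W : Submodule D V := (LinearMap.ker A).map B
  have hW0 : ∀ x ∈ W, A x = 0 := by
    rintro _ ⟨x, hx, rfl⟩
    rw [hAB, (show A x = 0 from hx), map_zero]
  have hdis : ∀ x ∈ W, x ∈ LinearMap.range A → x = 0 := by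
    rintro x hx ⟨y, rfl⟩
    exact hAA y (hW0 _ hx)
  let X : Submodule D V := W ⊔ LinearMap.range A
  have hfW : ∀ x ∈ W, f x ∈ W := by
    intro x hx
    rw [hfx, hW0 x hx, smul_zero, zero_add]
    exact ⟨x, hW0 x hx, rfl⟩
  have hfR : ∀ x ∈ LinearMap.range A, f x ∈ LinearMap.range A := by
    rintro _ ⟨x, rfl⟩
    refine ⟨f x, ?_⟩
    rw [hfx, hfx, map_add, map_smul, hAB]
  have hmapX : ∀ x ∈ X, f x ∈ X := by
    intro x hx
    obtain ⟨y, hy, z, hz, rfl⟩ := Submodule.mem_sup.1 hx
    rw [map_add]
    exact Submodule.add_mem_sup (hfW y hy) (hfR z hz)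
  have hinjX : ∀ x ∈ X, f x = 0 → x = 0 := by
    intro x hx h0
    obtain ⟨y, hy, z, hz, rfl⟩ := Submodule.mem_sup.1 hx
    rw [map_add] at h0
    have h1 : f y = 0 := by
      refine hdis _ (hfW y hy) ?_
      rw [eq_neg_of_add_eq_zero_left h0]
      exact Submodule.neg_mem _ (hfR z hz)
    have h2 : f z = 0 := by rwa [h1, zero_add] at h0
    have h3 : y = 0 := by
      rw [hfx, hW0 y hy, smul_zero, zero_add] at h1
      obtain ⟨w, -, rfl⟩ := hy
      exact hBB w h1
    have h4 : z = 0 := hc z hz (by rw [← hfx]; exact h2)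
    rw [h3, h4, add_zero]
  have hpow : ∀ n : ℕ, ∀ x ∈ X, (f ^ n) x = 0 → x = 0 := by
    intro n
    induction n with
    | zero => intro x _ h; exact h
    | succ n ih =>
      intro x hx h
      rw [pow_succ, Module.End.mul_apply] at h
      exact hinjX x hx (ih _ (hmapX x hx) h)
  have h1 : Module.finrank D X ≤ srk f := by
    have h2 : Function.Injective ((f ^ Module.finrank D V).comp X.subtype) := by
      rw [injective_iff_map_eq_zero]
      rintro ⟨x, hx⟩ h
      exact Subtype.ext (hpow _ x hx h)
    rw [← LinearMap.finrank_range_of_inj h2]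
    exact Submodule.finrank_mono (LinearMap.range_comp_le_range _ _)
  have h2 : Module.finrank D W + Module.finrank D (LinearMap.range A) = Module.finrank D X := by
    have h3 : W ⊓ LinearMap.range A = ⊥ := by
      rw [eq_bot_iff]
      rintro x ⟨hx1, hx2⟩
      exact hdis x hx1 hx2
    have h4 := Submodule.finrank_sup_add_finrank_inf_eq W (LinearMap.range A)
    rw [h3, finrank_bot, add_zero] at h4
    exact h4.symm
  have h3 : 0 < Module.finrank D W := by
    rw [Module.finrank_pos_iff]
    exact ⟨⟨⟨B v, v, hv, rfl⟩, 0, fun h => hne (congrArg Subtype.val h)⟩⟩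
  have h4 : srk t = Module.finrank D (LinearMap.range A) := by
    rw [hA]; rfl
  omega

end Pool.Agent.Lib.MP_666dc0_nt.FM
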