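import Pool.Agent.Lib.MP_666dc0_nt.FM.ODefs

/-!
# FM, C0: the division ring of left fractions
-/

namespace Pool.Agent.Lib.MP_666dc0_nt.FM

open OreLocalization

theorem exists_division {Λ : Type} [Ring Λ] [NoZeroDivisors Λ] [Nontrivial Λ] (hore : LeftOre Λ) :
    ∃ (D : Type) (_ : DivisionRing D) (φ : Λ →+* D), Function.Injective φ ∧
      ∀ s : Finset D, ∃ a : Λ, a ≠ 0 ∧ ∀ y ∈ s, ∃ b : Λ, φ a * y = φ b := by
  classical
  have hne : Nonempty (OreLocalization.OreSet (nonZeroDivisors Λ)) := by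
    rw [OreLocalization.nonempty_oreSet_iff_of_noZeroDivisors]
    intro r s
    by_cases hr : r = 0
    · exact ⟨0, 1, by simp [hr]⟩
    · obtain ⟨x, y, h1, h2⟩ := hore r s hr (nonZeroDivisors.coe_ne_zero s)
      have hx : x ≠ 0 := by
        rintro rfl
        exact h2 (zero_mul r)
      exact ⟨y, ⟨x, mem_nonZeroDivisors_of_ne_zero hx⟩, h1⟩
  obtain ⟨i⟩ := hne
  refine ⟨OreLocalization (nonZeroDivisors Λ) Λ, inferInstance, OreLocalization.numeratorRingHom, ?_, ?_⟩
  · exact OreLocalization.numeratorHom_inj inf_le_left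
  · intro s
    induction s using Finset.induction_on with
    | empty => exact ⟨1, one_ne_zero, by simp⟩
    | insert y s hy ih =>
      obtain ⟨a, ha, h⟩ := ih
      obtain ⟨r, t, hrt⟩ : ∃ (r : Λ) (t : Λ), t ≠ 0 ∧
          (OreLocalization.numeratorRingHom (S := nonZeroDivisors Λ) t) * y = OreLocalization.numeratorRingHom r := by
        induction y using OreLocalization.ind with | _ r t
        refine ⟨r, t, nonZeroDivisors.coe_ne_zero t, ?_⟩
        change ((t : Λ) /ₒ (1 : nonZeroDivisors Λ)) * (r /ₒ t) = r /ₒ (1 : nonZeroDivisors Λ)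
        exact OreLocalization.mul_cancel
      obtain ⟨x, z, h1, h2⟩ := hore a t ha hrt.1
      refine ⟨x * a, h2, fun y' hy' => ?_⟩
      rcases Finset.mem_insert.1 hy' with rfl | hy'
      · exact ⟨z * r, by rw [h1, map_mul, mul_assoc, hrt.2, map_mul]⟩
      · obtain ⟨b, hb⟩ := h y' hy'
        exact ⟨x * b, by rw [map_mul, mul_assoc, hb, map_mul]⟩

end Pool.Agent.Lib.MP_666dc0_nt.FM
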