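import Pool.Agent.Lib.MP_666dc0_nt.Mg.G073

/-!
# Reduction modulo `ℓ`
-/

set_option autoImplicit false

namespace Pool.Agent.Lib.MP_666dc0_nt.FM.PA

open ZO

section zmod

variable {ℓ : ℕ} [Fact ℓ.Prime]

theorem zmod_dvd (s : ℕ) (c : ZMod (ℓ ^ (s + 1)))
    (h : ZMod.castHom (dvd_pow_self ℓ (Nat.succ_ne_zero s)) (ZMod ℓ) c = 0) :
    ∃ c' : ZMod (ℓ ^ (s + 1)), c = (ℓ : ZMod (ℓ ^ (s + 1))) * c' := by
  have hne : NeZero (ℓ ^ (s + 1)) := ⟨pow_ne_zero _ (Fact.out : ℓ.Prime).ne_zero⟩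
  obtain ⟨n, rfl⟩ := ZMod.natCast_zmod_surjective c
  rw [map_natCast, ZMod.natCast_eq_zero_iff] at h
  obtain ⟨m, rfl⟩ := h
  exact ⟨(m : ZMod (ℓ ^ (s + 1))), by push_cast; ring⟩

theorem zmod_tor (s : ℕ) (c : ZMod (ℓ ^ (s + 2))) (h : (ℓ : ZMod (ℓ ^ (s + 2))) * c = 0) :
    ZMod.castHom (pow_dvd_pow ℓ (Nat.le_succ (s + 1))) (ZMod (ℓ ^ (s + 1))) c = 0 := by
  have hne : NeZero (ℓ ^ (s + 2)) := ⟨pow_ne_zero _ (Fact.out : ℓ.Prime).ne_zero⟩
  obtain ⟨n, rfl⟩ := ZMod.natCast_zmod_surjective c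
  rw [map_natCast, ZMod.natCast_eq_zero_iff]
  rw [← Nat.cast_mul, ZMod.natCast_eq_zero_iff] at h
  have h2 : ℓ ^ (s + 2) = ℓ * ℓ ^ (s + 1) := by ring
  rw [h2] at h
  exact Nat.dvd_of_mul_dvd_mul_left (Fact.out : ℓ.Prime).pos h

end zmod

section ma

variable {P P' : Type} {R R' : Type} [CommRing R] [CommRing R']

/-- An element of a monoid algebra with given coefficients. -/
theorem exists_coeff [Finite P] (f : P → R) : ∃ x : MonoidAlgebra R P, ∀ p, x.coeff p = f p :=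
  ⟨MonoidAlgebra.ofCoeff (Finsupp.equivFunOnFinite.symm f), fun _ => rfl⟩

theorem coeff_natCast_mul (m : ℕ) (x : MonoidAlgebra R P) [Monoid P] (p : P) :
    ((m : MonoidAlgebra R P) * x).coeff p = (m : R) * x.coeff p := by
  have h : (m : MonoidAlgebra R P) * x = m • x := (nsmul_eq_mul m x).symm
  rw [h]
  change (m • x.coeff) p = _
  rw [Finsupp.smul_apply, nsmul_eq_mul]

end ma

variable {ℓ d : ℕ} [Fact ℓ.Prime] (T : UTow ℓ d)

theorem redf_dvd (s : ℕ) (x : T.la.A s) (h : T.redf s x = 0) : ∃ y : T.la.A s, x = (ℓ : T.la.A s) * y := by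
  have h1 : ∀ p, ∃ c, (x : MonoidAlgebra (ZMod (ℓ ^ (s + 1))) (T.P s)).coeff p = (ℓ : ZMod (ℓ ^ (s + 1))) * c := by
    intro p
    apply zmod_dvd s
    have h2 := congrArg (fun y : MonoidAlgebra (ZMod ℓ) (T.P s) => y.coeff p) h
    have h3 := MonoidAlgebra.coeff_mapRingHom (M := T.P s)
      (ZMod.castHom (dvd_pow_self ℓ (Nat.succ_ne_zero s)) (ZMod ℓ)) x p
    exact h3.symm.trans h2
  choose f hf using h1
  obtain ⟨y, hy⟩ := exists_coeff f
  refine ⟨y, ?_⟩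
  change (x : MonoidAlgebra (ZMod (ℓ ^ (s + 1))) (T.P s)) = (ℓ : MonoidAlgebra (ZMod (ℓ ^ (s + 1))) (T.P s)) * y
  apply MonoidAlgebra.coeff_injective
  ext p
  rw [hf p, coeff_natCast_mul, hy p]

theorem redf_mul_ell (s : ℕ) (y : T.la.A s) : T.redf s ((ℓ : T.la.A s) * y) = 0 := by
  rw [map_mul, map_natCast]
  have h : ((ℓ : ℕ) : (T.om (ZMod ℓ)).A s) = 0 := by
    change ((ℓ : ℕ) : MonoidAlgebra (ZMod ℓ) (T.P s)) = 0
    rw [← map_natCast (algebraMap (ZMod ℓ) (MonoidAlgebra (ZMod ℓ) (T.P s))), ZMod.natCast_self, map_zero]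
  rw [h, zero_mul]

theorem la_tor (s : ℕ) (x : T.la.A (s + 1)) (h : (ℓ : T.la.A (s + 1)) * x = 0) : T.la.f s x = 0 := by
  have key : ∀ x : MonoidAlgebra (ZMod (ℓ ^ (s + 2))) (T.P (s + 1)),
      (ℓ : MonoidAlgebra (ZMod (ℓ ^ (s + 2))) (T.P (s + 1))) * x = 0 → MonoidAlgebra.mapRingHom (T.P (s + 1))
        (ZMod.castHom (pow_dvd_pow ℓ (Nat.le_succ (s + 1))) (ZMod (ℓ ^ (s + 1)))) x = 0 := by
    intro x h
    apply MonoidAlgebra.coeff_injective
    ext p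
    rw [MonoidAlgebra.coeff_mapRingHom]
    apply zmod_tor
    rw [← coeff_natCast_mul, h]
    rfl
  have h1 := key x h
  change MonoidAlgebra.mapDomainRingHom _ (T.pr s) (MonoidAlgebra.mapRingHom (T.P (s + 1)) _ x) = 0
  exact (congrArg _ h1).trans (map_zero _)

instance la_finite (s : ℕ) : Finite (T.la.A s) := by
  change Finite (MonoidAlgebra (ZMod (ℓ ^ (s + 1))) (T.P s))
  have hne : NeZero (ℓ ^ (s + 1)) := ⟨pow_ne_zero _ (Fact.out : ℓ.Prime).ne_zero⟩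
  have h : Finite (T.P s →₀ ZMod (ℓ ^ (s + 1))) :=
    Finite.of_injective (fun f : T.P s →₀ ZMod (ℓ ^ (s + 1)) => (f : T.P s → ZMod (ℓ ^ (s + 1)))) DFunLike.coe_injective
  exact Finite.of_equiv _ (MonoidAlgebra.coeffEquiv (R := ZMod (ℓ ^ (s + 1))) (M := T.P s)).symm

/-- `La` has no `ℓ`-torsion. -/
theorem eq_zero_of_ell_mul (a : T.La) (h : (ℓ : T.La) * a = 0) : a = 0 := by
  apply T.la.ext
  intro s
  rw [map_zero, ← T.la.f_pi s a]
  apply la_tor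
  have h1 := congrArg (T.la.pi (s + 1)) h
  rw [map_mul, map_natCast, map_zero] at h1
  exact h1

theorem eq_zero_of_ell_pow_mul (j : ℕ) (a : T.La) (h : (ℓ : T.La) ^ j * a = 0) : a = 0 := by
  induction j with
  | zero => rwa [pow_zero, one_mul] at h
  | succ j ih =>
    apply ih
    apply eq_zero_of_ell_mul
    rw [← mul_assoc, ← pow_succ']
    exact h

/-- The kernel of the reduction. -/
theorem exists_of_red (a : T.La) (h : T.red a = 0) : ∃ b : T.La, a = (ℓ : T.La) * b := by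
  have h1 : ∀ s, ∃ y : T.la.A s, T.la.pi s a = (ℓ : T.la.A s) * y := by
    intro s
    apply redf_dvd
    have h2 := congrArg ((T.om (ZMod ℓ)).pi s) h
    rw [T.pi_red, map_zero] at h2
    exact h2
  choose y hy using h1
  have hb : ∀ s, T.la.f s (T.la.f (s + 1) (y (s + 1 + 1))) = T.la.f s (y (s + 1)) := by
    intro s
    rw [← sub_eq_zero, ← map_sub]
    apply la_tor
    rw [mul_sub, ← hy (s + 1)]
    have h3 : (ℓ : T.la.A (s + 1)) * T.la.f (s + 1) (y (s + 1 + 1)) = T.la.f (s + 1) ((ℓ : T.la.A (s + 1 + 1)) * y (s + 1 + 1)) := by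
      rw [map_mul, map_natCast]
    rw [h3, ← hy (s + 1 + 1), T.la.f_pi, sub_self]
  refine ⟨⟨fun s => T.la.f s (y (s + 1)), fun s => hb s⟩, ?_⟩
  apply T.la.ext
  intro s
  rw [map_mul, map_natCast]
  change T.la.pi s a = (ℓ : T.la.A s) * T.la.f s (y (s + 1))
  have h3 : (ℓ : T.la.A s) * T.la.f s (y (s + 1)) = T.la.f s ((ℓ : T.la.A (s + 1)) * y (s + 1)) := by
    rw [map_mul, map_natCast]
  rw [h3, ← hy (s + 1), T.la.f_pi]

theorem red_ell_mul (b : T.La) : T.red ((ℓ : T.La) * b) = 0 := by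
  apply (T.om (ZMod ℓ)).ext
  intro s
  rw [T.pi_red, map_mul, map_natCast, redf_mul_ell, map_zero]

theorem redf_surjective (s : ℕ) (x : (T.om (ZMod ℓ)).A s) : ∃ y, T.redf s y = x := by
  have h1 : ∀ p, ∃ c, ZMod.castHom (dvd_pow_self ℓ (Nat.succ_ne_zero s)) (ZMod ℓ) c =
      (x : MonoidAlgebra (ZMod ℓ) (T.P s)).coeff p := fun p => ZMod.castHom_surjective _ _
  choose f hf using h1
  obtain ⟨y, hy⟩ := exists_coeff f
  refine ⟨y, ?_⟩
  change MonoidAlgebra.mapRingHom (T.P s) _ y = (x : MonoidAlgebra (ZMod ℓ) (T.P s))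
  apply MonoidAlgebra.coeff_injective
  ext p
  rw [MonoidAlgebra.coeff_mapRingHom, hy, hf]

theorem red_surjective : Function.Surjective T.red := by
  intro a
  let X : ℕ → Type := fun s => {y : T.la.A s // T.redf s y = (T.om (ZMod ℓ)).pi s a}
  have _ : ∀ s, Nonempty (X s) := fun s => by
    obtain ⟨y, hy⟩ := redf_surjective T s ((T.om (ZMod ℓ)).pi s a)
    exact ⟨⟨y, hy⟩⟩
  obtain ⟨c, hc⟩ := konig (X := X) (fun s c => ⟨T.la.f s c.1, by
    rw [← T.redf_f, c.2, (T.om (ZMod ℓ)).f_pi]⟩)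
  refine ⟨⟨fun s => (c s).1, fun s => congrArg Subtype.val (hc s)⟩, ?_⟩
  apply (T.om (ZMod ℓ)).ext
  intro s
  exact (c s).2

/-- The intersection of the ideals `ℓ ^ j La` is zero. -/
theorem eq_zero_of_forall (a : T.La) (h : ∀ j, ∃ b : T.La, a = (ℓ : T.La) ^ j * b) : a = 0 := by
  apply T.la.ext
  intro s
  obtain ⟨b, rfl⟩ := h (s + 1)
  rw [map_mul, map_pow, map_natCast, map_zero]
  have h1 : ((ℓ : ℕ) : T.la.A s) ^ (s + 1) = 0 := by
    change ((ℓ : ℕ) : MonoidAlgebra (ZMod (ℓ ^ (s + 1))) (T.P s)) ^ (s + 1) = 0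
    rw [← Nat.cast_pow, ← map_natCast (algebraMap (ZMod (ℓ ^ (s + 1))) (MonoidAlgebra (ZMod (ℓ ^ (s + 1))) (T.P s))),
      ZMod.natCast_self, map_zero]
  rw [h1, zero_mul]

theorem exists_pow_mul (a : T.La) (ha : a ≠ 0) :
    ∃ (j : ℕ) (b : T.La), a = (ℓ : T.La) ^ j * b ∧ T.red b ≠ 0 := by
  classical
  have h : ∃ j, ¬ ∃ b : T.La, a = (ℓ : T.La) ^ j * b := by
    by_contra h
    push Not at h
    exact ha (eq_zero_of_forall T a h)
  have h0 : Nat.find h ≠ 0 := by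
    intro h1
    have h2 := Nat.find_spec h
    rw [h1] at h2
    exact h2 ⟨a, by rw [pow_zero, one_mul]⟩
  obtain ⟨j, hj⟩ := Nat.exists_eq_succ_of_ne_zero h0
  have h3 : ∃ b : T.La, a = (ℓ : T.La) ^ j * b := by
    by_contra h4
    have h5 := Nat.find_min' h h4
    omega
  obtain ⟨b, hb⟩ := h3
  refine ⟨j, b, hb, fun h6 => ?_⟩
  obtain ⟨b', rfl⟩ := exists_of_red T b h6
  have h7 := Nat.find_spec h
  rw [hj] at h7
  exact h7 ⟨b', by rw [hb, pow_succ, mul_assoc]⟩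

theorem ell_comm (j : ℕ) (a : T.La) : a * (ℓ : T.La) ^ j = (ℓ : T.La) ^ j * a := by
  rw [← Nat.cast_pow]
  exact ((Nat.cast_commute _ _).eq).symm

end Pool.Agent.Lib.MP_666dc0_nt.FM.PA
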