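import Pool.Agent.Lib.MP_666dc0_nt.FM.B2c

/-!
# FM, B: the completed group ring acts, with large ranks (leader: helper18, with helper17)

`G` is the compact group `K 0`, `q s : G → P s` the projections.

B0: `WI J ρ` has dimension `J.index * w` (coordinates: the values at representatives of `G / J`).
B1 (`exists_act`): the group `G` acts on the finite-dimensional space `WI J ρ` by left translations, continuously:
`Φ (g⁻¹ x) = Φ (x · x⁻¹ g⁻¹ x) = ρ (x⁻¹ g x) Φ x` for `g ∈ ker (q s)`, `s` large (`ker (q s) ≤ J`). All values of `Φ` are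
in a finite extension `L / ℚ_ℓ` (complete). For `a ∈ La` the sums `∑_{p ∈ P s} ã_s(p) (g_p Φ)`, `ã_s(p)` an integer with
residue `a_s(p)`, `g_p ∈ G` over `p`, form a Cauchy sequence; the limit does not depend on the choices; additive,
multiplicative (compare with `∑ ã(p) b̃(p') g_p g_(p')`), `cont`.
B2 (`rank_act`): by `exists_pow_mul` (part A) `a = ℓ^j b` with `red b ≠ 0`, same rank. The integral elements of
`WI J ρ` have a basis (values at representatives), on which `b` acts by an integral matrix whose reduction is `w`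
copies of the action of `red b` on the functions on `G / J` (`ρ ≡ 1` modulo `ℓ`; compare ZO/G2, M6), and the
rank does not increase under reduction. `ker (q s') ≤ J` for some `s' ≥ s`: `rank_subgroup` (ZO/P2c) compares
`G / J` with `P s`, because `J ≤ ker (q s)`: `rank / |G : J| ≥ rank (mulLeft (b_s)) / |P s|`, and `rank_tower` (ZO/R4)
gives `rank (mulLeft (b_s)) ≥ (1 - C ℓ^(-s)) |P s|`.
-/

namespace Pool.Agent.Lib.MP_666dc0_nt.FM

open ZO

variable {ℓ d : ℕ} [Fact ℓ.Prime] {𝒯 : UTow ℓ d} {G : Type} [Group G]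

theorem finrank_WI (𝒬 : QTow 𝒯 G) (J : Subgroup G) (hJ : ∃ s, ∀ x, 𝒬.q s x = 1 → x ∈ J) {w : ℕ}
    (ρ : G →* Matrix (Fin w) (Fin w) (PadicAlgCl ℓ)) :
    FiniteDimensional (PadicAlgCl ℓ) (WI J ρ) ∧ Module.finrank (PadicAlgCl ℓ) (WI J ρ) = J.index * w := by
  obtain ⟨s, hs⟩ := hJ
  have hker : (𝒬.q s).ker ≤ J := fun x hx => hs x hx
  have hfi : J.FiniteIndex := Subgroup.finiteIndex_of_le hker
  exact finrank_WI' ρ J

theorem exists_act (𝒬 : QTow 𝒯 G) (J : Subgroup G) (hJ : ∃ s, ∀ x, 𝒬.q s x = 1 → x ∈ J) {w : ℕ}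
    (ρ : G →* Matrix (Fin w) (Fin w) (PadicAlgCl ℓ)) (hρ : IsSmall 𝒬 ρ) : ∃ act, IsAct 𝒬 J ρ act :=
  exists_act' 𝒬 J hJ ρ hρ

theorem rank_act (𝒬 : QTow 𝒯 G) (a : 𝒯.La) (ha : a ≠ 0) : ∃ C : ℝ, ∀ (s : ℕ) (J : Subgroup G),
    (∃ s, ∀ x, 𝒬.q s x = 1 → x ∈ J) → (∀ x ∈ J, 𝒬.q s x = 1) →
    ∀ (w : ℕ) (ρ : G →* Matrix (Fin w) (Fin w) (PadicAlgCl ℓ)), IsSmall 𝒬 ρ → ∀ act, IsAct 𝒬 J ρ act →
    (1 - C / (ℓ : ℝ) ^ s) * (Module.finrank (PadicAlgCl ℓ) (WI J ρ) : ℝ) ≤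
      (Module.finrank (PadicAlgCl ℓ) (LinearMap.range (act a)) : ℝ) :=
  rank_act' 𝒬 a ha

end Pool.Agent.Lib.MP_666dc0_nt.FM
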