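import Pool.Agent.Lib.MP_666dc0_nt.FM.BDefs
import Pool.Agent.Lib.MP_666dc0_nt.Mg.G077

/-!
# FM, D1: the tower of the quotients `K 0 / K s`

`P s = PP K s` (groups by `hK.normal_K`, finite by `hK.finite_PP`), `pr s = prP hK.anti s`, `g s i = mk (g i)` for the
generators `g` of `hK.gen`; `ug` as in the proof of `IsUniform.exists_isUG` of ZO/X3 (there the generators of level `s`
are chosen inside the statement: copy the proof for these `g`); `q s = QuotientGroup.mk'`,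
`q s x = 1 ↔ x ∈ (K s).subgroupOf (K 0)` (`QuotientGroup.eq_one_iff`).
-/

open NumberField IsDedekindDomain
open scoped NumberField

namespace Pool.Agent.Lib.MP_666dc0_nt.FM

open WL ZO

variable {F : Type} [Field F] [NumberField F] {n : ℕ} {D : Datum F n} {ℓ : ℕ} [Fact ℓ.Prime]
  {U : Subgroup D.Ad}

/-- The class of an element of `K 0` which is in `closure T ⊔ K s` is in the closure of the classes of `T`. -/
private theorem D1_mk_mem {K : ℕ → Subgroup D.Ad} [hn : ∀ s, ((K s).subgroupOf (K 0)).Normal] (s : ℕ) {T : Set D.Ad}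
    (hT : T ⊆ K 0) (hKs : K s ≤ K 0) {V : Subgroup (PP K s)}
    (hV : ∀ t (ht : t ∈ K 0), t ∈ T → (QuotientGroup.mk (⟨t, ht⟩ : K 0) : PP K s) ∈ V)
    {x : D.Ad} (hx : x ∈ Subgroup.closure T ⊔ K s) (hx0 : x ∈ K 0) :
    (QuotientGroup.mk (⟨x, hx0⟩ : K 0) : PP K s) ∈ V := by
  have h1 : Subgroup.closure T ⊔ K s ≤ (V.comap (QuotientGroup.mk' ((K s).subgroupOf (K 0)))).map (K 0).subtype := by
    rw [sup_le_iff, Subgroup.closure_le]
    refine ⟨fun t ht => ?_, fun t ht => ?_⟩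
    · exact ⟨⟨t, hT ht⟩, hV t (hT ht) ht, rfl⟩
    · refine ⟨⟨t, hKs ht⟩, ?_, rfl⟩
      have : (QuotientGroup.mk' ((K s).subgroupOf (K 0))) ⟨t, hKs ht⟩ = 1 := by
        rw [QuotientGroup.mk'_apply, QuotientGroup.eq_one_iff]
        exact ht
      show (QuotientGroup.mk' ((K s).subgroupOf (K 0))) ⟨t, hKs ht⟩ ∈ V
      rw [this]
      exact V.one_mem
  obtain ⟨y, hy, hyx⟩ := h1 hx
  have : y = ⟨x, hx0⟩ := Subtype.ext hyx
  rw [← this]
  exact hy

private theorem D1_isUG {d : ℕ} {K : ℕ → Subgroup D.Ad} [hn : ∀ s, ((K s).subgroupOf (K 0)).Normal]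
    (hK : IsUniform ℓ d U K) {g : Fin d → D.Ad} (hg0 : ∀ i, g i ∈ K 0)
    (hg : ∀ s, (∀ i, g i ^ ℓ ^ s ∈ K s) ∧ K 0 ≤ Subgroup.closure (Set.range g) ⊔ K s) (s : ℕ) :
    IsUG ℓ (ℓ ^ s) d (PP K s) (fun i => (QuotientGroup.mk (⟨g i, hg0 i⟩ : K 0) : PP K s)) := by
  have hKs : K s ≤ K 0 := hK.K_le (Nat.zero_le s)
  refine ⟨?_, ?_, ?_, ?_⟩
  · rw [hK.card_PP s, pow_mul]
  · rw [eq_top_iff]
    intro z _
    obtain ⟨⟨x, hx⟩, rfl⟩ := QuotientGroup.mk_surjective z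
    refine D1_mk_mem s (T := Set.range g) ?_ hKs ?_ ((hg s).2 hx) hx
    · rintro _ ⟨i, rfl⟩
      exact hg0 i
    · rintro _ ht ⟨i, rfl⟩
      exact Subgroup.subset_closure ⟨i, rfl⟩
  · intro i
    have h1 : (QuotientGroup.mk (⟨g i, hg0 i⟩ : K 0) : PP K s) ^ ℓ ^ s =
        QuotientGroup.mk ((⟨g i, hg0 i⟩ : K 0) ^ ℓ ^ s) := rfl
    show (QuotientGroup.mk (⟨g i, hg0 i⟩ : K 0) : PP K s) ^ ℓ ^ s = 1
    rw [h1, QuotientGroup.eq_one_iff]
    exact (hg s).1 i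
  · intro x y
    obtain ⟨⟨x, hx⟩, rfl⟩ := QuotientGroup.mk_surjective x
    obtain ⟨⟨y, hy⟩, rfl⟩ := QuotientGroup.mk_surjective y
    refine D1_mk_mem s (T := {x | ∃ y ∈ K 0, x = y ^ (if ℓ = 2 then 4 else ℓ)}) ?_ hKs ?_
      (hK.comm s x hx y hy) (mul_mem (mul_mem (mul_mem hx hy) (inv_mem hx)) (inv_mem hy))
    · rintro _ ⟨y, hy, rfl⟩
      exact pow_mem hy _
    · rintro _ ht ⟨y, hy, rfl⟩
      exact Subgroup.subset_closure ⟨QuotientGroup.mk (⟨y, hy⟩ : K 0), rfl⟩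

theorem exists_utow {d : ℕ} {K : ℕ → Subgroup D.Ad} (hK : IsUniform ℓ d U K) :
    ∃ (𝒯 : UTow ℓ d) (𝒬 : QTow 𝒯 (K 0)), ∀ s x, 𝒬.q s x = 1 ↔ (x : D.Ad) ∈ K s := by
  have hn : ∀ s, ((K s).subgroupOf (K 0)).Normal := hK.normal_K
  have hf : ∀ s, Finite (PP K s) := hK.finite_PP
  obtain ⟨g, hg0, hg⟩ := hK.gen
  refine ⟨{ P := fun s => PP K s
            pr := fun s => prP hK.anti s
            surj := fun s z => ?_
            g := fun s i => (QuotientGroup.mk (⟨g i, hg0 i⟩ : K 0) : PP K s)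
            pr_g := fun s i => rfl
            ug := fun s => D1_isUG hK hg0 hg s }, 
          { q := fun s => QuotientGroup.mk' ((K s).subgroupOf (K 0))
            surj := fun s => QuotientGroup.mk'_surjective _
            compat := fun s x => rfl }, fun s x => ?_⟩
  · obtain ⟨x, rfl⟩ := QuotientGroup.mk_surjective z
    exact ⟨QuotientGroup.mk x, rfl⟩
  · change (QuotientGroup.mk x : K 0 ⧸ (K s).subgroupOf (K 0)) = 1 ↔ _
    rw [QuotientGroup.eq_one_iff]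
    rfl

end Pool.Agent.Lib.MP_666dc0_nt.FM
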