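import Pool.Agent.Lib.MP_666dc0_nt.FM.D2
import Pool.Agent.Lib.MP_666dc0_nt.WL.D1defs
import Pool.Agent.Lib.MP_666dc0_nt.WL.C5a
import Pool.Agent.Lib.MP_666dc0_nt.ZO.A1

/-!
# FM, D3: the matrices of the Hecke operators over the completed group ring

`x = (v, h)`, `v ∉ S`. In `act_mX` both sides are sums over the support of `h`:
`∑_r act (mX r' r) (Φ_r) (k) = ∑_y a_y (gr ((kap g_y)⁻¹) Φ_(cls g_y)) (k) = ∑_y a_y Φ_(cls g_y) (kap g_y * k)`,
`g_y = pt r' * out y` (`IsAct.gr`, `IsAct.zl`), `Φ_(cls g_y) (kap g_y * k) = Φ (g_y * k)` (`coordW_formula` for `g_y * k`: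
`cls_right`, `kap_mul`), and `out y * k = k * out y`, because `out y` has trivial components outside `v ∉ S`, which does
not divide `ℓ` by `hSl`, and `k` has trivial components outside `ℓ` (`mul_comm_of_disjoint`, as in `Chart.apply_eq`).
The values: `algebraMap ℚ_[ℓ] (PadicAlgCl ℓ) ((a : ℚ) : ℚ_[ℓ]) = (a : PadicAlgCl ℓ)` (`map_ratCast`).
-/

open NumberField IsDedekindDomain
open scoped NumberField

namespace Pool.Agent.Lib.MP_666dc0_nt.FM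

open WL ZO

variable {F : Type} [Field F] [NumberField F] {n : ℕ} {D : Datum F n} {ℓ : ℕ} [Fact ℓ.Prime]
  {S : Finset (HeightOneSpectrum (𝓞 F))} {U : Subgroup D.Ad} {K : ℕ → Subgroup D.Ad} {d : ℕ} {𝒯 : UTow ℓ d}

open Classical in
/-- The matrix of the Hecke operator `x`. -/
noncomputable def mX (𝒬 : QTow 𝒯 (K 0)) (c : Chart U K) (x : IX ℓ S U) : Matrix c.R c.R 𝒯.La := fun r' r =>
  ∑ y ∈ x.1.2.1.support,
    if c.cls (c.pt r' * ((Quotient.out y : locSub D x.1.1) : D.Ad)) = r then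
      𝒯.zl ⟨((x.1.2.1 y : ℚ) : ℚ_[ℓ]), x.2.2 y⟩ *
        𝒬.gr (c.kap (c.pt r' * ((Quotient.out y : locSub D x.1.1) : D.Ad)))⁻¹
    else 0

theorem act_mX (𝒬 : QTow 𝒯 (K 0)) (c : Chart U K)
    (hSl : ∀ v : HeightOneSpectrum (𝓞 F), (ℓ : 𝓞 F) ∈ v.asIdeal → v ∈ S) (hU : IsTame ℓ U)
    (hK : ∀ g ∈ K 0, ∀ v : HeightOneSpectrum (𝓞 F), (ℓ : 𝓞 F) ∉ v.asIdeal → TrivialAt v g) {J : Subgroup D.Ad}
    {w : ℕ} (ρ : K 0 →* Matrix (Fin w) (Fin w) (PadicAlgCl ℓ))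
    {act : 𝒯.La →+* Module.End (PadicAlgCl ℓ) (WI (J.subgroupOf (K 0)) ρ)}
    (hact : IsAct 𝒬 (J.subgroupOf (K 0)) ρ act) (Φ : VF U (tow K J) ρ 1) (x : IX ℓ S U) (r' : c.R) (k : K 0)
    (j : Fin w) :
    (∑ r, act (mX 𝒬 c x r' r) (coordW c J ρ Φ r)).1 k j = x.1.2.actK (fun g => Φ.1 g j) (c.pt r' * k) := by
  classical
  let L : WI (J.subgroupOf (K 0)) ρ →ₗ[PadicAlgCl ℓ] PadicAlgCl ℓ :=
    { toFun := fun Ψ => Ψ.1 k j, map_add' := fun _ _ => rfl, map_smul' := fun _ _ => rfl }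
  have hcomm : ∀ y : LocQuot U x.1.1, c.pt r' * ((Quotient.out y : locSub D x.1.1) : D.Ad) * (k : D.Ad) =
      c.pt r' * (k : D.Ad) * ((Quotient.out y : locSub D x.1.1) : D.Ad) := by
    intro y
    rw [mul_assoc, mul_assoc]
    congr 1
    refine mul_comm_of_disjoint fun v => ?_
    by_cases hv : (ℓ : 𝓞 F) ∈ v.asIdeal
    · exact Or.inl ((Quotient.out y : locSub D x.1.1).2 v fun e => x.2.1 (e ▸ hSl v hv))
    · exact Or.inr (hK _ k.2 v hv)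
  have hval : ∀ y : LocQuot U x.1.1, (coordW c J ρ Φ (c.cls (c.pt r' * ((Quotient.out y : locSub D x.1.1) : D.Ad)))).1
      (c.kap (c.pt r' * ((Quotient.out y : locSub D x.1.1) : D.Ad)) * k) =
      Φ.1 (c.pt r' * (k : D.Ad) * ((Quotient.out y : locSub D x.1.1) : D.Ad)) := by
    intro y
    rw [← hcomm y, coordW_formula c hU hK J ρ Φ, c.cls_right _ _ (Subgroup.mem_sup_right k.2), c.kap_mul]
  change L (∑ r, act (mX 𝒬 c x r' r) (coordW c J ρ Φ r)) = _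
  rw [map_sum]
  have h1 : ∀ r, L (act (mX 𝒬 c x r' r) (coordW c J ρ Φ r)) = ∑ y ∈ x.1.2.1.support,
      if c.cls (c.pt r' * ((Quotient.out y : locSub D x.1.1) : D.Ad)) = r then
        ((x.1.2.1 y : ℚ) : PadicAlgCl ℓ) *
          Φ.1 (c.pt r' * (k : D.Ad) * ((Quotient.out y : locSub D x.1.1) : D.Ad)) j else 0 := by
    intro r
    unfold mX
    rw [map_sum, LinearMap.sum_apply, map_sum]
    refine Finset.sum_congr rfl fun y _ => ?_
    split_ifs with hr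
    · rw [map_mul, Module.End.mul_apply, hact.zl, map_smul, smul_eq_mul]
      refine congrArg₂ (· * ·) (map_ratCast (algebraMap ℚ_[ℓ] (PadicAlgCl ℓ)) _) ?_
      change (act (𝒬.gr _) _).1 k j = _
      rw [hact.gr, inv_inv, ← hr, hval y]
    · rw [map_zero, LinearMap.zero_apply, map_zero]
  rw [Finset.sum_congr rfl fun r _ => h1 r, Finset.sum_comm]
  unfold Hecke.actK Finsupp.sum
  refine Finset.sum_congr rfl fun y _ => ?_
  rw [Finset.sum_ite_eq, if_pos (Finset.mem_univ _)]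

/-- Both sides of `IsEF` are `IsTF`, so they are determined by the values at `pt r' * k` (`Chart.apply_eq` of ZO/X2b);
`act_mX`. -/
theorem eigen_iff (𝒬 : QTow 𝒯 (K 0)) (c : Chart U K) (ι : ℂ ≃+* PadicAlgCl ℓ)
    (hSl : ∀ v : HeightOneSpectrum (𝓞 F), (ℓ : 𝓞 F) ∈ v.asIdeal → v ∈ S) (hU : IsTame ℓ U)
    (hUS : ∀ v, v ∉ S → IsGoodAt U v)
    (hK : ∀ g ∈ K 0, ∀ v : HeightOneSpectrum (𝓞 F), (ℓ : 𝓞 F) ∉ v.asIdeal → TrivialAt v g) {J : Subgroup D.Ad}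
    {w : ℕ} (ρ : K 0 →* Matrix (Fin w) (Fin w) (PadicAlgCl ℓ))
    {act : 𝒯.La →+* Module.End (PadicAlgCl ℓ) (WI (J.subgroupOf (K 0)) ρ)}
    (hact : IsAct 𝒬 (J.subgroupOf (K 0)) ρ act) (Φ : VF U (tow K J) ρ 1) (e : IX ℓ S U → PadicAlgCl ℓ) :
    (∀ x r', ∑ r, act (mX 𝒬 c x r' r) (coordW c J ρ Φ r) = e x • coordW c J ρ Φ r') ↔
      ∀ j, IsEF S U (fun g => Φ.1 g j) e := by
  have hΦ : IsVF U (tow K J) ρ 1 Φ.1 := Φ.2
  constructor
  · intro h j x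
    obtain ⟨op, hop⟩ := exists_op (ℓ := ℓ) S U ι hUS
    let φ : FU ℓ U := ⟨fun g => Φ.1 g j, fun g u hu => congrFun (hΦ.tf.right g u hu) j⟩
    have hX := hop.X x φ
    have ht : IsTF U (x.1.2.actK fun g => Φ.1 g j) := by
      refine ⟨fun γ g => ?_, fun g u hu => ?_⟩
      · unfold Hecke.actK
        simp only [mul_assoc, hΦ.tf.left]
      · change (x.1.2.actK φ.1) (g * u) = (x.1.2.actK φ.1) g
        rw [← hX]
        exact (op (MvPolynomial.X x) φ).2 g u hu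
    funext g
    change x.1.2.actK (fun g => Φ.1 g j) g = e x * Φ.1 g j
    have h2 : Φ.1 g j = Φ.1 (c.pt (c.cls g) * c.kap g) j := congrFun (c.apply_eq hU hK hΦ.tf g) j
    rw [c.apply_eq hU hK ht g, h2, ← act_mX 𝒬 c hSl hU hK ρ hact Φ x, h x]
    rfl
  · intro h x r'
    refine Subtype.ext (funext fun k => funext fun j => ?_)
    rw [act_mX 𝒬 c hSl hU hK ρ hact Φ x, h j x]
    rfl

end Pool.Agent.Lib.MP_666dc0_nt.FM
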