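import Pool.Agent.Lib.MP_666dc0_nt.FM.ODefs
import Pool.Agent.Lib.MP_666dc0_nt.FM.TDefs

/-!
# The action of a completed group ring on spaces of functions: definitions (complete, NOT a task)
-/

namespace Pool.Agent.Lib.MP_666dc0_nt.FM

open ZO

variable {ℓ d : ℕ}

/-- The image of `ℤ_ℓ` in the completed group ring. -/
noncomputable def UTow.zl (𝒯 : UTow ℓ d) [Fact ℓ.Prime] : ℤ_[ℓ] →+* 𝒯.La where
  toFun z := ⟨fun s => (MonoidAlgebra.single (1 : 𝒯.P s) (PadicInt.toZModPow (s + 1) z) :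
      MonoidAlgebra (ZMod (ℓ ^ (s + 1))) (𝒯.P s)), fun s => by
    change MonoidAlgebra.mapDomain (𝒯.pr s) ((MonoidAlgebra.mapRingHom (𝒯.P (s + 1))
      (ZMod.castHom (pow_dvd_pow ℓ (Nat.le_succ (s + 1))) (ZMod (ℓ ^ (s + 1)))))
      (MonoidAlgebra.single (1 : 𝒯.P (s + 1)) (PadicInt.toZModPow (s + 1 + 1) z))) = _
    rw [MonoidAlgebra.mapRingHom_single, MonoidAlgebra.mapDomain_single, map_one]
    congr 1
    have := PadicInt.zmod_cast_comp_toZModPow (p := ℓ) (s + 1) (s + 1 + 1) (Nat.le_succ _)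
    exact congrArg (fun f : ℤ_[ℓ] →+* ZMod (ℓ ^ (s + 1)) => f z) this⟩
  map_one' := Subtype.ext (funext fun s => by
    change (MonoidAlgebra.single (1 : 𝒯.P s) (PadicInt.toZModPow (s + 1) 1) :
      MonoidAlgebra (ZMod (ℓ ^ (s + 1))) (𝒯.P s)) = 1
    rw [map_one]; rfl)
  map_mul' a b := Subtype.ext (funext fun s => by
    change (MonoidAlgebra.single (1 : 𝒯.P s) (PadicInt.toZModPow (s + 1) (a * b)) :
      MonoidAlgebra (ZMod (ℓ ^ (s + 1))) (𝒯.P s)) = MonoidAlgebra.single 1 _ * MonoidAlgebra.single 1 _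
    rw [MonoidAlgebra.single_mul_single, one_mul, map_mul])
  map_zero' := Subtype.ext (funext fun s => by
    change (MonoidAlgebra.single (1 : 𝒯.P s) (PadicInt.toZModPow (s + 1) 0) :
      MonoidAlgebra (ZMod (ℓ ^ (s + 1))) (𝒯.P s)) = 0
    rw [map_zero, MonoidAlgebra.single_zero])
  map_add' a b := Subtype.ext (funext fun s => by
    change (MonoidAlgebra.single (1 : 𝒯.P s) (PadicInt.toZModPow (s + 1) (a + b)) :
      MonoidAlgebra (ZMod (ℓ ^ (s + 1))) (𝒯.P s)) = MonoidAlgebra.single 1 _ + MonoidAlgebra.single 1 _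
    rw [← MonoidAlgebra.single_add, map_add])

/-- Compatible surjections of the group `G` onto the quotients `P s`. -/
structure QTow (𝒯 : UTow ℓ d) (G : Type) [Group G] where
  q : ∀ s, G →* 𝒯.P s
  surj : ∀ s, Function.Surjective (q s)
  compat : ∀ s x, 𝒯.pr s (q (s + 1) x) = q s x

variable {𝒯 : UTow ℓ d} {G : Type} [Group G]

/-- The element `g` of the completed group ring. -/
noncomputable def QTow.gr (𝒬 : QTow 𝒯 G) : G →* 𝒯.La where
  toFun g := ⟨fun s => (MonoidAlgebra.single (𝒬.q s g) 1 : MonoidAlgebra (ZMod (ℓ ^ (s + 1))) (𝒯.P s)), fun s => by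
    change MonoidAlgebra.mapDomain (𝒯.pr s) ((MonoidAlgebra.mapRingHom (𝒯.P (s + 1))
      (ZMod.castHom (pow_dvd_pow ℓ (Nat.le_succ (s + 1))) (ZMod (ℓ ^ (s + 1)))))
      (MonoidAlgebra.single (𝒬.q (s + 1) g) 1)) = _
    rw [MonoidAlgebra.mapRingHom_single, MonoidAlgebra.mapDomain_single, map_one, 𝒬.compat]⟩
  map_one' := Subtype.ext (funext fun s => by
    change (MonoidAlgebra.single (𝒬.q s 1) 1 : MonoidAlgebra (ZMod (ℓ ^ (s + 1))) (𝒯.P s)) = 1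
    rw [map_one]; rfl)
  map_mul' a b := Subtype.ext (funext fun s => by
    change (MonoidAlgebra.single (𝒬.q s (a * b)) 1 : MonoidAlgebra (ZMod (ℓ ^ (s + 1))) (𝒯.P s)) =
      MonoidAlgebra.single _ _ * MonoidAlgebra.single _ _
    rw [MonoidAlgebra.single_mul_single, one_mul, map_mul])

variable [Fact ℓ.Prime]

/-- The matrices `ρ k` are congruent to `1` modulo `ℓ`, with entries in a finite extension of `ℚ_ℓ`, and
depend continuously on `k`. -/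
structure IsSmall (𝒬 : QTow 𝒯 G) {w : ℕ} (ρ : G →* Matrix (Fin w) (Fin w) (PadicAlgCl ℓ)) : Prop where
  close : ∀ k i j, ‖ρ k i j - (1 : Matrix (Fin w) (Fin w) (PadicAlgCl ℓ)) i j‖ ≤ (ℓ : ℝ)⁻¹
  field : ∃ L : IntermediateField ℚ_[ℓ] (PadicAlgCl ℓ), FiniteDimensional ℚ_[ℓ] L ∧ ∀ k i j, ρ k i j ∈ L
  cont : ∀ ε : ℝ, 0 < ε → ∃ s, ∀ k : G, 𝒬.q s k = 1 →
    ∀ i j, ‖ρ k i j - (1 : Matrix (Fin w) (Fin w) (PadicAlgCl ℓ)) i j‖ ≤ ε

/-- The functions `Φ` on `G` with values in `ℚ̄_ℓ ^ w` and `Φ (x k) = ρ(k)⁻¹ Φ x` for `k ∈ J`. -/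
noncomputable def WI (J : Subgroup G) {w : ℕ} (ρ : G →* Matrix (Fin w) (Fin w) (PadicAlgCl ℓ)) :
    Submodule (PadicAlgCl ℓ) (G → Fin w → PadicAlgCl ℓ) where
  carrier := {Φ | ∀ x, ∀ k ∈ J, Φ (x * k) = (ρ k⁻¹).mulVec (Φ x)}
  add_mem' {a b} ha hb x k hk := by simp only [Pi.add_apply, ha x k hk, hb x k hk, Matrix.mulVec_add]
  zero_mem' x k _ := by simp only [Pi.zero_apply, Matrix.mulVec_zero]
  smul_mem' c a ha x k hk := by simp only [Pi.smul_apply, ha x k hk, Matrix.mulVec_smul]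

/-- `act` is the continuous action of the completed group ring on `WI J ρ` given by left translations. -/
structure IsAct (𝒬 : QTow 𝒯 G) (J : Subgroup G) {w : ℕ} (ρ : G →* Matrix (Fin w) (Fin w) (PadicAlgCl ℓ))
    (act : 𝒯.La →+* Module.End (PadicAlgCl ℓ) (WI J ρ)) : Prop where
  gr : ∀ g Φ x, (act (𝒬.gr g) Φ).1 x = Φ.1 (g⁻¹ * x)
  zl : ∀ z Φ, act (𝒯.zl z) Φ = algebraMap ℚ_[ℓ] (PadicAlgCl ℓ) (z : ℚ_[ℓ]) • Φ
  cont : ∀ (Φ : WI J ρ) (ε : ℝ), 0 < ε → ∃ s, ∀ a : 𝒯.La, 𝒯.la.pi s a = 0 → ∀ x j, ‖(act a Φ).1 x j‖ ≤ ε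

end Pool.Agent.Lib.MP_666dc0_nt.FM
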