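import Pool.Agent.Lib.MP_666dc0_nt.Mg.G077
import Pool.Agent.Lib.MP_666dc0_nt.ZO.M1a
import Pool.Agent.Lib.MP_666dc0_nt.Mg.G078
import Pool.Agent.Lib.MP_666dc0_nt.ZO.Q2

/-!
# FM, D4: the eigenfunctions in the spaces of vector valued functions

`EV_true`: `exists_split` of ZO/Q3b. `card_chart`: `finrank_EV` with `p = True`, `Q = constSub D`, `s = 0`, and
`finrank_VF_eq` of ZO/Q4. `exists_EF`: `exists_form_of_mem` of ZO/W0, `exists_toV` and `toV_eigen`.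
-/

open NumberField IsDedekindDomain
open scoped NumberField

namespace Pool.Agent.Lib.MP_666dc0_nt.FM

open WL ZO

variable {F : Type} [Field F] [NumberField F] {n : ℕ} {D : Datum F n} {ℓ : ℕ} [Fact ℓ.Prime]
  {ι : ℂ ≃+* PadicAlgCl ℓ} {S : Finset (HeightOneSpectrum (𝓞 F))} {U : Subgroup D.Ad} {K : ℕ → Subgroup D.Ad}

theorem EV_true [IsTotallyReal F] (hD : IsTotPosDef D.q) (H : HatData F ℓ ι)
    (hSl : ∀ v : HeightOneSpectrum (𝓞 F), (ℓ : 𝓞 F) ∈ v.asIdeal → v ∈ S) (hU : IsTame ℓ U)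
    (hUS : ∀ v, v ∉ S → IsGoodAt U v) (hK : IsTow ℓ U K)
    {Q : Submodule ℂ (D.Cpx → ℂ)} (hQ : IsWeight D Q) {w : ℕ} (gb : GoodBasis H K Q w) (s : ℕ) :
    EV S ι U K gb.ρ s (fun _ => True) = VF U K gb.ρ s := by
  refine le_antisymm (Submodule.span_le.2 fun Φ hΦ => hΦ.1) ?_
  obtain ⟨W, W', hWW, -, -, hW, hW'⟩ := exists_split hD H hSl hU hUS hK hQ gb s (fun _ => True)
  rw [← hWW]
  refine sup_le hW (hW'.trans (Submodule.span_le.2 ?_))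
  rintro Φ ⟨-, lam, -, hp, -⟩
  exact absurd trivial hp

theorem card_chart [IsTotallyReal F] (hD : IsTotPosDef D.q) (H : HatData F ℓ ι)
    (hSl : ∀ v : HeightOneSpectrum (𝓞 F), (ℓ : 𝓞 F) ∈ v.asIdeal → v ∈ S) (hU : IsTame ℓ U)
    (hUS : ∀ v, v ∉ S → IsGoodAt U v) (hK : IsTow ℓ U K) (c : Chart U K) :
    Fintype.card c.R = dimE S (constSub D) U (K 0) fun _ => True := by
  obtain ⟨gb⟩ := exists_goodBasis H hK (isWeight_const (D := D))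
  unfold dimE
  rw [← finrank_EV H hSl hU hK isWeight_const gb 0 fun _ => True, EV_true hD H hSl hU hUS hK isWeight_const gb 0,
    finrank_VF_eq c hU hK gb.small 0, finrank_const, mul_one]
  have h1 : Nat.card (PP K 0) = 1 := Subgroup.relIndex_self (K 0)
  rw [h1, one_mul]

theorem exists_EF [IsTotallyReal F] (hD : IsTotPosDef D.q) (H : HatData F ℓ ι)
    (hSl : ∀ v : HeightOneSpectrum (𝓞 F), (ℓ : 𝓞 F) ∈ v.asIdeal → v ∈ S) (hU : IsTame ℓ U) (hK : IsTow ℓ U K)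
    {lam : ∀ v, Hecke U v → ℂ} (hlam : lam ∈ AllSys ℓ S U) :
    ∃ (s : ℕ) (Q : Submodule ℂ (D.Cpx → ℂ)), IsWeight D Q ∧ ∀ (K' : ℕ → Subgroup D.Ad), IsTow ℓ U K' →
      K' 1 = K s → ∀ {w : ℕ} (gb : GoodBasis H K' Q w), ∃ Φ ∈ VF U K' gb.ρ 1, Φ ≠ 0 ∧
        ∀ j, IsEF S U (fun g => Φ g j) (iv ι lam) := by
  obtain ⟨Q, s, f, hQ, hf0, hf, he⟩ := exists_form_of_mem hD hU hK hlam
  refine ⟨s, Q, hQ, fun K' hK' hs w gb => ?_⟩
  obtain ⟨e, -, hef⟩ := exists_toV H hU hK' hQ gb 1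
  have hf' : f ∈ forms D Q (U ⊔ K' 1) := by
    rw [hs]
    exact hf
  refine ⟨(e ⟨f, hf'⟩).1, (e ⟨f, hf'⟩).2, fun h0 => hf0 ?_, fun j =>
    toV_eigen H hSl gb.q gb.indep (hef ⟨f, hf'⟩) he j⟩
  have h1 : e ⟨f, hf'⟩ = 0 := Subtype.ext h0
  have h2 : (⟨f, hf'⟩ : forms D Q (U ⊔ K' 1)) = 0 := (map_eq_zero_iff e e.injective).1 h1
  exact congrArg Subtype.val h2

end Pool.Agent.Lib.MP_666dc0_nt.FM
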