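import Pool.Agent.Lib.MP_666dc0_nt.FM.ODefs

/-!
# Families of systems of eigenvalues over a noncommutative domain: definitions (complete, NOT a task)
-/

namespace Pool.Agent.Lib.MP_666dc0_nt.FM

/-- A commutative ring `T` of matrices over the noetherian domain `Λ`, acting on a family of spaces `W i ^ R`,
and the characters `χ x` of `T` which occur. -/
structure AFam (Ω : Type) [Field Ω] (ℓ : ℕ) (X : Type) where
  Λ : Type
  [ring : Ring Λ]
  [nzd : NoZeroDivisors Λ]
  [nt : Nontrivial Λ]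
  [cz : CharZero Λ]
  noeth : IsNoetherianRing Λ
  ore : LeftOre Λ
  fam : MFam Λ Ω ℓ
  R : Type
  [fin : Fintype R]
  [dec : DecidableEq R]
  T : Type
  [comm : CommRing T]
  m : T →+* Matrix R R Λ
  inj : Function.Injective m
  χ : X → T →+* Ω
  deep : ∀ s, ∃ i, s ≤ fam.dep i ∧ 0 < Module.finrank Ω (fam.W i)

attribute [instance] AFam.ring AFam.nzd AFam.nt AFam.cz AFam.fin AFam.dec AFam.comm

variable {Ω : Type} [Field Ω] {ℓ : ℕ} {X : Type}

/-- The eigenspace of the character `χ x` in `W i ^ R`. -/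
def AFam.eig (𝒜 : AFam Ω ℓ X) (i : 𝒜.fam.ix) (x : X) : Submodule Ω (𝒜.R → 𝒜.fam.W i) where
  carrier := {w | ∀ t, 𝒜.fam.mact i (𝒜.m t) w = 𝒜.χ x t • w}
  add_mem' {a b} ha hb t := by rw [map_add, ha t, hb t, smul_add]
  zero_mem' t := by rw [map_zero, smul_zero]
  smul_mem' c a ha t := by rw [map_smul, ha t, smul_comm]

/-- The spaces `W i ^ R` are spanned by the eigenvectors, and every `x` occurs. -/
structure AFam.Good (𝒜 : AFam Ω ℓ X) : Prop where
  span : ∀ i, ⨆ x, 𝒜.eig i x = ⊤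
  occ : ∀ x, ∃ i, 𝒜.eig i x ≠ ⊥

/-- The closed sets: `p` contains every `x` such that all `t` killed by the characters in `p` are killed by `χ x`. -/
def AFam.Closed (𝒜 : AFam Ω ℓ X) (p : Set X) : Prop :=
  ∀ x, (∀ t, (∀ y ∈ p, 𝒜.χ y t = 0) → 𝒜.χ x t = 0) → x ∈ p

end Pool.Agent.Lib.MP_666dc0_nt.FM
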