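import Pool.Agent.Lib.MP_666dc0_nt.FM.D0
import Pool.Agent.Lib.MP_666dc0_nt.FM.MDefs
import Pool.Agent.Lib.MP_666dc0_nt.FM.TDefs

/-!
# FM, D5: the closed commutative ring generated by a family of matrices over an inverse limit (abstract part)
-/

namespace Pool.Agent.Lib.MP_666dc0_nt.FM

/-- A family of matrices `mx j` over the inverse limit, and the systems `ev x` of their eigenvalues. -/
structure Raw (𝒯 : RTow) (Ω : Type) [NormedField Ω] (ℓ : ℕ) (X : Type) where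
  fam : MFam 𝒯.Lim Ω ℓ
  R : Type
  [fin : Fintype R]
  [dec : DecidableEq R]
  I : Type
  mx : I → Matrix R R 𝒯.Lim
  ev : X → I → Ω

attribute [instance] Raw.fin Raw.dec

variable {𝒯 : RTow} {Ω : Type} [NormedField Ω] {ℓ : ℕ} {X : Type}

/-- The eigenvectors with the eigenvalues `ev x`. -/
def Raw.V (ℛ : Raw 𝒯 Ω ℓ X) (i : ℛ.fam.ix) (x : X) : Submodule Ω (ℛ.R → ℛ.fam.W i) where
  carrier := {w | ∀ j, ℛ.fam.mact i (ℛ.mx j) w = ℛ.ev x j • w}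
  add_mem' {a b} ha hb t := by rw [map_add, ha t, hb t, smul_add]
  zero_mem' t := by rw [map_zero, smul_zero]
  smul_mem' c a ha t := by rw [map_smul, ha t, smul_comm]

/-- The eigenvectors span, every system occurs, there are deep members, and the inverse limit acts continuously. -/
structure Raw.Ok (ℛ : Raw 𝒯 Ω ℓ X) : Prop where
  one_lt : 1 < ℓ
  span : ∀ i, ⨆ x, ℛ.V i x = ⊤
  occ : ∀ x, ∃ i, ℛ.V i x ≠ ⊥
  deep : ∀ s, ∃ i, s ≤ ℛ.fam.dep i ∧ 0 < Module.finrank Ω (ℛ.fam.W i)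
  cont : ∀ i, ∃ (Y : Type) (f : Y → (ℛ.fam.W i →ₗ[Ω] Ω)), (∀ w, (∀ y, f y w = 0) → w = 0) ∧
    ∀ w, ∀ ε : ℝ, 0 < ε → ∃ s, ∀ a : 𝒯.Lim, 𝒯.pi s a = 0 → ∀ y, ‖f y (ℛ.fam.act i a w)‖ ≤ ε

variable {ℛ : Raw 𝒯 Ω ℓ X}

theorem Raw.Ok.comm (h : ℛ.Ok) (j k : ℛ.I) : ℛ.mx j * ℛ.mx k = ℛ.mx k * ℛ.mx j := by
  have h1 : ∀ i, ℛ.fam.mact i (ℛ.mx j * ℛ.mx k - ℛ.mx k * ℛ.mx j) = 0 := by
    intro i
    have h2 : ⨆ x, ℛ.V i x ≤ LinearMap.ker (ℛ.fam.mact i (ℛ.mx j * ℛ.mx k - ℛ.mx k * ℛ.mx j)) := by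
      refine iSup_le fun x w hw => ?_
      have hj : ℛ.fam.mact i (ℛ.mx j) w = ℛ.ev x j • w := hw j
      have hk : ℛ.fam.mact i (ℛ.mx k) w = ℛ.ev x k • w := hw k
      rw [LinearMap.mem_ker, MFam.mact_sub, LinearMap.sub_apply, MFam.mact_mulM, MFam.mact_mulM, hj, hk, map_smul,
        map_smul, hj, hk, smul_comm, sub_self]
    rw [h.span i, top_le_iff, LinearMap.ker_eq_top] at h2
    exact h2
  exact sub_eq_zero.1 (MFam.eq_zero_of_mact _ h.one_lt h.deep _ h1)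

theorem Raw.Ok.exists_mP (h : ℛ.Ok) : ∃ f : MvPolynomial ℛ.I ℤ →+* Matrix ℛ.R ℛ.R 𝒯.Lim,
    ∀ j, f (MvPolynomial.X j) = ℛ.mx j := by
  have hmc : IsMulCommutative (Subring.closure (Set.range ℛ.mx)) := Subring.isMulCommutative_closure
    (by rintro _ ⟨j, rfl⟩ _ ⟨k, rfl⟩; exact h.comm j k)
  let _ : CommRing (Subring.closure (Set.range ℛ.mx)) :=
    { (inferInstance : Ring (Subring.closure (Set.range ℛ.mx))) with mul_comm := fun a b => hmc.is_comm.comm a b }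
  refine ⟨(Subring.closure (Set.range ℛ.mx)).subtype.comp (MvPolynomial.eval₂Hom (Int.castRingHom _)
    fun j => (⟨ℛ.mx j, Subring.subset_closure ⟨j, rfl⟩⟩ : Subring.closure (Set.range ℛ.mx))), fun j => ?_⟩
  rw [RingHom.comp_apply, MvPolynomial.coe_eval₂Hom, MvPolynomial.eval₂_X]
  rfl

/-- The matrix of a polynomial. -/
noncomputable def Raw.Ok.mP (h : ℛ.Ok) : MvPolynomial ℛ.I ℤ →+* Matrix ℛ.R ℛ.R 𝒯.Lim := h.exists_mP.choose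

theorem Raw.Ok.mP_X (h : ℛ.Ok) (j : ℛ.I) : h.mP (MvPolynomial.X j) = ℛ.mx j := h.exists_mP.choose_spec j

/-- The value of a polynomial at a system of eigenvalues. -/
noncomputable def Raw.evP (ℛ : Raw 𝒯 Ω ℓ X) (x : X) : MvPolynomial ℛ.I ℤ →+* Ω :=
  MvPolynomial.eval₂Hom (Int.castRingHom Ω) (ℛ.ev x)

theorem Raw.Ok.mact_mP (h : ℛ.Ok) {i : ℛ.fam.ix} {x : X} {w : ℛ.R → ℛ.fam.W i} (hw : w ∈ ℛ.V i x)
    (P : MvPolynomial ℛ.I ℤ) : ℛ.fam.mact i (h.mP P) w = ℛ.evP x P • w := by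
  induction P using MvPolynomial.induction_on with
  | C a =>
    have h1 : (MvPolynomial.C a : MvPolynomial ℛ.I ℤ) = ((a : ℤ) : MvPolynomial ℛ.I ℤ) := by
      rw [eq_intCast (MvPolynomial.C : ℤ →+* MvPolynomial ℛ.I ℤ) a]
    rw [h1, map_intCast, map_intCast, MFam.mact_intCast]
  | add p q hp hq => rw [map_add, map_add, MFam.mact_addM, LinearMap.add_apply, hp, hq, add_smul]
  | mul_X p j hp =>
    have hj : ℛ.fam.mact i (ℛ.mx j) w = ℛ.ev x j • w := hw j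
    rw [map_mul, map_mul, MFam.mact_mulM, h.mP_X, hj, map_smul, hp, smul_smul]
    congr 1
    unfold Raw.evP
    rw [MvPolynomial.coe_eval₂Hom, MvPolynomial.eval₂_X, mul_comm]

/-- The level `s` of a matrix. -/
noncomputable def Raw.lv (ℛ : Raw 𝒯 Ω ℓ X) (s : ℕ) : Matrix ℛ.R ℛ.R 𝒯.Lim →+* Matrix ℛ.R ℛ.R (𝒯.A s) :=
  (𝒯.pi s).mapMatrix

theorem Raw.lv_apply (ℛ : Raw 𝒯 Ω ℓ X) (s : ℕ) (A : Matrix ℛ.R ℛ.R 𝒯.Lim) (p q : ℛ.R) :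
    ℛ.lv s A p q = 𝒯.pi s (A p q) := rfl

theorem RTow.pi_zero_of_le (𝒯 : RTow) {s s' : ℕ} (hs : s ≤ s') {a : 𝒯.Lim} (ha : 𝒯.pi s' a = 0) : 𝒯.pi s a = 0 := by
  induction hs with
  | refl => exact ha
  | step _ ih => exact ih (by rw [← RTow.f_pi, ha, map_zero])

theorem Raw.lv_zero_of_le (ℛ : Raw 𝒯 Ω ℓ X) {s s' : ℕ} (hs : s ≤ s') {A : Matrix ℛ.R ℛ.R 𝒯.Lim}
    (hA : ℛ.lv s' A = 0) : ℛ.lv s A = 0 := by
  refine Matrix.ext fun p q => ?_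
  have h1 : 𝒯.pi s' (A p q) = 0 := by rw [← ℛ.lv_apply, hA, Matrix.zero_apply]
  rw [ℛ.lv_apply, 𝒯.pi_zero_of_le hs h1, Matrix.zero_apply]

theorem Raw.ext_lv (ℛ : Raw 𝒯 Ω ℓ X) {A B : Matrix ℛ.R ℛ.R 𝒯.Lim} (hAB : ∀ s, ℛ.lv s A = ℛ.lv s B) : A = B := by
  refine Matrix.ext fun p q => 𝒯.ext fun s => ?_
  rw [← ℛ.lv_apply, hAB, ℛ.lv_apply]

/-- The closure of the ring generated by the matrices. -/
noncomputable def Raw.T (ℛ : Raw 𝒯 Ω ℓ X) (h : ℛ.Ok) : Subring (Matrix ℛ.R ℛ.R 𝒯.Lim) where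
  carrier := {A | ∀ s, ∃ P, ℛ.lv s A = ℛ.lv s (h.mP P)}
  mul_mem' {a b} ha hb s := by
    obtain ⟨P, hP⟩ := ha s
    obtain ⟨Q, hQ⟩ := hb s
    exact ⟨P * Q, by rw [map_mul, map_mul, map_mul, hP, hQ]⟩
  one_mem' s := ⟨1, by rw [map_one h.mP]⟩
  add_mem' {a b} ha hb s := by
    obtain ⟨P, hP⟩ := ha s
    obtain ⟨Q, hQ⟩ := hb s
    exact ⟨P + Q, by rw [map_add, map_add, map_add, hP, hQ]⟩
  zero_mem' s := ⟨0, by rw [map_zero h.mP]⟩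
  neg_mem' {a} ha s := by
    obtain ⟨P, hP⟩ := ha s
    exact ⟨-P, by rw [map_neg, map_neg, map_neg, hP]⟩

theorem Raw.T_comm (ℛ : Raw 𝒯 Ω ℓ X) (h : ℛ.Ok) (a b : ℛ.T h) : a * b = b * a := by
  refine Subtype.ext (ℛ.ext_lv fun s => ?_)
  obtain ⟨P, hP⟩ := a.2 s
  obtain ⟨Q, hQ⟩ := b.2 s
  rw [Subring.coe_mul, Subring.coe_mul, map_mul, map_mul, hP, hQ, ← map_mul, ← map_mul, ← map_mul, ← map_mul,
    mul_comm]

/-- Small matrices act by small endomorphisms. -/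
theorem Raw.Ok.small (i : ℛ.fam.ix) {Y : Type} {f : Y → (ℛ.fam.W i →ₗ[Ω] Ω)}
    (hf : ∀ w, ∀ ε : ℝ, 0 < ε → ∃ s, ∀ a : 𝒯.Lim, 𝒯.pi s a = 0 → ∀ y, ‖f y (ℛ.fam.act i a w)‖ ≤ ε)
    (w : ℛ.R → ℛ.fam.W i) {ε : ℝ} (hε : 0 < ε) :
    ∃ s, ∀ A : Matrix ℛ.R ℛ.R 𝒯.Lim, ℛ.lv s A = 0 → ∀ p y, ‖f y (ℛ.fam.mact i A w p)‖ ≤ ε := by
  have hN : (0 : ℝ) < Fintype.card ℛ.R + 1 := by positivity
  have h1 : ∀ q, ∃ s, ∀ a : 𝒯.Lim, 𝒯.pi s a = 0 → ∀ y,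
      ‖f y (ℛ.fam.act i a (w q))‖ ≤ ε / (Fintype.card ℛ.R + 1) := fun q => hf (w q) _ (div_pos hε hN)
  choose s hs using h1
  refine ⟨Finset.univ.sup s, fun A hA p y => ?_⟩
  rw [MFam.mact_apply, map_sum]
  have h2 : ∀ q ∈ Finset.univ, ‖f y (ℛ.fam.act i (A p q) (w q))‖ ≤ ε / (Fintype.card ℛ.R + 1) := by
    intro q hq
    refine hs q _ (𝒯.pi_zero_of_le (Finset.le_sup hq) ?_) y
    rw [← ℛ.lv_apply, hA, Matrix.zero_apply]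
  refine (norm_sum_le _ _).trans ((Finset.sum_le_sum h2).trans ?_)
  rw [Finset.sum_const, nsmul_eq_mul, Finset.card_univ, mul_div_assoc', div_le_iff₀ hN]
  nlinarith [hε]

/-- Comparison of two eigenvectors. -/
theorem Raw.Ok.cross (h : ℛ.Ok) {x : X} {i i' : ℛ.fam.ix} {w : ℛ.R → ℛ.fam.W i} {w' : ℛ.R → ℛ.fam.W i'}
    (hw : w ∈ ℛ.V i x) (hw' : w' ∈ ℛ.V i' x) {Y Y' : Type} {f : Y → (ℛ.fam.W i →ₗ[Ω] Ω)}
    {f' : Y' → (ℛ.fam.W i' →ₗ[Ω] Ω)}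
    (hf : ∀ w, ∀ ε : ℝ, 0 < ε → ∃ s, ∀ a : 𝒯.Lim, 𝒯.pi s a = 0 → ∀ y, ‖f y (ℛ.fam.act i a w)‖ ≤ ε)
    (hf' : ∀ w, ∀ ε : ℝ, 0 < ε → ∃ s, ∀ a : 𝒯.Lim, 𝒯.pi s a = 0 → ∀ y, ‖f' y (ℛ.fam.act i' a w)‖ ≤ ε)
    (A : ℛ.T h) (p p' : ℛ.R) (y : Y) (y' : Y') :
    f y (w p) * f' y' (ℛ.fam.mact i' A w' p') = f' y' (w' p') * f y (ℛ.fam.mact i A w p) := by
  rw [← sub_eq_zero, ← norm_eq_zero]
  refine le_antisymm (le_of_forall_pos_le_add fun ε hε => ?_) (norm_nonneg _)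
  rw [zero_add]
  set a := f y (w p)
  set b := f' y' (w' p')
  have hab : (0 : ℝ) < ‖a‖ + ‖b‖ + 1 := by positivity
  obtain ⟨s, hs⟩ := Raw.Ok.small i hf w (div_pos hε hab)
  obtain ⟨s', hs'⟩ := Raw.Ok.small i' hf' w' (div_pos hε hab)
  obtain ⟨P, hP⟩ := A.2 (max s s')
  have h0 : ℛ.lv (max s s') (A.1 - h.mP P) = 0 := by rw [map_sub, hP, sub_self]
  have h1 := hs _ (ℛ.lv_zero_of_le (le_max_left s s') h0) p y
  have h2 := hs' _ (ℛ.lv_zero_of_le (le_max_right s s') h0) p' y'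
  rw [MFam.mact_sub, LinearMap.sub_apply, h.mact_mP hw, Pi.sub_apply, map_sub, Pi.smul_apply, map_smul,
    smul_eq_mul] at h1
  rw [MFam.mact_sub, LinearMap.sub_apply, h.mact_mP hw', Pi.sub_apply, map_sub, Pi.smul_apply, map_smul,
    smul_eq_mul] at h2
  have h3 : a * f' y' (ℛ.fam.mact i' A w' p') - b * f y (ℛ.fam.mact i A w p) =
      a * (f' y' (ℛ.fam.mact i' A w' p') - ℛ.evP x P * b) - b * (f y (ℛ.fam.mact i A w p) - ℛ.evP x P * a) := by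
    ring
  rw [h3]
  refine (norm_sub_le _ _).trans ?_
  rw [norm_mul, norm_mul]
  calc ‖a‖ * ‖f' y' (ℛ.fam.mact i' A w' p') - ℛ.evP x P * b‖ + ‖b‖ * ‖f y (ℛ.fam.mact i A w p) - ℛ.evP x P * a‖
      ≤ ‖a‖ * (ε / (‖a‖ + ‖b‖ + 1)) + ‖b‖ * (ε / (‖a‖ + ‖b‖ + 1)) :=
        add_le_add (mul_le_mul_of_nonneg_left h2 (norm_nonneg _)) (mul_le_mul_of_nonneg_left h1 (norm_nonneg _))
    _ = (‖a‖ + ‖b‖) * ε / (‖a‖ + ‖b‖ + 1) := by ring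
    _ ≤ ε := by
      rw [div_le_iff₀ hab]
      nlinarith [norm_nonneg a, norm_nonneg b]

theorem Raw.Ok.exists_chi (h : ℛ.Ok) (x : X) (A : ℛ.T h) :
    ∃ c : Ω, ∀ i, ∀ w ∈ ℛ.V i x, ℛ.fam.mact i A w = c • w := by
  obtain ⟨i, hi⟩ := h.occ x
  obtain ⟨w, hw, hw0⟩ := Submodule.exists_mem_ne_zero_of_ne_bot hi
  obtain ⟨Y, f, hf0, hf⟩ := h.cont i
  obtain ⟨p, hp⟩ : ∃ p, w p ≠ 0 := Function.ne_iff.1 hw0
  obtain ⟨y, hy⟩ : ∃ y, f y (w p) ≠ 0 := by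
    by_contra hcon
    push Not at hcon
    exact hp (hf0 _ hcon)
  refine ⟨f y (ℛ.fam.mact i A w p) / f y (w p), fun i' w' hw' => ?_⟩
  obtain ⟨Y', f', hf0', hf'⟩ := h.cont i'
  funext p'
  rw [← sub_eq_zero]
  refine hf0' _ fun y' => ?_
  have h1 := h.cross hw hw' hf hf' A p p' y y'
  rw [map_sub, Pi.smul_apply, map_smul, smul_eq_mul, sub_eq_zero, div_mul_eq_mul_div, eq_div_iff hy, mul_comm, h1,
    mul_comm]

theorem Raw.Ok.exists_char (h : ℛ.Ok) (x : X) :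
    ∃ c : ℛ.T h →+* Ω, ∀ (A : ℛ.T h) (i : ℛ.fam.ix), ∀ w ∈ ℛ.V i x, ℛ.fam.mact i A.1 w = c A • w := by
  obtain ⟨i, hi⟩ := h.occ x
  obtain ⟨w, hw, hw0⟩ := Submodule.exists_mem_ne_zero_of_ne_bot hi
  choose c hc using h.exists_chi x
  have hu : ∀ a b : Ω, a • w = b • w → a = b := fun a b hab => smul_left_injective Ω hw0 hab
  refine ⟨⟨⟨⟨c, hu _ _ ?_⟩, fun A B => hu _ _ ?_⟩, hu _ _ ?_, fun A B => hu _ _ ?_⟩, hc⟩
  · rw [← hc _ i w hw, one_smul, Subring.coe_one, MFam.mact_oneM]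
  · rw [← hc _ i w hw, Subring.coe_mul, MFam.mact_mulM, hc _ i w hw, map_smul, hc _ i w hw, smul_smul, mul_comm]
  · change c 0 • w = (0 : Ω) • w
    rw [← hc _ i w hw, zero_smul, Subring.coe_zero]
    funext p
    rw [MFam.mact_apply]
    refine Finset.sum_eq_zero fun q _ => ?_
    rw [Matrix.zero_apply, map_zero, LinearMap.zero_apply]
  · change c (A + B) • w = (c A + c B) • w
    rw [← hc _ i w hw, add_smul, Subring.coe_add, MFam.mact_addM, LinearMap.add_apply, hc _ i w hw, hc _ i w hw]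

/-- The character of the ring `T` given by the system `x`. -/
noncomputable def Raw.Ok.chi (h : ℛ.Ok) (x : X) : ℛ.T h →+* Ω := (h.exists_char x).choose

theorem Raw.Ok.mact_chi (h : ℛ.Ok) {x : X} (A : ℛ.T h) {i : ℛ.fam.ix} {w : ℛ.R → ℛ.fam.W i}
    (hw : w ∈ ℛ.V i x) : ℛ.fam.mact i A.1 w = h.chi x A • w :=
  (h.exists_char x).choose_spec A i w hw

theorem Raw.Ok.mP_mem (h : ℛ.Ok) (P : MvPolynomial ℛ.I ℤ) : h.mP P ∈ ℛ.T h := fun _ => ⟨P, rfl⟩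

theorem Raw.Ok.chi_mP (h : ℛ.Ok) (x : X) (P : MvPolynomial ℛ.I ℤ) : h.chi x ⟨h.mP P, h.mP_mem P⟩ = ℛ.evP x P := by
  obtain ⟨i, hi⟩ := h.occ x
  obtain ⟨w, hw, hw0⟩ := Submodule.exists_mem_ne_zero_of_ne_bot hi
  have h1 := h.mact_chi ⟨h.mP P, h.mP_mem P⟩ hw
  have h2 := h.mact_mP hw P
  exact smul_left_injective Ω hw0 (h1.symm.trans h2)

/-- Uniform approximation of the characters. -/
theorem Raw.Ok.chi_close (h : ℛ.Ok) (x : X) {ε : ℝ} (hε : 0 < ε) :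
    ∃ s, ∀ (A : ℛ.T h) (P : MvPolynomial ℛ.I ℤ), ℛ.lv s A = ℛ.lv s (h.mP P) → ‖h.chi x A - ℛ.evP x P‖ ≤ ε := by
  obtain ⟨i, hi⟩ := h.occ x
  obtain ⟨w, hw, hw0⟩ := Submodule.exists_mem_ne_zero_of_ne_bot hi
  obtain ⟨Y, f, hf0, hf⟩ := h.cont i
  obtain ⟨p, hp⟩ : ∃ p, w p ≠ 0 := Function.ne_iff.1 hw0
  obtain ⟨y, hy⟩ : ∃ y, f y (w p) ≠ 0 := by
    by_contra hcon
    push Not at hcon
    exact hp (hf0 _ hcon)
  have hpos : 0 < ‖f y (w p)‖ := norm_pos_iff.2 hy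
  obtain ⟨s, hs⟩ := Raw.Ok.small i hf w (mul_pos hε hpos)
  refine ⟨s, fun A P hAP => ?_⟩
  have h0 : ℛ.lv s (A.1 - h.mP P) = 0 := by rw [map_sub, hAP, sub_self]
  have h1 := hs _ h0 p y
  rw [MFam.mact_sub, LinearMap.sub_apply, h.mact_mP hw, h.mact_chi A hw, ← sub_smul, Pi.smul_apply, map_smul,
    smul_eq_mul, norm_mul] at h1
  exact le_of_mul_le_mul_right h1 hpos

theorem Raw.Ok.le_of_zero (h : ℛ.Ok) {Fam : Set X} {lam : X}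
    (hc : ∀ ε : ℝ, 0 < ε → ∃ I : Set X, I.Finite ∧ I ⊆ Fam ∧ ∃ δ : ℝ, 0 < δ ∧
      ∀ P : MvPolynomial ℛ.I ℤ, (∀ e ∈ I, ‖ℛ.evP e P‖ ≤ δ) → ‖ℛ.evP lam P‖ ≤ ε)
    (t : ℛ.T h) (ht : ∀ y ∈ Fam, h.chi y t = 0) : h.chi lam t = 0 := by
  rw [← norm_eq_zero]
  refine le_antisymm (le_of_forall_pos_le_add fun ε hε => ?_) (norm_nonneg _)
  rw [zero_add]
  obtain ⟨I, hI, hIF, δ, hδ, hP⟩ := hc (ε / 2) (half_pos hε)
  choose s hs using fun x => h.chi_close x hδ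
  obtain ⟨s', hs'⟩ := h.chi_close lam (half_pos hε)
  obtain ⟨P, hPt⟩ := t.2 (max (hI.toFinset.sup s) s')
  have hlv : ∀ {r}, r ≤ max (hI.toFinset.sup s) s' → ℛ.lv r t = ℛ.lv r (h.mP P) := by
    intro r hr
    have h0 : ℛ.lv (max (hI.toFinset.sup s) s') (t.1 - h.mP P) = 0 := by rw [map_sub, hPt, sub_self]
    have h1 := ℛ.lv_zero_of_le hr h0
    rwa [map_sub, sub_eq_zero] at h1
  have h1 : ‖ℛ.evP lam P‖ ≤ ε / 2 := by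
    refine hP P fun e he => ?_
    have h2 := hs e t P (hlv ((Finset.le_sup (hI.mem_toFinset.2 he)).trans (le_max_left _ _)))
    rwa [ht e (hIF he), zero_sub, norm_neg] at h2
  have h2 := hs' t P (hlv (le_max_right _ _))
  calc ‖h.chi lam t‖ = ‖(h.chi lam t - ℛ.evP lam P) + ℛ.evP lam P‖ := by rw [sub_add_cancel]
    _ ≤ ‖h.chi lam t - ℛ.evP lam P‖ + ‖ℛ.evP lam P‖ := norm_add_le _ _
    _ ≤ ε / 2 + ε / 2 := add_le_add h2 h1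
    _ = ε := add_halves ε

theorem Raw.Ok.exists_separating (h : ℛ.Ok) (hfin : ∀ s, Finite (𝒯.A s)) {Fam : Set X} {lam : X} {ε : ℝ}
    (hε : 0 < ε) (hc : ∀ I : Set X, I.Finite → I ⊆ Fam → ∀ δ : ℝ, 0 < δ →
      ∃ P : MvPolynomial ℛ.I ℤ, (∀ e ∈ I, ‖ℛ.evP e P‖ ≤ δ) ∧ ε < ‖ℛ.evP lam P‖) :
    ∃ t : ℛ.T h, (∀ y ∈ Fam, h.chi y t = 0) ∧ h.chi lam t ≠ 0 := by
  classical
  have h1 : ∀ k : Finset Fam × ℕ, ∃ P : MvPolynomial ℛ.I ℤ, (∀ e ∈ k.1, ‖ℛ.evP e.1 P‖ ≤ 1 / ((k.2 : ℝ) + 1)) ∧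
      ε < ‖ℛ.evP lam P‖ := by
    intro k
    obtain ⟨P, hP, hP'⟩ := hc (Subtype.val '' (k.1 : Set Fam)) (k.1.finite_toSet.image _)
      (by rintro _ ⟨e, -, rfl⟩; exact e.2) (1 / ((k.2 : ℝ) + 1)) (by positivity)
    exact ⟨P, fun e he => hP _ ⟨e, he, rfl⟩, hP'⟩
  choose P hP hPl using h1
  let 𝓤 : Ultrafilter (Finset Fam × ℕ) := Ultrafilter.of Filter.atTop
  have hU : (𝓤 : Filter (Finset Fam × ℕ)) ≤ Filter.atTop := Ultrafilter.of_le _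
  have h2 : ∀ s, ∃ B : Matrix ℛ.R ℛ.R (𝒯.A s), ∀ᶠ k in (𝓤 : Filter (Finset Fam × ℕ)), ℛ.lv s (h.mP (P k)) = B := by
    intro s
    have := hfin s
    have : Finite (Matrix ℛ.R ℛ.R (𝒯.A s)) := inferInstanceAs (Finite (ℛ.R → ℛ.R → 𝒯.A s))
    obtain ⟨B, hB⟩ := (𝓤.map fun k => ℛ.lv s (h.mP (P k))).eq_pure_of_finite
    refine ⟨B, ?_⟩
    have h3 : {B} ∈ 𝓤.map fun k => ℛ.lv s (h.mP (P k)) := by
      rw [hB, Ultrafilter.mem_pure]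
      exact Set.mem_singleton B
    exact h3
  choose B hB using h2
  have hcomp : ∀ s p q, 𝒯.f s (B (s + 1) p q) = B s p q := by
    intro s p q
    obtain ⟨k, hk1, hk2⟩ := ((hB s).and (hB (s + 1))).exists
    rw [← hk1, ← hk2, ℛ.lv_apply, ℛ.lv_apply, RTow.f_pi]
  let A : Matrix ℛ.R ℛ.R 𝒯.Lim := fun p q => ⟨fun s => B s p q, fun s => hcomp s p q⟩
  have hA : ∀ s, ℛ.lv s A = B s := fun s => Matrix.ext fun p q => rfl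
  have hAT : A ∈ ℛ.T h := by
    intro s
    obtain ⟨k, hk⟩ := (hB s).exists
    exact ⟨P k, by rw [hA, hk]⟩
  refine ⟨⟨A, hAT⟩, fun y hy => ?_, ?_⟩
  · rw [← norm_eq_zero]
    refine le_antisymm (le_of_forall_pos_le_add fun η hη => ?_) (norm_nonneg _)
    rw [zero_add]
    obtain ⟨s, hs⟩ := h.chi_close y (half_pos hη)
    obtain ⟨N, hN⟩ := exists_nat_one_div_lt (half_pos hη)
    obtain ⟨k, hk1, hk2⟩ := ((hB s).and (hU (Filter.mem_atTop (({⟨y, hy⟩} : Finset Fam), N)))).exists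
    have h3 := hs ⟨A, hAT⟩ (P k) (by rw [hk1]; exact hA s)
    have h4 := hP k ⟨y, hy⟩ (hk2.1 (Finset.mem_singleton_self _))
    have h5 : 1 / ((k.2 : ℝ) + 1) ≤ 1 / ((N : ℝ) + 1) := by
      have h6 : (N : ℝ) ≤ k.2 := by exact_mod_cast hk2.2
      exact one_div_le_one_div_of_le (by positivity) (by linarith)
    calc ‖h.chi y ⟨A, hAT⟩‖ = ‖(h.chi y ⟨A, hAT⟩ - ℛ.evP y (P k)) + ℛ.evP y (P k)‖ := by rw [sub_add_cancel]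
      _ ≤ ‖h.chi y ⟨A, hAT⟩ - ℛ.evP y (P k)‖ + ‖ℛ.evP y (P k)‖ := norm_add_le _ _
      _ ≤ η / 2 + η / 2 := add_le_add h3 ((h4.trans h5).trans hN.le)
      _ = η := add_halves η
  · intro h0
    obtain ⟨s, hs⟩ := h.chi_close lam (half_pos hε)
    obtain ⟨k, hk1⟩ := (hB s).exists
    have h3 := hs ⟨A, hAT⟩ (P k) (by rw [hk1]; exact hA s)
    rw [h0, zero_sub, norm_neg] at h3
    have h4 := hPl k
    linarith

theorem Raw.Ok.cls (h : ℛ.Ok) (hfin : ∀ s, Finite (𝒯.A s)) (Fam : Set X) (lam : X) :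
    (∀ t : ℛ.T h, (∀ y ∈ Fam, h.chi y t = 0) → h.chi lam t = 0) ↔
      ∀ ε : ℝ, 0 < ε → ∃ I : Set X, I.Finite ∧ I ⊆ Fam ∧ ∃ δ : ℝ, 0 < δ ∧
        ∀ P : MvPolynomial ℛ.I ℤ, (∀ e ∈ I, ‖ℛ.evP e P‖ ≤ δ) → ‖ℛ.evP lam P‖ ≤ ε := by
  refine ⟨fun hz => ?_, fun hc t ht => h.le_of_zero hc t ht⟩
  by_contra hcon
  push Not at hcon
  obtain ⟨ε, hε, hcon⟩ := hcon
  obtain ⟨t, ht, ht'⟩ := h.exists_separating hfin hε hcon
  exact ht' (hz t ht)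

/-- The family of spaces with the ring `T`. -/
noncomputable def Raw.afam (ℛ : Raw 𝒯 Ω ℓ X) (h : ℛ.Ok) [hz : NoZeroDivisors 𝒯.Lim] [hc : CharZero 𝒯.Lim]
    [hnt : Nontrivial 𝒯.Lim] (hn : IsNoetherianRing 𝒯.Lim) (ho : LeftOre 𝒯.Lim) : AFam Ω ℓ X where
  Λ := 𝒯.Lim
  noeth := hn
  ore := ho
  fam := ℛ.fam
  R := ℛ.R
  T := ℛ.T h
  comm := { (inferInstance : Ring (ℛ.T h)) with mul_comm := ℛ.T_comm h }
  m := (ℛ.T h).subtype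
  inj := Subtype.val_injective
  χ := h.chi
  deep := h.deep

theorem Raw.eig_afam (ℛ : Raw 𝒯 Ω ℓ X) (h : ℛ.Ok) [hz : NoZeroDivisors 𝒯.Lim] [hc : CharZero 𝒯.Lim]
    [hnt : Nontrivial 𝒯.Lim] (hn : IsNoetherianRing 𝒯.Lim) (ho : LeftOre 𝒯.Lim) (i : ℛ.fam.ix) (x : X) :
    (ℛ.afam h hn ho).eig i x = ℛ.V i x := by
  refine le_antisymm (fun w hw j => ?_) (fun w hw t => ?_)
  · have h1 := hw (⟨ℛ.mx j, fun s => ⟨MvPolynomial.X j, by rw [h.mP_X]⟩⟩ : ℛ.T h)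
    have h2 : h.chi x (⟨ℛ.mx j, fun s => ⟨MvPolynomial.X j, by rw [h.mP_X]⟩⟩ : ℛ.T h) = ℛ.ev x j := by
      have h3 := h.chi_mP x (MvPolynomial.X j)
      have h4 : ℛ.evP x (MvPolynomial.X j) = ℛ.ev x j := by
        unfold Raw.evP
        rw [MvPolynomial.coe_eval₂Hom, MvPolynomial.eval₂_X]
      rw [h4] at h3
      rw [← h3]
      congr 1
      exact Subtype.ext (h.mP_X j).symm
    rw [← h2]
    exact h1
  · exact h.mact_chi t hw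

theorem Raw.good_afam (ℛ : Raw 𝒯 Ω ℓ X) (h : ℛ.Ok) [hz : NoZeroDivisors 𝒯.Lim] [hc : CharZero 𝒯.Lim]
    [hnt : Nontrivial 𝒯.Lim] (hn : IsNoetherianRing 𝒯.Lim) (ho : LeftOre 𝒯.Lim) : (ℛ.afam h hn ho).Good where
  span i := by
    exact (iSup_congr fun x => ℛ.eig_afam h hn ho i x).trans (h.span i)
  occ x := by
    obtain ⟨i, hi⟩ := h.occ x
    exact ⟨i, by rw [ℛ.eig_afam h hn ho i x]; exact hi⟩

end Pool.Agent.Lib.MP_666dc0_nt.FM
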