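import Pool.Agent.Lib.MP_666dc0_nt.FM.A
import Pool.Agent.Lib.MP_666dc0_nt.FM.B
import Pool.Agent.Lib.MP_666dc0_nt.FM.D1
import Pool.Agent.Lib.MP_666dc0_nt.FM.D3
import Pool.Agent.Lib.MP_666dc0_nt.FM.D4
import Pool.Agent.Lib.MP_666dc0_nt.FM.D5
import Pool.Agent.Lib.MP_666dc0_nt.ZO.M1a
import Pool.Agent.Lib.MP_666dc0_nt.ZO.Q2
import Pool.Agent.Lib.MP_666dc0_nt.ZO.T1

/-!
# FM, D6: the family of the spaces `WI J ρ` for all levels and weights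
-/

open NumberField IsDedekindDomain
open scoped NumberField

namespace Pool.Agent.Lib.MP_666dc0_nt.FM

open WL ZO

variable {F : Type} [Field F] [NumberField F] {n : ℕ} {D : Datum F n} {ℓ : ℕ} [Fact ℓ.Prime]
  {S : Finset (HeightOneSpectrum (𝓞 F))} {U : Subgroup D.Ad} {K : ℕ → Subgroup D.Ad} {d : ℕ}
  {ι : ℂ ≃+* PadicAlgCl ℓ}

/-- The index set: depths, levels and weights. -/
def MIx (ℓ : ℕ) (U : Subgroup D.Ad) (K : ℕ → Subgroup D.Ad) : Type :=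
  {p : ℕ × Subgroup D.Ad × Submodule ℂ (D.Cpx → ℂ) // IsLevel ℓ U p.2.1 ∧ p.2.1 ≤ K p.1 ∧ IsWeight D p.2.2}

/-- The level of an index. -/
def MIx.J (i : MIx ℓ U K) : Subgroup D.Ad := i.1.2.1

/-- The weight of an index. -/
def MIx.Q (i : MIx ℓ U K) : Submodule ℂ (D.Cpx → ℂ) := i.1.2.2

theorem MIx.level (i : MIx ℓ U K) : IsLevel ℓ U i.J := i.2.1

theorem MIx.le (i : MIx ℓ U K) : i.J ≤ K i.1.1 := i.2.2.1

theorem MIx.weight (i : MIx ℓ U K) : IsWeight D i.Q := i.2.2.2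

theorem MIx.le_zero (i : MIx ℓ U K) (hK : IsUniform ℓ d U K) : i.J ≤ K 0 := i.le.trans (hK.K_le (Nat.zero_le _))

theorem MIx.isTow (i : MIx ℓ U K) (hU : IsTame ℓ U) (hK : IsUniform ℓ d U K) : IsTow ℓ U (tow K i.J) :=
  tow_isTow hU hK i.level (i.le_zero hK)

/-- The choices: the completed group ring of `K 0`, a chart. -/
structure Ctx (ℓ : ℕ) [Fact ℓ.Prime] (U : Subgroup D.Ad) (K : ℕ → Subgroup D.Ad) (d : ℕ) (ι : ℂ ≃+* PadicAlgCl ℓ) where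
  H : HatData F ℓ ι
  c : Chart U K
  𝒯 : UTow ℓ d
  𝒬 : QTow 𝒯 (K 0)
  hq : ∀ s x, 𝒬.q s x = 1 ↔ (x : D.Ad) ∈ K s
  hU : IsTame ℓ U
  hK : IsUniform ℓ d U K

variable (κ : Ctx ℓ U K d ι)

/-- A good basis of the weight of an index. -/
noncomputable def Ctx.gb (i : MIx ℓ U K) : GoodBasis κ.H (tow K i.J) i.Q (Module.finrank ℂ i.Q) :=
  (exists_goodBasis κ.H (i.isTow κ.hU κ.hK) i.weight).some

/-- The matrices of `K 0` on the weight of an index. -/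
noncomputable def Ctx.ρ (i : MIx ℓ U K) :
    K 0 →* Matrix (Fin (Module.finrank ℂ i.Q)) (Fin (Module.finrank ℂ i.Q)) (PadicAlgCl ℓ) := (κ.gb i).ρ

theorem Ctx.small (i : MIx ℓ U K) : IsSmall κ.𝒬 (κ.ρ i) where
  close := (κ.gb i).small.close
  field := (κ.gb i).small.field
  cont ε hε := by
    obtain ⟨s, hs⟩ := (κ.gb i).small.cont ε hε
    obtain ⟨s', hs'⟩ := exists_level_le κ.hU κ.hK.tow ((i.isTow κ.hU κ.hK).level s)
    exact ⟨s', fun k hk => hs k (hs' ((κ.hq s' k).1 hk))⟩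

theorem Ctx.hJ (i : MIx ℓ U K) : ∃ s, ∀ x, κ.𝒬.q s x = 1 → x ∈ i.J.subgroupOf (K 0) := by
  obtain ⟨s, hs⟩ := exists_level_le κ.hU κ.hK.tow i.level
  exact ⟨s, fun x hx => Subgroup.mem_subgroupOf.2 (hs ((κ.hq s x).1 hx))⟩

/-- The action of the completed group ring. -/
noncomputable def Ctx.act (i : MIx ℓ U K) :
    κ.𝒯.La →+* Module.End (PadicAlgCl ℓ) (WI (i.J.subgroupOf (K 0)) (κ.ρ i)) :=
  (exists_act κ.𝒬 (i.J.subgroupOf (K 0)) (κ.hJ i) (κ.ρ i) (κ.small i)).choose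

theorem Ctx.isAct (i : MIx ℓ U K) : IsAct κ.𝒬 (i.J.subgroupOf (K 0)) (κ.ρ i) (κ.act i) :=
  (exists_act κ.𝒬 (i.J.subgroupOf (K 0)) (κ.hJ i) (κ.ρ i) (κ.small i)).choose_spec

/-- The family. -/
noncomputable def Ctx.fam : MFam κ.𝒯.La (PadicAlgCl ℓ) ℓ where
  ix := MIx ℓ U K
  W i := WI (i.J.subgroupOf (K 0)) (κ.ρ i)
  fd i := (finrank_WI κ.𝒬 (i.J.subgroupOf (K 0)) (κ.hJ i) (κ.ρ i)).1
  act i := κ.act i
  dep i := i.1.1
  lower a ha := by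
    obtain ⟨C, hC⟩ := rank_act κ.𝒬 a ha
    refine ⟨C, fun i => hC i.1.1 (i.J.subgroupOf (K 0)) (κ.hJ i) (fun x hx => ?_) _ (κ.ρ i) (κ.small i) (κ.act i)
      (κ.isAct i)⟩
    exact (κ.hq _ x).2 (i.le (Subgroup.mem_subgroupOf.1 hx))

/-- The matrices of the Hecke operators, with the systems of eigenvalues. -/
noncomputable def Ctx.raw (S : Finset (HeightOneSpectrum (𝓞 F))) :
    Raw κ.𝒯.la (PadicAlgCl ℓ) ℓ {e : ∀ v, Hecke U v → ℂ // e ∈ AllSys ℓ S U} where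
  fam := κ.fam
  R := κ.c.R
  I := IX ℓ S U
  mx := mX κ.𝒬 κ.c
  ev e := iv ι e.1

theorem Ctx.supp (κ : Ctx ℓ U K d ι) {g : D.Ad} (hg : g ∈ K 0) (v : HeightOneSpectrum (𝓞 F))
    (hv : (ℓ : 𝓞 F) ∉ v.asIdeal) : TrivialAt v g := (κ.hK.level 0).supp g hg v hv

/-- The eigenspaces. -/
noncomputable def Ctx.Vi (i : MIx ℓ U K) (x : {e : ∀ v, Hecke U v → ℂ // e ∈ AllSys ℓ S U}) :
    Submodule (PadicAlgCl ℓ) (κ.c.R → WI (i.J.subgroupOf (K 0)) (κ.ρ i)) := (κ.raw S).V i x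

/-- The coordinates are an isomorphism. -/
noncomputable def Ctx.E (i : MIx ℓ U K) :
    VF U (tow K i.J) (κ.ρ i) 1 ≃ₗ[PadicAlgCl ℓ] (κ.c.R → WI (i.J.subgroupOf (K 0)) (κ.ρ i)) :=
  LinearEquiv.ofBijective (coordW κ.c i.J (κ.ρ i))
    (coordW_bijective κ.c κ.hU (fun _ hg v hv => κ.supp hg v hv) (i.le_zero κ.hK) (κ.ρ i))

theorem Ctx.mem_V (hSl : ∀ v : HeightOneSpectrum (𝓞 F), (ℓ : 𝓞 F) ∈ v.asIdeal → v ∈ S)
    (hUS : ∀ v, v ∉ S → IsGoodAt U v) (i : MIx ℓ U K)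
    (Φ : VF U (tow K i.J) (κ.ρ i) 1) (x : {e : ∀ v, Hecke U v → ℂ // e ∈ AllSys ℓ S U}) :
    κ.E i Φ ∈ κ.Vi i x ↔ ∀ j, IsEF S U (fun g => Φ.1 g j) (iv ι x.1) := by
  rw [← eigen_iff κ.𝒬 κ.c ι hSl κ.hU hUS (fun _ hg v hv => κ.supp hg v hv) (κ.ρ i) (κ.isAct i) Φ (iv ι x.1)]
  refine forall_congr' fun y => ?_
  exact funext_iff

/-- The eigenfunctions whose system has the property `p`. -/
noncomputable def Ctx.EV' (S : Finset (HeightOneSpectrum (𝓞 F))) (i : MIx ℓ U K)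
    (p : (∀ v, Hecke U v → ℂ) → Prop) : Submodule (PadicAlgCl ℓ) (VF U (tow K i.J) (κ.ρ i) 1) :=
  Submodule.span (PadicAlgCl ℓ) {Φ | ∃ lam ∈ AllSys ℓ S U, p lam ∧ ∀ j, IsEF S U (fun g => Φ.1 g j) (iv ι lam)}

theorem Ctx.map_EV' (i : MIx ℓ U K) (p : (∀ v, Hecke U v → ℂ) → Prop) :
    (κ.EV' S i p).map (VF U (tow K i.J) (κ.ρ i) 1).subtype = EV S ι U (tow K i.J) (κ.gb i).ρ 1 p := by
  unfold Ctx.EV' EV
  rw [Submodule.map_span]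
  congr 1
  ext Φ
  constructor
  · rintro ⟨Ψ, ⟨lam, hlam, hp, hΨ⟩, rfl⟩
    exact ⟨Ψ.2, lam, hlam, hp, hΨ⟩
  · rintro ⟨hΦ, lam, hlam, hp, hΨ⟩
    exact ⟨⟨Φ, hΦ⟩, ⟨lam, hlam, hp, hΨ⟩, rfl⟩

theorem Ctx.map_E (hSl : ∀ v : HeightOneSpectrum (𝓞 F), (ℓ : 𝓞 F) ∈ v.asIdeal → v ∈ S)
    (hUS : ∀ v, v ∉ S → IsGoodAt U v) (i : MIx ℓ U K)
    (p : (∀ v, Hecke U v → ℂ) → Prop) :
    (κ.EV' S i p).map (κ.E i).toLinearMap =
      ⨆ (x : {e : ∀ v, Hecke U v → ℂ // e ∈ AllSys ℓ S U}) (_ : p x.1), κ.Vi i x := by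
  refine le_antisymm ?_ (iSup_le fun x => iSup_le fun hx => ?_)
  · unfold Ctx.EV'
    rw [Submodule.map_span, Submodule.span_le]
    rintro _ ⟨Φ, ⟨lam, hlam, hp, hΦ⟩, rfl⟩
    have hle : κ.Vi i (⟨lam, hlam⟩ : {e : ∀ v, Hecke U v → ℂ // e ∈ AllSys ℓ S U}) ≤
        ⨆ (x : {e : ∀ v, Hecke U v → ℂ // e ∈ AllSys ℓ S U}) (_ : p x.1), κ.Vi i x :=
      le_iSup_of_le (⟨lam, hlam⟩ : {e : ∀ v, Hecke U v → ℂ // e ∈ AllSys ℓ S U}) (le_iSup_of_le hp le_rfl)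
    exact hle ((κ.mem_V hSl hUS i Φ ⟨lam, hlam⟩).2 hΦ)
  · intro w hw
    obtain ⟨Φ, rfl⟩ := (κ.E i).surjective w
    exact ⟨Φ, Submodule.subset_span ⟨x.1, x.2, hx, (κ.mem_V hSl hUS i Φ x).1 hw⟩, rfl⟩

theorem Ctx.finrank_sup (hSl : ∀ v : HeightOneSpectrum (𝓞 F), (ℓ : 𝓞 F) ∈ v.asIdeal → v ∈ S)
    (hUS : ∀ v, v ∉ S → IsGoodAt U v) (i : MIx ℓ U K)
    (p : (∀ v, Hecke U v → ℂ) → Prop) :
    Module.finrank (PadicAlgCl ℓ) (⨆ (x : {e : ∀ v, Hecke U v → ℂ // e ∈ AllSys ℓ S U}) (_ : p x.1),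
      κ.Vi i x : Submodule (PadicAlgCl ℓ) (κ.c.R → WI (i.J.subgroupOf (K 0)) (κ.ρ i))) =
      dimE S i.Q U i.J p := by
  rw [← κ.map_E hSl hUS i p]
  refine (LinearEquiv.finrank_map_eq (κ.E i) (κ.EV' S i p)).trans ?_
  unfold dimE
  rw [← Submodule.finrank_map_subtype_eq (VF U (tow K i.J) (κ.ρ i) 1) (κ.EV' S i p), κ.map_EV' i p]
  exact finrank_EV κ.H hSl κ.hU (i.isTow κ.hU κ.hK) i.weight (κ.gb i) 1 p

theorem Ctx.ok [IsTotallyReal F] (hD : IsTotPosDef D.q)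
    (hSl : ∀ v : HeightOneSpectrum (𝓞 F), (ℓ : 𝓞 F) ∈ v.asIdeal → v ∈ S)
    (hUS : ∀ v, v ∉ S → IsGoodAt U v) : (κ.raw S).Ok where
  one_lt := (Fact.out : ℓ.Prime).one_lt
  span i := by
    have h1 := κ.map_E hSl hUS i (fun _ => True)
    have h2 : κ.EV' S i (fun _ => True) = ⊤ := by
      have h3 := κ.map_EV' (S := S) i (fun _ => True)
      rw [EV_true hD κ.H hSl κ.hU hUS (i.isTow κ.hU κ.hK) i.weight (κ.gb i) 1] at h3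
      refine Submodule.map_injective_of_injective (Submodule.subtype_injective _) ?_
      rw [h3, Submodule.map_top, Submodule.range_subtype]
      rfl
    rw [h2, Submodule.map_top, LinearEquiv.range] at h1
    have h4 : ⨆ x, κ.Vi (S := S) i x = ⊤ := by
      rw [h1]
      refine iSup_congr fun x => ?_
      simp only [iSup_pos]
    exact h4
  occ x := by
    obtain ⟨s, Q, hQ, h⟩ := exists_EF hD κ.H hSl κ.hU κ.hK.tow x.2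
    let i : MIx ℓ U K := ⟨(s, K s, Q), κ.hK.level s, le_rfl, hQ⟩
    obtain ⟨Φ, hΦ, h0, hE⟩ := h (tow K i.J) (i.isTow κ.hU κ.hK) rfl (κ.gb i)
    refine ⟨i, fun hbot => h0 ?_⟩
    have h1 := (κ.mem_V hSl hUS i ⟨Φ, hΦ⟩ x).2 hE
    have hbot' : κ.Vi i x = ⊥ := hbot
    rw [hbot', Submodule.mem_bot] at h1
    have h2 : (⟨Φ, hΦ⟩ : VF U (tow K i.J) (κ.ρ i) 1) = 0 := (κ.E i).map_eq_zero_iff.1 h1
    exact congrArg Subtype.val h2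
  deep s := by
    let i : MIx ℓ U K := ⟨(s, K s, constSub D), κ.hK.level s, le_rfl, isWeight_const⟩
    refine ⟨i, le_rfl, ?_⟩
    have h1 := (finrank_WI κ.𝒬 (i.J.subgroupOf (K 0)) (κ.hJ i) (κ.ρ i)).2
    have h2 : (i.J.subgroupOf (K 0)).index = ℓ ^ (s * d) := κ.hK.index s
    have h3 : Module.finrank ℂ i.Q = 1 := finrank_const
    change 0 < Module.finrank (PadicAlgCl ℓ) (WI (i.J.subgroupOf (K 0)) (κ.ρ i))
    refine lt_of_lt_of_eq ?_ h1.symm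
    rw [h2, h3, mul_one]
    exact pow_pos (Fact.out : ℓ.Prime).pos _
  cont i := by
    refine ⟨K 0 × Fin (Module.finrank ℂ (MIx.Q i)), fun y =>
      { toFun := fun Φ => Φ.1 y.1 y.2, map_add' := fun _ _ => rfl, map_smul' := fun _ _ => rfl },
      fun Φ hΦ => Subtype.ext (funext fun x => funext fun j => hΦ (x, j)), fun Φ ε hε => ?_⟩
    obtain ⟨s, hs⟩ := (κ.isAct i).cont Φ ε hε
    exact ⟨s, fun a ha y => hs a ha y.1 y.2⟩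

end Pool.Agent.Lib.MP_666dc0_nt.FM
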