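import Pool.Agent.Lib.MP_666dc0_nt.FM.D6
import Pool.Agent.Lib.MP_666dc0_nt.Mg.G081

/-!
# FM, D: the Hecke algebra of matrices over the completed group ring
-/

open NumberField IsDedekindDomain
open scoped NumberField

namespace Pool.Agent.Lib.MP_666dc0_nt.FM

open WL ZO

variable {F : Type} [Field F] [NumberField F] {n : ℕ} {D : Datum F n} {ℓ : ℕ} [Fact ℓ.Prime]
  {S : Finset (HeightOneSpectrum (𝓞 F))} {U : Subgroup D.Ad}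

/-- `𝒜` describes the systems of eigenvalues of tame level `U`. -/
structure IsModel (S : Finset (HeightOneSpectrum (𝓞 F))) (ι : ℂ ≃+* PadicAlgCl ℓ) (K : ℕ → Subgroup D.Ad)
    (𝒜 : AFam (PadicAlgCl ℓ) ℓ {e : ∀ v, Hecke U v → ℂ // e ∈ AllSys ℓ S U}) : Prop where
  good : 𝒜.Good
  card : Fintype.card 𝒜.R = dimE S (constSub D) U (K 0) fun _ => True
  cls : ∀ (Fam : Set {e : ∀ v, Hecke U v → ℂ // e ∈ AllSys ℓ S U}) lam,
    (∀ t, (∀ y ∈ Fam, 𝒜.χ y t = 0) → 𝒜.χ lam t = 0) ↔ Controlled ℓ S ι (Subtype.val '' Fam) lam.1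
  idx : ∀ s J, IsLevel ℓ U J → J ≤ K s → ∀ Q, IsWeight D Q → ∃ i, 𝒜.fam.dep i = s ∧
    Module.finrank (PadicAlgCl ℓ) (𝒜.fam.W i) = wt Q (K 0) J ∧
    ∀ p : (∀ v, Hecke U v → ℂ) → Prop, dimE S Q U J p =
      Module.finrank (PadicAlgCl ℓ) (⨆ (x : {e : ∀ v, Hecke U v → ℂ // e ∈ AllSys ℓ S U}) (_ : p x.1), 𝒜.eig i x :
        Submodule (PadicAlgCl ℓ) (𝒜.R → 𝒜.fam.W i))

private theorem pval_eq (ι : ℂ ≃+* PadicAlgCl ℓ) (x : ∀ v, Hecke U v → ℂ) (P : MvPolynomial (IX ℓ S U) ℤ) :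
    MvPolynomial.eval₂Hom (Int.castRingHom (PadicAlgCl ℓ)) (iv ι x) P = ι (pval ℓ S x P) := by
  have h : MvPolynomial.eval₂Hom (Int.castRingHom (PadicAlgCl ℓ)) (iv ι x) = ι.toRingHom.comp (pval ℓ S x) := by
    refine MvPolynomial.ringHom_ext (fun r => ?_) (fun j => ?_)
    · rw [eq_intCast (MvPolynomial.C : ℤ →+* MvPolynomial (IX ℓ S U) ℤ) r, map_intCast, map_intCast]
    · rw [MvPolynomial.coe_eval₂Hom, MvPolynomial.eval₂_X, RingHom.comp_apply]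
      unfold pval
      change iv ι x j = ι (MvPolynomial.aeval _ (MvPolynomial.X j))
      rw [MvPolynomial.aeval_X]
      rfl
  rw [h]
  rfl

private theorem evP_eq {K : ℕ → Subgroup D.Ad} {d : ℕ} {ι : ℂ ≃+* PadicAlgCl ℓ} (κ : Ctx ℓ U K d ι)
    (x : {e : ∀ v, Hecke U v → ℂ // e ∈ AllSys ℓ S U}) (P : MvPolynomial (IX ℓ S U) ℤ) :
    (κ.raw S).evP x P = ι (pval ℓ S x.1 P) := pval_eq ι x.1 P

theorem exists_model [IsTotallyReal F] (hD : IsTotPosDef D.q)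
    (hSl : ∀ v : HeightOneSpectrum (𝓞 F), (ℓ : 𝓞 F) ∈ v.asIdeal → v ∈ S) (hU : IsTame ℓ U)
    (hUS : ∀ v, v ∉ S → IsGoodAt U v) (ι : ℂ ≃+* PadicAlgCl ℓ) {d : ℕ} {K : ℕ → Subgroup D.Ad}
    (hK : IsUniform ℓ d U K) : ∃ 𝒜, IsModel (U := U) S ι K 𝒜 := by
  obtain ⟨H⟩ := exists_hatData F ℓ ι
  obtain ⟨c⟩ := exists_chart hD hU hK.tow (free_of_isUniform hD ι hU hK.tow)
  obtain ⟨𝒯, 𝒬, hq⟩ := exists_utow hK
  let κ : Ctx ℓ U K d ι := ⟨H, c, 𝒯, 𝒬, hq, hU, hK⟩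
  have hok : (κ.raw S).Ok := κ.ok hD hSl hUS
  have i1 : NoZeroDivisors 𝒯.la.Lim := 𝒯.la_noZeroDivisors
  have i2 : CharZero 𝒯.la.Lim := 𝒯.la_charZero
  have i3 : Nontrivial 𝒯.la.Lim := ⟨⟨((0 : ℕ) : 𝒯.la.Lim), ((1 : ℕ) : 𝒯.la.Lim), fun h =>
    zero_ne_one (Nat.cast_injective h)⟩⟩
  have i4 : IsNoetherianRing 𝒯.la.Lim := 𝒯.la_noetherian
  have i5 : LeftOre 𝒯.la.Lim := 𝒯.la_leftOre
  have hfin : ∀ s, Finite (𝒯.la.A s) := by
    intro s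
    have : NeZero (ℓ ^ (s + 1)) := ⟨pow_ne_zero _ (Fact.out : ℓ.Prime).ne_zero⟩
    have h1 : Finite (𝒯.P s → ZMod (ℓ ^ (s + 1))) := inferInstance
    exact Finite.of_injective (fun a : MonoidAlgebra (ZMod (ℓ ^ (s + 1))) (𝒯.P s) => fun x => a.coeff x)
      (fun a b hab => MonoidAlgebra.coeff_injective (Finsupp.ext fun x => congrFun hab x))
  refine ⟨(κ.raw S).afam hok i4 i5, (κ.raw S).good_afam hok i4 i5, ?_, fun Fam lam => ?_, fun s J hJ hJs Q hQ => ?_⟩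
  · exact card_chart hD H hSl hU hUS hK.tow c
  · refine (hok.cls hfin Fam lam).trans ?_
    unfold Controlled
    refine forall_congr' fun ε => forall_congr' fun hε => ⟨?_, ?_⟩
    · rintro ⟨I, hI, hIF, δ, hδ, h⟩
      refine ⟨Subtype.val '' I, hI.image _, Set.image_mono hIF, δ, hδ, fun P hP => ?_⟩
      rw [← evP_eq κ]
      exact h P fun e he => by rw [evP_eq κ]; exact hP _ ⟨e, he, rfl⟩
    · rintro ⟨I, hI, hIF, δ, hδ, h⟩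
      refine ⟨Subtype.val ⁻¹' I, hI.preimage Subtype.val_injective.injOn, fun e he => ?_, δ, hδ, fun P hP => ?_⟩
      · obtain ⟨e', he', hee⟩ := hIF he
        rwa [← Subtype.val_injective hee]
      · rw [evP_eq κ]
        refine h P fun e he => ?_
        obtain ⟨e', he', rfl⟩ := hIF he
        rw [← evP_eq κ]
        exact hP e' he
  · refine ⟨(⟨(s, J, Q), hJ, hJs, hQ⟩ : MIx ℓ U K), rfl, ?_, fun p => ?_⟩
    · exact (finrank_WI κ.𝒬 _ (κ.hJ ⟨(s, J, Q), hJ, hJs, hQ⟩) (κ.ρ ⟨(s, J, Q), hJ, hJs, hQ⟩)).2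
    · refine (κ.finrank_sup hSl hUS ⟨(s, J, Q), hJ, hJs, hQ⟩ p).symm.trans ?_
      have h1 : ∀ x, κ.Vi (⟨(s, J, Q), hJ, hJs, hQ⟩ : MIx ℓ U K) x =
          ((κ.raw S).afam hok i4 i5).eig (⟨(s, J, Q), hJ, hJs, hQ⟩ : MIx ℓ U K) x :=
        fun x => ((κ.raw S).eig_afam hok i4 i5 _ x).symm
      have h2 : (⨆ (x : {e : ∀ v, Hecke U v → ℂ // e ∈ AllSys ℓ S U}) (_ : p x.1),
          κ.Vi (⟨(s, J, Q), hJ, hJs, hQ⟩ : MIx ℓ U K) x) =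
          ⨆ (x : {e : ∀ v, Hecke U v → ℂ // e ∈ AllSys ℓ S U}) (_ : p x.1),
          ((κ.raw S).afam hok i4 i5).eig (⟨(s, J, Q), hJ, hJs, hQ⟩ : MIx ℓ U K) x :=
        iSup_congr fun x => iSup_congr fun _ => h1 x
      rw [h2]
      rfl

end Pool.Agent.Lib.MP_666dc0_nt.FM
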