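import Pool.Agent.Lib.MP_666dc0_nt.FM.A5

/-!
# FM, A: the completed group ring of a uniform pro-`ℓ` group is a noetherian domain (leader: helper47)

Main theorems of the part A. Sub-files `A1`, `A2`, … as you like; the deliverable is this file without sorry.

A1 (towers): if all `𝒜.A s` are finite and the `𝒜.f s` are surjective, then `pi s` is surjective (Koenig: a decreasing
sequence of non-empty finite sets has a compatible point), and `x ∈ 𝒜.Lim` is in the left ideal spanned by
`n_1, …, n_k` as soon as it is so at every level (`pi s x ∈ span {pi s n_j}`): the sets of solutions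
`c ∈ (A s)^k` are finite and non-empty. More generally a sum `∑_j x_j` with `x_j → 0` converges.
A2 (leading forms in `Om k`, `k = ZMod ℓ`): `F j = {b | ∀ s, pi s b ∈ Fil k (P s) j}`; for a form
`f : MvPolynomial (Fin d) k` homogeneous of degree `j` put `f~ = ∑_α c_α mono_α ∈ Om k`; ZO/R2a–R2c (`mono_mul`,
`fil_le_span`, `mem_fil_iff`) at the levels with `ℓ ^ s > j` give: every `b ∈ F j` is `f~` modulo `F (j + 1)` for a
unique homogeneous `f`, `f~ g~ = (f g)~` modulo `F (i + j + 1)`, and `⋂ F j = 0` (`fil_nilpotent`), completeness by A1.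
A3: `Om k` is a left noetherian domain: the leading forms of the elements of a left ideal `I` (with `0`) span an ideal
of `MvPolynomial (Fin d) k`, which is finitely generated by leading forms of `b_1, …, b_k ∈ I`; every `b ∈ I` is
`∑ c_j b_j` by successive approximation.
A4: `red : La → Om (ZMod ℓ)` is onto, its kernel is `ℓ La`, `La` has no `ℓ`-torsion (level `s` of `ℓ a = 0` gives that
`a_(s+1)` is killed by `ℓ`, so `a_(s+1) ∈ ℓ^(s+1) (Z/ℓ^(s+2))[P_(s+1)]` and `a_s = 0`), `⋂ ℓ^j La = 0`.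
A5: the same method with `⊕_j (ℓ^j La / ℓ^(j+1) La) = Om[T]` or directly: for a left ideal `I` the left ideals
`I_j = {red a | ℓ^j a ∈ I}` of `Om` increase, so they are stationary, generators of `I_0, …, I_n` lift.
A6 (Ore): a left noetherian domain is left Ore: if `Λ a ∩ Λ b = 0` with `a, b ≠ 0` then the sum of the
`Λ b a^n` is direct.
-/

namespace Pool.Agent.Lib.MP_666dc0_nt.FM

open ZO

variable {ℓ d : ℕ} [Fact ℓ.Prime]

theorem UTow.la_noZeroDivisors (𝒯 : UTow ℓ d) : NoZeroDivisors 𝒯.La := PA.la_noZeroDivisors' 𝒯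

theorem UTow.la_charZero (𝒯 : UTow ℓ d) : CharZero 𝒯.La := PA.la_charZero' 𝒯

theorem UTow.la_noetherian (𝒯 : UTow ℓ d) : IsNoetherianRing 𝒯.La := PA.la_noetherian' 𝒯

theorem UTow.la_leftOre (𝒯 : UTow ℓ d) : LeftOre 𝒯.La := by
  have := PA.la_noZeroDivisors' 𝒯
  have := PA.la_noetherian' 𝒯
  exact PA.leftOre_of_noetherian 𝒯.La

theorem UTow.exists_pow_mul (𝒯 : UTow ℓ d) (a : 𝒯.La) (ha : a ≠ 0) :
    ∃ (j : ℕ) (b : 𝒯.La), a = (ℓ : 𝒯.La) ^ j * b ∧ 𝒯.red b ≠ 0 := PA.exists_pow_mul 𝒯 a ha

end Pool.Agent.Lib.MP_666dc0_nt.FM
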