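import Pool.Agent.Lib.MP_666dc0_nt.ZO.R4
import Pool.Agent.Lib.MP_666dc0_nt.FM.TDefs

/-!
# Coefficients in the completed group algebra of a uniform group
-/

set_option autoImplicit false

namespace Pool.Agent.Lib.MP_666dc0_nt.FM.PA

open ZO

/-- The degree. -/
def deg {d : ℕ} (α : Fin d → ℕ) : ℕ := ∑ i, α i

/-- The key of the order on the monomials: degree, then the lexicographic order. -/
def key {d : ℕ} (α : Fin d → ℕ) : ℕ ×ₗ Lex (Fin d → ℕ) := toLex (deg α, toLex α)

theorem deg_add {d : ℕ} (α β : Fin d → ℕ) : deg (α + β) = deg α + deg β := by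
  unfold deg
  rw [← Finset.sum_add_distrib]
  rfl

theorem le_deg {d : ℕ} (α : Fin d → ℕ) (i : Fin d) : α i ≤ deg α :=
  Finset.single_le_sum (f := α) (fun _ _ => Nat.zero_le _) (Finset.mem_univ i)

theorem key_inj {d : ℕ} {α β : Fin d → ℕ} (h : key α = key β) : α = β := by
  unfold key at h
  have h1 := toLex.injective h
  exact toLex.injective (Prod.ext_iff.1 h1).2

theorem deg_le_of_key {d : ℕ} {α β : Fin d → ℕ} (h : key α ≤ key β) : deg α ≤ deg β := by
  unfold key at h
  rw [Prod.Lex.toLex_le_toLex] at h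
  rcases h with h | h
  · exact h.le
  · exact h.1.le

theorem key_le_of_deg {d : ℕ} {α β : Fin d → ℕ} (h : deg α < deg β) : key α < key β := by
  unfold key
  rw [Prod.Lex.toLex_lt_toLex]
  exact Or.inl h

theorem key_add_lt {d : ℕ} {α β : Fin d → ℕ} (h : key α < key β) (γ : Fin d → ℕ) :
    key (α + γ) < key (β + γ) := by
  unfold key at h ⊢
  rw [Prod.Lex.toLex_lt_toLex] at h ⊢
  rw [deg_add, deg_add]
  rcases h with h | ⟨h1, h2⟩
  · left
    change deg α < deg β at h
    change deg α + deg γ < deg β + deg γ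
    omega
  · right
    change deg α = deg β at h1
    refine ⟨by change deg α + deg γ = deg β + deg γ; omega, ?_⟩
    obtain ⟨i, hi1, hi2⟩ := h2
    refine ⟨i, fun j hj => ?_, ?_⟩
    · have := hi1 j hj
      change α j + γ j = β j + γ j
      exact congrArg (· + γ j) this
    · change α i + γ i < β i + γ i
      exact Nat.add_lt_add_right hi2 _

theorem key_add_le {d : ℕ} {α β : Fin d → ℕ} (h : key α ≤ key β) (γ : Fin d → ℕ) :
    key (α + γ) ≤ key (β + γ) := by
  rcases h.lt_or_eq with h | h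
  · exact (key_add_lt h γ).le
  · rw [key_inj h]

theorem finite_deg (d m : ℕ) : {α : Fin d → ℕ | deg α < m}.Finite := by
  have h : {α : Fin d → ℕ | deg α < m} ⊆ Set.Iic (fun _ => m) := by
    intro α hα i
    exact (le_deg α i).trans (le_of_lt hα)
  exact (Set.finite_Iic _).subset h

theorem exists_min {d : ℕ} {V : Set (Fin d → ℕ)} (hV : V.Nonempty) : ∃ u ∈ V, ∀ v ∈ V, key u ≤ key v := by
  obtain ⟨w, hw⟩ := hV
  have hfin : (V ∩ {α | deg α < deg w + 1}).Finite := (finite_deg d (deg w + 1)).subset Set.inter_subset_right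
  obtain ⟨u, hu, hmin⟩ := Set.exists_min_image _ key hfin ⟨w, hw, Nat.lt_succ_self _⟩
  refine ⟨u, hu.1, fun v hv => ?_⟩
  by_cases h : deg v < deg w + 1
  · exact hmin v ⟨hv, h⟩
  · refine (key_le_of_deg ?_).le
    have h1 : deg u < deg w + 1 := hu.2
    omega

section

variable {ℓ : ℕ} [Fact ℓ.Prime] {d : ℕ} (T : UTow ℓ d)
  (k : Type) [Field k] [CharP k ℓ]

/-- The basis of the monomials. -/
noncomputable def mbs (s : ℕ) : Module.Basis (Fin d → Fin (ℓ ^ s)) k (MonoidAlgebra k (T.P s)) :=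
  Module.Basis.mk (mono_linearIndependent k (T.ug s)) (mono_span k (T.ug s)).ge

theorem mbs_apply (s : ℕ) (α : Fin d → Fin (ℓ ^ s)) :
    mbs T k s α = mono k (T.g s) (fun i => (α i : ℕ)) := by
  simp [mbs]

/-- The coefficient of the monomial `α` at the level `s`. -/
noncomputable def cf (s : ℕ) (a : MonoidAlgebra k (T.P s)) (α : Fin d → ℕ) : k :=
  if h : ∀ i, α i < ℓ ^ s then (mbs T k s).repr a (fun i => ⟨α i, h i⟩) else 0

theorem cf_add (s : ℕ) (a b : MonoidAlgebra k (T.P s)) (α : Fin d → ℕ) :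
    cf T k s (a + b) α = cf T k s a α + cf T k s b α := by
  unfold cf
  split_ifs
  · rw [map_add, Finsupp.add_apply]
  · rw [add_zero]

theorem cf_sub (s : ℕ) (a b : MonoidAlgebra k (T.P s)) (α : Fin d → ℕ) :
    cf T k s (a - b) α = cf T k s a α - cf T k s b α := by
  unfold cf
  split_ifs
  · rw [map_sub, Finsupp.sub_apply]
  · rw [sub_zero]

theorem cf_smul (s : ℕ) (c : k) (a : MonoidAlgebra k (T.P s)) (α : Fin d → ℕ) :
    cf T k s (c • a) α = c * cf T k s a α := by
  unfold cf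
  split_ifs
  · rw [map_smul, Finsupp.smul_apply, smul_eq_mul]
  · rw [mul_zero]

theorem cf_zero (s : ℕ) (α : Fin d → ℕ) : cf T k s 0 α = 0 := by
  unfold cf
  split_ifs
  · rw [map_zero, Finsupp.zero_apply]
  · rfl

theorem cf_sum {J : Type} (s : ℕ) (F : Finset J) (a : J → MonoidAlgebra k (T.P s)) (α : Fin d → ℕ) :
    cf T k s (∑ j ∈ F, a j) α = ∑ j ∈ F, cf T k s (a j) α := by
  classical
  induction F using Finset.induction_on with
  | empty => rw [Finset.sum_empty, Finset.sum_empty, cf_zero]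
  | insert j F hj ih => rw [Finset.sum_insert hj, Finset.sum_insert hj, cf_add, ih]

theorem cf_ext {s : ℕ} {a b : MonoidAlgebra k (T.P s)}
    (h : ∀ α : Fin d → ℕ, (∀ i, α i < ℓ ^ s) → cf T k s a α = cf T k s b α) : a = b := by
  apply (mbs T k s).repr.injective
  ext α
  have h1 := h (fun i => (α i : ℕ)) (fun i => (α i).2)
  unfold cf at h1
  rw [dif_pos (fun i => (α i).2), dif_pos (fun i => (α i).2)] at h1
  exact h1

/-- The expansion of an element in the basis of the monomials. -/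
theorem cf_expand (s : ℕ) (a : MonoidAlgebra k (T.P s)) :
    a = ∑ α : Fin d → Fin (ℓ ^ s), cf T k s a (fun i => (α i : ℕ)) • mono k (T.g s) (fun i => (α i : ℕ)) := by
  have h := (mbs T k s).sum_repr a
  rw [← h]
  refine Finset.sum_congr rfl fun α _ => ?_
  rw [mbs_apply, h]
  congr 1
  unfold cf
  rw [dif_pos (fun i => (α i).2)]

theorem cf_mono (s : ℕ) (α β : Fin d → ℕ) (hα : ∀ i, α i < ℓ ^ s) :
    cf T k s (mono k (T.g s) α) β = if α = β then 1 else 0 := by
  have h : mono k (T.g s) α = mbs T k s (fun i => ⟨α i, hα i⟩) := by rw [mbs_apply]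
  unfold cf
  split_ifs with h1 h2 h2
  · rw [h, Module.Basis.repr_self, Finsupp.single_apply, if_pos]
    subst h2
    rfl
  · rw [h, Module.Basis.repr_self, Finsupp.single_apply, if_neg]
    intro h3
    apply h2
    funext i
    exact congrArg Fin.val (congrFun h3 i)
  · exact absurd (h2 ▸ hα) h1
  · rfl

/-- The coefficients of a product of monomials in low degrees. -/
theorem cf_mono_mul (s : ℕ) (α β γ : Fin d → ℕ) (hγ : ∀ i, γ i < ℓ ^ s) (h : deg γ ≤ deg α + deg β) :
    cf T k s (mono k (T.g s) α * mono k (T.g s) β) γ = if α + β = γ then 1 else 0 := by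
  have h1 := mono_mul k (T.ug s) α β
  have h2 : cf T k s (mono k (T.g s) α * mono k (T.g s) β - mono k (T.g s) (α + β)) γ = 0 := by
    have h3 := mem_fil_iff k (T.ug s) (fun τ => cf T k s (mono k (T.g s) α * mono k (T.g s) β -
      mono k (T.g s) (α + β)) (fun i => (τ i : ℕ))) (∑ i, α i + ∑ i, β i + 1)
    rw [← cf_expand T k s] at h3
    have h4 := h3.1 h1 (fun i => ⟨γ i, hγ i⟩)
    apply h4
    exact Nat.lt_succ_of_le h
  rw [cf_sub, sub_eq_zero] at h2
  rw [h2]
  by_cases hq : ∀ i, (α + β) i < ℓ ^ s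
  · exact cf_mono T k s _ _ hq
  · have h5 : ∃ i, ℓ ^ s ≤ (α + β) i := by
      by_contra h6
      push Not at h6
      exact hq h6
    obtain ⟨i, hi⟩ := h5
    rw [mono_eq_zero k (T.ug s) hi, cf_zero, if_neg]
    intro h7
    rw [h7] at hi
    exact absurd (hγ i) (not_lt.2 hi)

theorem map_mono (s : ℕ) (α : Fin d → ℕ) :
    MonoidAlgebra.mapDomainRingHom k (T.pr s) (mono k (T.g (s + 1)) α) = mono k (T.g s) α := by
  unfold mono
  rw [map_list_prod, List.map_ofFn]
  congr 2
  funext i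
  change MonoidAlgebra.mapDomainRingHom k (T.pr s) (dl k (T.g (s + 1) i) ^ α i) = dl k (T.g s i) ^ α i
  rw [map_pow]
  congr 1
  unfold dl
  rw [map_sub, map_one]
  congr 1
  have h := MonoidAlgebra.mapDomain_single (f := T.pr s) (a := T.g (s + 1) i) (r := (1 : k))
  rw [← T.pr_g s i]
  exact h

/-- The coefficients are compatible with the projections. -/
theorem cf_map (s : ℕ) (a : MonoidAlgebra k (T.P (s + 1))) (α : Fin d → ℕ) (h : ∀ i, α i < ℓ ^ s) :
    cf T k s (MonoidAlgebra.mapDomainRingHom k (T.pr s) a) α = cf T k (s + 1) a α := by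
  have hℓ : 1 ≤ ℓ := (Fact.out : ℓ.Prime).one_lt.le
  have hα : ∀ i, α i < ℓ ^ (s + 1) := fun i => (h i).trans_le (Nat.pow_le_pow_right hℓ (Nat.le_succ s))
  have hsm : ∀ (c : k) (b : MonoidAlgebra k (T.P (s + 1))),
      MonoidAlgebra.mapDomainRingHom k (T.pr s) (c • b) = c • MonoidAlgebra.mapDomainRingHom k (T.pr s) b := by
    intro c b
    exact map_smul (MonoidAlgebra.mapDomainAlgHom k k (T.pr s)) c b
  conv_lhs => rw [cf_expand T k (s + 1) a]
  conv_rhs => rw [cf_expand T k (s + 1) a]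
  rw [map_sum, cf_sum, cf_sum]
  refine Finset.sum_congr rfl fun β _ => ?_
  rw [hsm, map_mono, cf_smul, cf_smul]
  congr 1
  rw [cf_mono T k (s + 1) _ _ (fun i => (β i).2)]
  by_cases hβ : ∀ i, (β i : ℕ) < ℓ ^ s
  · exact cf_mono T k s _ _ hβ
  · have h5 : ∃ i, ℓ ^ s ≤ (β i : ℕ) := by
      by_contra h6
      push Not at h6
      exact hβ h6
    obtain ⟨i, hi⟩ := h5
    rw [mono_eq_zero k (T.ug s) hi, cf_zero, if_neg]
    intro h7
    rw [← h7] at h
    exact absurd (h i) (not_lt.2 hi)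

end

end Pool.Agent.Lib.MP_666dc0_nt.FM.PA
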