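import Pool.Agent.Lib.MP_666dc0_nt.Mg.G073
import Pool.Agent.Lib.MP_666dc0_nt.Mg.G074

/-!
# The completed group algebra is noetherian
-/

set_option autoImplicit false

namespace Pool.Agent.Lib.MP_666dc0_nt.FM.PA

open ZO

/-- Dickson's lemma. -/
theorem dickson {d : ℕ} (V : Set (Fin d → ℕ)) :
    ∃ (m : ℕ) (v : Fin m → Fin d → ℕ), (∀ i, v i ∈ V) ∧ ∀ u ∈ V, ∃ i γ, u = v i + γ := by
  classical
  have hfin : {u | Minimal (· ∈ V) u}.Finite :=
    (setOfPred_minimal_antichain (· ∈ V)).finite_of_wellQuasiOrdered wellQuasiOrdered_le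
  have hf := hfin.to_subtype
  obtain ⟨m, ⟨e⟩⟩ := Finite.exists_equiv_fin {u | Minimal (· ∈ V) u}
  refine ⟨m, fun i => (e.symm i).1, fun i => (e.symm i).2.prop, fun u hu => ?_⟩
  obtain ⟨b, hb, hb'⟩ := exists_minimal_le_of_wellFoundedLT (· ∈ V) u hu
  refine ⟨e ⟨b, hb'⟩, u - b, ?_⟩
  change u = ((e.symm (e ⟨b, hb'⟩)).1 : Fin d → ℕ) + (u - b)
  rw [Equiv.symm_apply_apply]
  funext i
  change u i = b i + (u i - b i)
  have h3 : b i ≤ u i := hb i
  omega

variable {ℓ : ℕ} [Fact ℓ.Prime] {d : ℕ} (T : UTow ℓ d) (k : Type) [Field k] [CharP k ℓ]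

/-- Approximation of the elements of a left ideal. -/
theorem approx {I : Ideal (T.Om k)} {m : ℕ} {n : Fin m → T.Om k} {v : Fin m → Fin d → ℕ}
    (hn : ∀ i, n i ∈ I) (hv : ∀ i, IsLead T k (n i) (v i))
    (hI : ∀ b ∈ I, ∀ u, IsLead T k b u → ∃ i γ, u = v i + γ) (N : ℕ) {b : T.Om k} (hb : b ∈ I) :
    ∃ c : Fin m → T.Om k, ∀ w, deg w < N → co T k (b - ∑ i, c i * n i) w = 0 := by
  classical
  by_contra hcon
  push Not at hcon
  have hmem : ∀ c : Fin m → T.Om k, b - ∑ i, c i * n i ∈ I := fun c =>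
    I.sub_mem hb (I.sum_mem fun i _ => I.mul_mem_left _ (hn i))
  -- all remainders have a leading monomial of low degree
  have hlead : ∀ c : Fin m → T.Om k, ∃ u, deg u < N ∧ IsLead T k (b - ∑ i, c i * n i) u := by
    intro c
    obtain ⟨w, hw, hw'⟩ := hcon c
    obtain ⟨u, hu⟩ := exists_lead T k (a := b - ∑ i, c i * n i) (fun h => hw' (by rw [h, co_zero]))
    exact ⟨u, (deg_le_of_key (hu.2 w hw')).trans_lt hw, hu⟩
  have hfin : {u : Fin d → ℕ | deg u < N ∧ ∃ c : Fin m → T.Om k, IsLead T k (b - ∑ i, c i * n i) u}.Finite :=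
    (finite_deg d N).subset fun u hu => hu.1
  obtain ⟨u₀, hu₀, hu₀'⟩ := hlead 0
  obtain ⟨u, ⟨hu, c, hc⟩, hmax⟩ := Set.exists_max_image _ key hfin ⟨u₀, hu₀, 0, hu₀'⟩
  obtain ⟨i, γ, hiγ⟩ := hI _ (hmem c) u hc
  have hli : co T k (n i) (v i) ≠ 0 := (hv i).1
  obtain ⟨x, hx⟩ : ∃ x, x = co T k (b - ∑ i, c i * n i) u / co T k (n i) (v i) := ⟨_, rfl⟩
  obtain ⟨c', hc'⟩ : ∃ c' : Fin m → T.Om k, c' = Function.update c i (c i + sc T k x * mo T k γ) := ⟨_, rfl⟩
  have hsum : b - ∑ j, c' j * n j = (b - ∑ j, c j * n j) - sc T k x * (mo T k γ * n i) := by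
    have h1 : ∑ j, c' j * n j = ∑ j, c j * n j + sc T k x * (mo T k γ * n i) := by
      rw [← Finset.add_sum_erase _ _ (Finset.mem_univ i), ← Finset.add_sum_erase _ (fun j => c j * n j) (Finset.mem_univ i)]
      have h2 : ∑ j ∈ Finset.univ.erase i, c' j * n j = ∑ j ∈ Finset.univ.erase i, c j * n j := by
        refine Finset.sum_congr rfl fun j hj => ?_
        rw [hc', Function.update_of_ne (Finset.ne_of_mem_erase hj)]
      rw [h2, hc', Function.update_self, add_mul, mul_assoc]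
      abel
    rw [h1]
    abel
  obtain ⟨u', hu', hu''⟩ := hlead c'
  have hle := hmax u' ⟨hu', c', hu''⟩
  apply hu''.1
  rw [hsum, co_sub, co_sc_mul]
  have hmv : u = γ + v i := by rw [hiγ, add_comm]
  rw [hmv] at hle
  have h1 := co_mul T k (isLead_mo T k γ).2 (hv i).2 u' hle
  rw [h1]
  by_cases h2 : u' = γ + v i
  · rw [if_pos h2, co_mo, if_pos rfl, one_mul, hx, h2, ← hmv]
    rw [div_mul_cancel₀ _ hli, sub_self]
  · rw [if_neg h2, mul_zero, sub_zero]
    by_contra h3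
    have h4 := hc.2 u' h3
    rw [hmv] at h4
    exact h2 (key_inj (le_antisymm hle h4))

theorem om_noetherian [Finite k] : IsNoetherianRing (T.Om k) := by
  classical
  refine isNoetherianRing_iff_ideal_fg _ |>.2 fun I => ?_
  obtain ⟨m, v, hv, hV⟩ := dickson {u | ∃ b ∈ I, IsLead T k b u}
  choose n hn hn' using hv
  have hfinA : ∀ s, Finite ((T.om k).A s) := fun s => by
    change Finite (MonoidAlgebra k (T.P s))
    have h : Finite (T.P s →₀ k) :=
      Finite.of_injective (fun f : T.P s →₀ k => (f : T.P s → k)) DFunLike.coe_injective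
    exact Finite.of_equiv _ (MonoidAlgebra.coeffEquiv (R := k) (M := T.P s)).symm
  refine ⟨Finset.univ.image n, ?_⟩
  rw [Finset.coe_image, Finset.coe_univ, Set.image_univ]
  refine le_antisymm (Ideal.span_le.2 ?_) fun b hb => ?_
  · rintro _ ⟨i, rfl⟩
    exact hn i
  · refine (T.om k).mem_span n b fun s => ?_
    obtain ⟨c, hc⟩ := approx T k hn hn' (fun b hb u hu => hV u ⟨b, hb, hu⟩) (d * ℓ ^ s + 1) hb
    refine ⟨fun i => (T.om k).pi s (c i), ?_⟩
    have h1 : lev T k s (b - ∑ i, c i * n i) = lev T k s 0 :=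
      pi_eq_of_co T k (m := d * ℓ ^ s + 1) (fun α hα => by rw [hc α hα, co_zero]) (Nat.lt_succ_self _)
    rw [map_zero, map_sub, sub_eq_zero, map_sum] at h1
    refine h1.trans (Finset.sum_congr rfl fun i _ => ?_)
    exact map_mul _ _ _

end Pool.Agent.Lib.MP_666dc0_nt.FM.PA
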