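import Mathlib

/-!
# Families of modules over a noncommutative domain: definitions (complete, NOT a task)
-/

namespace Pool.Agent.Lib.MP_666dc0_nt.FM

/-- The left Ore condition. -/
def LeftOre (Λ : Type) [Ring Λ] : Prop := ∀ a b : Λ, a ≠ 0 → b ≠ 0 → ∃ x y : Λ, x * a = y * b ∧ x * a ≠ 0

/-- A family of finite-dimensional modules over `Λ`; every non-zero element of `Λ` acts on the member `i` with rank at
least `(1 - C / ℓ ^ dep i) dim (W i)`. -/
structure MFam (Λ : Type) [Ring Λ] (Ω : Type) [Field Ω] (ℓ : ℕ) where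
  ix : Type
  W : ix → Type
  [acg : ∀ i, AddCommGroup (W i)]
  [mod : ∀ i, Module Ω (W i)]
  [fd : ∀ i, FiniteDimensional Ω (W i)]
  act : ∀ i, Λ →+* Module.End Ω (W i)
  dep : ix → ℕ
  lower : ∀ a : Λ, a ≠ 0 → ∃ C : ℝ, ∀ i,
    (1 - C / (ℓ : ℝ) ^ dep i) * (Module.finrank Ω (W i) : ℝ) ≤
      (Module.finrank Ω (LinearMap.range (act i a)) : ℝ)

attribute [instance] MFam.acg MFam.mod MFam.fd

variable {Λ : Type} [Ring Λ] {Ω : Type} [Field Ω] {ℓ : ℕ}

/-- The action of a matrix over `Λ` on the columns. -/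
def MFam.mact (𝒲 : MFam Λ Ω ℓ) (i : 𝒲.ix) {κ κ' : Type} [Fintype κ'] (X : Matrix κ κ' Λ) :
    (κ' → 𝒲.W i) →ₗ[Ω] (κ → 𝒲.W i) where
  toFun w p := ∑ q, 𝒲.act i (X p q) (w q)
  map_add' a b := by
    funext p
    simp only [Pi.add_apply, map_add, Finset.sum_add_distrib]
  map_smul' c a := by
    funext p
    simp only [Pi.smul_apply, map_smul, Finset.smul_sum, RingHom.id_apply]

theorem MFam.mact_apply (𝒲 : MFam Λ Ω ℓ) (i : 𝒲.ix) {κ κ' : Type} [Fintype κ'] (X : Matrix κ κ' Λ)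
    (w : κ' → 𝒲.W i) (p : κ) : 𝒲.mact i X w p = ∑ q, 𝒲.act i (X p q) (w q) := rfl

/-- The stable rank of an endomorphism of a space of finite dimension. -/
noncomputable def srk {D V : Type} [DivisionRing D] [AddCommGroup V] [Module D V] (f : V →ₗ[D] V) : ℕ :=
  Module.finrank D (LinearMap.range (f ^ Module.finrank D V))

end Pool.Agent.Lib.MP_666dc0_nt.FM
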