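import Pool.Agent.Lib.MP_666dc0_nt.FM.A3
import Pool.Agent.Lib.MP_666dc0_nt.FM.A4
import Pool.Agent.Lib.MP_666dc0_nt.FM.ODefs

/-!
# The completed group ring is noetherian
-/

set_option autoImplicit false

namespace Pool.Agent.Lib.MP_666dc0_nt.FM.PA

open ZO

variable {ℓ d : ℕ} [Fact ℓ.Prime] (T : UTow ℓ d)

/-- The reductions of the elements `a` with `ℓ ^ j * a ∈ I`. -/
def lid (I : Ideal T.La) (j : ℕ) : Ideal (T.Om (ZMod ℓ)) where
  carrier := {x | ∃ a : T.La, (ℓ : T.La) ^ j * a ∈ I ∧ T.red a = x}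
  add_mem' := by
    rintro _ _ ⟨a, ha, rfl⟩ ⟨b, hb, rfl⟩
    exact ⟨a + b, by rw [mul_add]; exact I.add_mem ha hb, map_add _ _ _⟩
  zero_mem' := ⟨0, by rw [mul_zero]; exact I.zero_mem, map_zero _⟩
  smul_mem' := by
    rintro r _ ⟨a, ha, rfl⟩
    obtain ⟨r, rfl⟩ := red_surjective T r
    refine ⟨r * a, ?_, map_mul _ _ _⟩
    rw [← mul_assoc, ← ell_comm T j r, mul_assoc]
    exact I.mul_mem_left _ ha

theorem mem_lid {I : Ideal T.La} {j : ℕ} {x : T.Om (ZMod ℓ)} :
    x ∈ lid T I j ↔ ∃ a : T.La, (ℓ : T.La) ^ j * a ∈ I ∧ T.red a = x := Iff.rfl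

theorem lid_mono (I : Ideal T.La) : Monotone (lid T I) := by
  refine monotone_nat_of_le_succ fun j => ?_
  rintro _ ⟨a, ha, rfl⟩
  refine ⟨a, ?_, rfl⟩
  rw [pow_succ', mul_assoc]
  exact I.mul_mem_left _ ha

theorem red_sub {a b : T.La} (h : T.red a = T.red b) : ∃ c : T.La, a = b + (ℓ : T.La) * c := by
  obtain ⟨c, hc⟩ := exists_of_red T (a - b) (by rw [map_sub, h, sub_self])
  exact ⟨c, by rw [← hc]; abel⟩

theorem step_span (j : ℕ) (S : Set T.La) (V : Set (T.Om (ZMod ℓ)))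
    (hV : ∀ t ∈ V, ∃ a : T.La, (ℓ : T.La) ^ j * a ∈ Ideal.span S ∧ T.red a = t) {x : T.Om (ZMod ℓ)}
    (hx : x ∈ Ideal.span V) : ∃ a : T.La, (ℓ : T.La) ^ j * a ∈ Ideal.span S ∧ T.red a = x := by
  have h : Ideal.span V ≤ lid T (Ideal.span S) j := Ideal.span_le.2 hV
  exact h hx

theorem exists_step (I : Ideal T.La) (j : ℕ) : ∃ S : Finset T.La, (∀ a ∈ S, a ∈ I) ∧
    ∀ b : T.La, (ℓ : T.La) ^ j * b ∈ I →
      ∃ y ∈ Ideal.span (S : Set T.La), ∃ b' : T.La, (ℓ : T.La) ^ j * b = y + (ℓ : T.La) ^ (j + 1) * b' := by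
  classical
  have : IsNoetherianRing (T.Om (ZMod ℓ)) := om_noetherian T (ZMod ℓ)
  obtain ⟨V, hV⟩ := (isNoetherianRing_iff_ideal_fg _).1 this (lid T I j)
  have h1 : ∀ t ∈ V, ∃ a : T.La, (ℓ : T.La) ^ j * a ∈ I ∧ T.red a = t := by
    intro t ht
    have h2 : t ∈ lid T I j := by
      rw [← hV]
      exact Ideal.subset_span ht
    exact h2
  choose! f hf hf' using h1
  refine ⟨V.image fun t => (ℓ : T.La) ^ j * f t, ?_, fun b hb => ?_⟩
  · intro a ha
    rw [Finset.mem_image] at ha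
    obtain ⟨t, ht, rfl⟩ := ha
    exact hf t ht
  · have h3 : T.red b ∈ Ideal.span (V : Set (T.Om (ZMod ℓ))) := by
      rw [hV]
      exact ⟨b, hb, rfl⟩
    obtain ⟨a, ha, ha'⟩ := step_span T j (((V.image fun t => (ℓ : T.La) ^ j * f t : Finset T.La)) : Set T.La)
      (V : Set (T.Om (ZMod ℓ))) (fun t ht => ⟨f t, Ideal.subset_span (by
        rw [Finset.coe_image]
        exact ⟨t, ht, rfl⟩), hf' t ht⟩) h3
    obtain ⟨c, hc⟩ := red_sub T ha'.symm
    refine ⟨_, ha, c, ?_⟩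
    rw [hc, mul_add, pow_succ, mul_assoc]

theorem exists_gens (I : Ideal T.La) : ∃ S : Finset T.La, (∀ a ∈ S, a ∈ I) ∧
    ∀ (j : ℕ) (b : T.La), (ℓ : T.La) ^ j * b ∈ I →
      ∃ y ∈ Ideal.span (S : Set T.La), ∃ b' : T.La, (ℓ : T.La) ^ j * b = y + (ℓ : T.La) ^ (j + 1) * b' := by
  classical
  have hno : IsNoetherianRing (T.Om (ZMod ℓ)) := om_noetherian T (ZMod ℓ)
  obtain ⟨n, hn⟩ := monotone_stabilizes_iff_noetherian.2 hno ⟨lid T I, lid_mono T I⟩
  choose S hS hS' using exists_step T I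
  refine ⟨(Finset.range (n + 1)).biUnion S, ?_, fun j b hb => ?_⟩
  · intro a ha
    rw [Finset.mem_biUnion] at ha
    obtain ⟨j, -, ha⟩ := ha
    exact hS j a ha
  · have hsub : ∀ i ≤ n, Ideal.span (S i : Set T.La) ≤
        Ideal.span (((Finset.range (n + 1)).biUnion S : Finset T.La) : Set T.La) := by
      intro i hi
      apply Ideal.span_mono
      intro a ha
      rw [Finset.mem_coe, Finset.mem_biUnion]
      exact ⟨i, Finset.mem_range.2 (by omega), ha⟩
    rcases le_total j n with h | h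
    · obtain ⟨y, hy, b', hb'⟩ := hS' j b hb
      exact ⟨y, hsub j h hy, b', hb'⟩
    · have h1 : T.red b ∈ lid T I n := by
        have h2 := hn j h
        change lid T I n = lid T I j at h2
        rw [h2]
        exact ⟨b, hb, rfl⟩
      obtain ⟨a, ha, ha'⟩ := h1
      obtain ⟨y, hy, b', hb'⟩ := hS' n a ha
      obtain ⟨c, hc⟩ := red_sub T ha'.symm
      refine ⟨(ℓ : T.La) ^ (j - n) * y, Ideal.mul_mem_left _ _ (hsub n le_rfl hy), b' + c, ?_⟩
      have h3 : (ℓ : T.La) ^ j = (ℓ : T.La) ^ (j - n) * (ℓ : T.La) ^ n := by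
        rw [← pow_add, Nat.sub_add_cancel h]
      have h4 : (ℓ : T.La) ^ (j + 1) = (ℓ : T.La) ^ (j - n) * (ℓ : T.La) ^ (n + 1) := by
        rw [← pow_add]
        congr 1
        omega
      calc (ℓ : T.La) ^ j * b = (ℓ : T.La) ^ (j - n) * ((ℓ : T.La) ^ n * a) + (ℓ : T.La) ^ (j + 1) * c := by
            rw [hc, mul_add, ← mul_assoc, ← mul_assoc, ← h3, pow_succ]
        _ = (ℓ : T.La) ^ (j - n) * y + (ℓ : T.La) ^ (j + 1) * (b' + c) := by
            rw [hb', mul_add, mul_add, ← mul_assoc _ _ b', ← h4, add_assoc]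

theorem la_noetherian' : IsNoetherianRing T.La := by
  classical
  refine (isNoetherianRing_iff_ideal_fg _).2 fun I => ?_
  obtain ⟨S, hS, hS'⟩ := exists_gens T I
  refine ⟨S, le_antisymm (Ideal.span_le.2 hS) fun x hx => ?_⟩
  have h1 : ∀ j, ∃ y ∈ Ideal.span (S : Set T.La), ∃ b : T.La, x = y + (ℓ : T.La) ^ j * b := by
    intro j
    induction j with
    | zero => exact ⟨0, zero_mem _, x, by rw [pow_zero, one_mul, zero_add]⟩
    | succ j ih =>
      obtain ⟨y, hy, b, hb⟩ := ih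
      have h2 : (ℓ : T.La) ^ j * b ∈ I := by
        have h3 : (ℓ : T.La) ^ j * b = x - y := by rw [hb]; abel
        rw [h3]
        exact I.sub_mem hx (Ideal.span_le.2 hS hy)
      obtain ⟨y', hy', b', hb'⟩ := hS' j b h2
      exact ⟨y + y', add_mem hy hy', b', by rw [hb, hb', add_assoc]⟩
  have hr : Set.range (fun i : Fin S.card => ((S.equivFin.symm i : S) : T.La)) = (S : Set T.La) := by
    ext a
    constructor
    · rintro ⟨i, rfl⟩
      exact (S.equivFin.symm i).2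
    · intro ha
      refine ⟨S.equivFin ⟨a, ha⟩, ?_⟩
      change ((S.equivFin.symm (S.equivFin ⟨a, ha⟩) : S) : T.La) = a
      rw [Equiv.symm_apply_apply]
  rw [← hr]
  refine T.la.mem_span _ x fun s => ?_
  obtain ⟨y, hy, b, hb⟩ := h1 (s + 1)
  rw [← hr, Ideal.span, Submodule.mem_span_range_iff_exists_fun] at hy
  obtain ⟨c, hc⟩ := hy
  refine ⟨fun i => T.la.pi s (c i), ?_⟩
  have h4 : T.la.pi s ((ℓ : T.La) ^ (s + 1) * b) = 0 := by
    rw [map_mul, map_pow, map_natCast]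
    have h1 : ((ℓ : ℕ) : T.la.A s) ^ (s + 1) = 0 := by
      change ((ℓ : ℕ) : MonoidAlgebra (ZMod (ℓ ^ (s + 1))) (T.P s)) ^ (s + 1) = 0
      rw [← Nat.cast_pow, ← map_natCast (algebraMap (ZMod (ℓ ^ (s + 1)))
        (MonoidAlgebra (ZMod (ℓ ^ (s + 1))) (T.P s))), ZMod.natCast_self, map_zero]
    rw [h1, zero_mul]
  rw [hb, map_add, h4, add_zero, ← hc, map_sum]
  refine Finset.sum_congr rfl fun i _ => ?_
  rw [smul_eq_mul, map_mul]

theorem la_noZeroDivisors' : NoZeroDivisors T.La := by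
  refine ⟨fun {a b} hab => ?_⟩
  by_contra hne
  push Not at hne
  obtain ⟨i, a', ha, ha'⟩ := exists_pow_mul T a hne.1
  obtain ⟨j, b', hb, hb'⟩ := exists_pow_mul T b hne.2
  have h1 : (ℓ : T.La) ^ (i + j) * (a' * b') = 0 := by
    rw [← hab, ha, hb, pow_add]
    rw [mul_assoc, mul_assoc, ← mul_assoc a', ell_comm T j a', mul_assoc]
  have h2 := eq_zero_of_ell_pow_mul T _ _ h1
  have h3 := om_noZeroDivisors T (ZMod ℓ)
  have h4 : T.red a' * T.red b' = 0 := by rw [← map_mul, h2, map_zero]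
  rcases mul_eq_zero.1 h4 with h | h
  · exact ha' h
  · exact hb' h

private theorem indep {Λ : Type} [Ring Λ] [NoZeroDivisors Λ] {a b : Λ} (ha : a ≠ 0) (hb : b ≠ 0)
    (h : ∀ x y : Λ, x * a = y * b → x * a = 0) :
    ∀ (n : ℕ) (c : ℕ → Λ), ∑ i ∈ Finset.range n, c i * (b * a ^ i) = 0 → ∀ i < n, c i = 0 := by
  intro n
  induction n with
  | zero => intro c _ i hi; exact absurd hi (Nat.not_lt_zero i)
  | succ n ih =>
    intro c hc
    rw [Finset.sum_range_succ', pow_zero, mul_one] at hc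
    have h1 : ∑ i ∈ Finset.range n, c (i + 1) * (b * a ^ (i + 1)) =
        (∑ i ∈ Finset.range n, c (i + 1) * (b * a ^ i)) * a := by
      rw [Finset.sum_mul]
      refine Finset.sum_congr rfl fun i _ => ?_
      rw [pow_succ, mul_assoc, mul_assoc]
    rw [h1] at hc
    have h2 : (∑ i ∈ Finset.range n, c (i + 1) * (b * a ^ i)) * a = (-c 0) * b := by
      rw [neg_mul]
      exact eq_neg_of_add_eq_zero_left hc
    have h3 := h _ _ h2
    have h4 : ∑ i ∈ Finset.range n, c (i + 1) * (b * a ^ i) = 0 := (mul_eq_zero.1 h3).resolve_right ha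
    rw [h3, zero_add] at hc
    have h5 : c 0 = 0 := (mul_eq_zero.1 hc).resolve_right hb
    intro i hi
    rcases Nat.eq_zero_or_pos i with h6 | h6
    · rw [h6, h5]
    · obtain ⟨j, rfl⟩ := Nat.exists_eq_succ_of_ne_zero h6.ne'
      exact ih (fun i => c (i + 1)) h4 j (by omega)

/-- A left noetherian domain is left Ore. -/
theorem leftOre_of_noetherian (Λ : Type) [Ring Λ] [NoZeroDivisors Λ] [IsNoetherianRing Λ] : LeftOre Λ := by
  classical
  intro a b ha hb
  by_contra hcon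
  push Not at hcon
  have hnt : Nontrivial Λ := ⟨a, 0, ha⟩
  let J : ℕ → Ideal Λ := fun n =>
    { carrier := {x | ∃ c : ℕ → Λ, x = ∑ i ∈ Finset.range n, c i * (b * a ^ i)}
      add_mem' := by
        rintro _ _ ⟨c, rfl⟩ ⟨c', rfl⟩
        exact ⟨c + c', by
          rw [← Finset.sum_add_distrib]
          exact Finset.sum_congr rfl fun i _ => by rw [Pi.add_apply, add_mul]⟩
      zero_mem' := ⟨0, by simp⟩
      smul_mem' := by
        rintro r _ ⟨c, rfl⟩
        exact ⟨fun i => r * c i, by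
          rw [smul_eq_mul, Finset.mul_sum]
          exact Finset.sum_congr rfl fun i _ => by rw [mul_assoc]⟩ }
  have hJ : Monotone J := by
    refine monotone_nat_of_le_succ fun n => ?_
    rintro _ ⟨c, rfl⟩
    refine ⟨fun i => if i < n then c i else 0, ?_⟩
    rw [Finset.sum_range_succ]
    beta_reduce
    rw [if_neg (lt_irrefl n), zero_mul, add_zero]
    refine Finset.sum_congr rfl fun i hi => ?_
    rw [if_pos (Finset.mem_range.1 hi)]
  obtain ⟨n, hn⟩ := monotone_stabilizes_iff_noetherian.2 ‹IsNoetherianRing Λ› ⟨J, hJ⟩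
  have h1 : b * a ^ n ∈ J (n + 1) := by
    refine ⟨fun i => if i = n then 1 else 0, ?_⟩
    rw [Finset.sum_range_succ]
    beta_reduce
    rw [if_pos rfl, one_mul, Finset.sum_eq_zero, zero_add]
    intro i hi
    rw [if_neg (Finset.mem_range.1 hi).ne, zero_mul]
  have h2 : J n = J (n + 1) := hn (n + 1) (Nat.le_succ n)
  rw [← h2] at h1
  obtain ⟨c, hc⟩ := h1
  have h3 := indep ha hb (fun x y hxy => hcon x y hxy) (n + 1) (fun i => if i < n then c i else -1) (by
    rw [Finset.sum_range_succ]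
    rw [if_neg (lt_irrefl n), neg_one_mul, hc, ← sub_eq_add_neg, sub_eq_zero]
    refine Finset.sum_congr rfl fun i hi => ?_
    rw [if_pos (Finset.mem_range.1 hi)]) n (Nat.lt_succ_self n)
  beta_reduce at h3
  rw [if_neg (lt_irrefl n)] at h3
  exact one_ne_zero (neg_eq_zero.1 h3)

theorem la_nontrivial : Nontrivial T.La := by
  refine ⟨1, 0, fun h => ?_⟩
  have h1 := congrArg (T.la.pi 0) h
  rw [map_one, map_zero] at h1
  have h2 : (1 : MonoidAlgebra (ZMod (ℓ ^ (0 + 1))) (T.P 0)) = 0 := h1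
  have h3 : Nontrivial (ZMod (ℓ ^ (0 + 1))) := by
    rw [zero_add, pow_one]
    infer_instance
  exact one_ne_zero h2

theorem la_charZero' : CharZero T.La := by
  have hnt := la_nontrivial T
  refine charZero_of_inj_zero fun n hn => ?_
  by_contra hne
  have hpos : 0 < n := Nat.pos_of_ne_zero hne
  have h1 := congrArg (T.la.pi n) hn
  rw [map_natCast, map_zero] at h1
  have h2 : ((n : ℕ) : MonoidAlgebra (ZMod (ℓ ^ (n + 1))) (T.P n)) = 0 := h1
  rw [← map_natCast (algebraMap (ZMod (ℓ ^ (n + 1))) (MonoidAlgebra (ZMod (ℓ ^ (n + 1))) (T.P n)))] at h2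
  have h3 : ((n : ℕ) : ZMod (ℓ ^ (n + 1))) = 0 := by
    have h4 := congrArg (fun x : MonoidAlgebra (ZMod (ℓ ^ (n + 1))) (T.P n) => x.coeff 1) h2
    simpa using h4
  rw [ZMod.natCast_eq_zero_iff] at h3
  have h5 := Nat.le_of_dvd hpos h3
  have h6 : n + 1 < ℓ ^ (n + 1) := Nat.lt_pow_self (Fact.out : ℓ.Prime).one_lt
  omega

end Pool.Agent.Lib.MP_666dc0_nt.FM.PA
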