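import Pool.Agent.Lib.MP_666dc0_nt.Mg.G073

/-!
# The completed group ring acts on the spaces `WI J ρ`
-/

namespace Pool.Agent.Lib.MP_666dc0_nt.FM

open ZO

variable {ℓ d : ℕ} [Fact ℓ.Prime] {𝒯 : UTow ℓ d} {G : Type} [Group G]

theorem IsSmall.norm_le {𝒬 : QTow 𝒯 G} {w : ℕ} {ρ : G →* Matrix (Fin w) (Fin w) (PadicAlgCl ℓ)} (hρ : IsSmall 𝒬 ρ)
    (g : G) (i j : Fin w) : ‖ρ g i j‖ ≤ 1 := by
  have h1 : ρ g i j = (ρ g i j - (1 : Matrix (Fin w) (Fin w) (PadicAlgCl ℓ)) i j) +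
      (1 : Matrix (Fin w) (Fin w) (PadicAlgCl ℓ)) i j := by ring
  rw [h1]
  refine (IsUltrametricDist.norm_add_le_max _ _).trans (max_le ((hρ.close g i j).trans ?_) ?_)
  · exact inv_le_one_of_one_le₀ (by exact_mod_cast (Fact.out : ℓ.Prime).one_lt.le)
  · rw [Matrix.one_apply]
    split_ifs
    · rw [norm_one]
    · rw [norm_zero]
      exact zero_le_one

theorem norm_mulVec_le {w : ℕ} {M : Matrix (Fin w) (Fin w) (PadicAlgCl ℓ)} {c : ℝ} (hc : 0 ≤ c)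
    (hM : ∀ i j, ‖M i j‖ ≤ c) {v : Fin w → PadicAlgCl ℓ} {C : ℝ} (hC : 0 ≤ C) (hv : ∀ j, ‖v j‖ ≤ C) (i : Fin w) :
    ‖M.mulVec v i‖ ≤ c * C := by
  rw [Matrix.mulVec, dotProduct]
  refine IsUltrametricDist.norm_sum_le_of_forall_le_of_nonneg (by positivity) fun j _ => ?_
  rw [norm_mul]
  exact mul_le_mul (hM i j) (hv j) (norm_nonneg _) hc

theorem ucf_coord {𝒬 : QTow 𝒯 G} {J : Subgroup G} (hJ : ∃ s, ∀ x, 𝒬.q s x = 1 → x ∈ J) {w : ℕ}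
    {ρ : G →* Matrix (Fin w) (Fin w) (PadicAlgCl ℓ)} (hρ : IsSmall 𝒬 ρ) (Φ : WI J ρ) (j : Fin w) :
    IsUcf 𝒬 (fun x => Φ.1 x j) := by
  classical
  obtain ⟨t, ht⟩ := hJ
  choose σ hσ using 𝒬.surj t
  let _ : Fintype (𝒯.P t) := Fintype.ofFinite _
  have hval : ∀ x, Φ.1 x = (ρ (x⁻¹ * σ (𝒬.q t x))).mulVec (Φ.1 (σ (𝒬.q t x))) := by
    intro x
    have h1 : (σ (𝒬.q t x))⁻¹ * x ∈ J := ht _ (by rw [map_mul, map_inv, hσ, inv_mul_cancel])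
    have h2 := Φ.2 (σ (𝒬.q t x)) _ h1
    rw [mul_inv_cancel_left, mul_inv_rev, inv_inv] at h2
    exact h2
  -- a bound
  obtain ⟨C, hC0, hC⟩ : ∃ C : ℝ, 0 ≤ C ∧ ∀ p i, ‖Φ.1 (σ p) i‖ ≤ C := by
    refine ⟨∑ p : 𝒯.P t, ∑ i : Fin w, ‖Φ.1 (σ p) i‖, Finset.sum_nonneg fun _ _ => Finset.sum_nonneg fun _ _ =>
      norm_nonneg _, fun p i => ?_⟩
    exact (Finset.single_le_sum (f := fun i => ‖Φ.1 (σ p) i‖) (fun _ _ => norm_nonneg _) (Finset.mem_univ i)).trans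
      (Finset.single_le_sum (f := fun p => ∑ i : Fin w, ‖Φ.1 (σ p) i‖)
        (fun _ _ => Finset.sum_nonneg fun _ _ => norm_nonneg _) (Finset.mem_univ p))
  have hb : ∀ x i, ‖Φ.1 x i‖ ≤ C := by
    intro x i
    rw [hval x]
    have h1 := norm_mulVec_le zero_le_one (hρ.norm_le (x⁻¹ * σ (𝒬.q t x))) hC0 (hC (𝒬.q t x)) i
    rwa [one_mul] at h1
  refine ⟨⟨C, hC0, fun x => hb x j⟩, ?_, fun ε hε => ?_⟩
  · obtain ⟨L, hL, hLρ⟩ := hρ.field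
    set S : Set (PadicAlgCl ℓ) := Set.range fun p : 𝒯.P t × Fin w => Φ.1 (σ p.1) p.2 with hS
    have hfin : FiniteDimensional ℚ_[ℓ] (IntermediateField.adjoin ℚ_[ℓ] S) :=
      IntermediateField.finiteDimensional_adjoin fun x _ => Algebra.IsIntegral.isIntegral x
    refine ⟨L ⊔ IntermediateField.adjoin ℚ_[ℓ] S, inferInstance, fun x => ?_⟩
    change Φ.1 x j ∈ _
    rw [hval x, Matrix.mulVec, dotProduct]
    refine sum_mem fun i _ => mul_mem ((le_sup_left : L ≤ _) (hLρ _ _ _)) ((le_sup_right : _ ≤ L ⊔ _) ?_)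
    exact IntermediateField.subset_adjoin ℚ_[ℓ] S ⟨(𝒬.q t x, i), rfl⟩
  · obtain ⟨s, hs⟩ := hρ.cont (ε / (C + 1)) (by positivity)
    refine ⟨max s t, fun g hg x => ?_⟩
    have h1 : x⁻¹ * g * x ∈ J := ht _ (by
      rw [map_mul, map_mul, q_down 𝒬 (le_max_right s t) g hg, mul_one, map_inv, inv_mul_cancel])
    have h2 := Φ.2 x _ h1
    have h3 : x * (x⁻¹ * g * x) = g * x := by group
    rw [h3] at h2
    have h4 : 𝒬.q s (x⁻¹ * g * x)⁻¹ = 1 := by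
      rw [map_inv, map_mul, map_mul, q_down 𝒬 (le_max_left s t) g hg, mul_one, map_inv, inv_mul_cancel, inv_one]
    have h5 : Φ.1 (g * x) j - Φ.1 x j = ((ρ (x⁻¹ * g * x)⁻¹) - 1).mulVec (Φ.1 x) j := by
      rw [h2, Matrix.sub_mulVec, Matrix.one_mulVec]
      rfl
    rw [h5]
    have h6' : ∀ i i', ‖(ρ (x⁻¹ * g * x)⁻¹ - 1) i i'‖ ≤ ε / (C + 1) := by
      intro i i'
      rw [Matrix.sub_apply]
      exact hs _ h4 i i'
    have h6 := norm_mulVec_le (show (0 : ℝ) ≤ ε / (C + 1) by positivity) h6' hC0 (hb x) j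
    refine h6.trans ?_
    calc ε / (C + 1) * C ≤ ε / (C + 1) * (C + 1) := mul_le_mul_of_nonneg_left (by linarith) (by positivity)
      _ = ε := by field_simp

/-- The coordinates. -/
noncomputable def coW {𝒬 : QTow 𝒯 G} {J : Subgroup G} (hJ : ∃ s, ∀ x, 𝒬.q s x = 1 → x ∈ J) {w : ℕ}
    {ρ : G →* Matrix (Fin w) (Fin w) (PadicAlgCl ℓ)} (hρ : IsSmall 𝒬 ρ) (j : Fin w) :
    WI J ρ →ₗ[PadicAlgCl ℓ] Ucf 𝒬 where
  toFun Φ := ⟨fun x => Φ.1 x j, ucf_coord hJ hρ Φ j⟩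
  map_add' _ _ := rfl
  map_smul' _ _ := rfl

theorem isLm_rtr {𝒬 : QTow 𝒯 G} {a : 𝒯.La} {φ ψ : G → PadicAlgCl ℓ} (k : G) (h : IsLm 𝒬 a φ ψ) :
    IsLm 𝒬 a (fun x => φ (x * k)) (fun x => ψ (x * k)) := by
  intro ε hε
  obtain ⟨s, hs⟩ := h ε hε
  refine ⟨s, fun c hc x => ?_⟩
  have h1 : tr ℓ G c (fun x => φ (x * k)) x = tr ℓ G c φ (x * k) := by
    rw [tr_apply, tr_apply]
    refine Finsupp.sum_congr fun g _ => ?_
    rw [mul_assoc]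
  rw [h1]
  exact hs c hc (x * k)

theorem exists_uact (𝒬 : QTow 𝒯 G) (J : Subgroup G) (hJ : ∃ s, ∀ x, 𝒬.q s x = 1 → x ∈ J) {w : ℕ}
    (ρ : G →* Matrix (Fin w) (Fin w) (PadicAlgCl ℓ)) (hρ : IsSmall 𝒬 ρ) :
    ∃ act : 𝒯.La →+* Module.End (PadicAlgCl ℓ) (WI J ρ),
      ∀ a Φ x j, (act a Φ).1 x j = (uact 𝒬 a (coW hJ hρ j Φ)).1 x := by
  have hmem : ∀ (a : 𝒯.La) (Φ : WI J ρ), (fun x j => (uact 𝒬 a (coW hJ hρ j Φ)).1 x) ∈ WI J ρ := by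
    intro a Φ x k hk
    funext j
    change (uact 𝒬 a (coW hJ hρ j Φ)).1 (x * k) = (ρ k⁻¹).mulVec (fun j => (uact 𝒬 a (coW hJ hρ j Φ)).1 x) j
    have h1 := isLm_rtr k (isLm_uact 𝒬 a (coW hJ hρ j Φ))
    have h2 : (fun x => (coW hJ hρ j Φ).1 (x * k)) = (∑ i, ρ k⁻¹ j i • coW hJ hρ i Φ : Ucf 𝒬).1 := by
      funext x
      change Φ.1 (x * k) j = _
      rw [Φ.2 x k hk, Matrix.mulVec, dotProduct, Submodule.coe_sum, Finset.sum_apply]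
      rfl
    rw [h2] at h1
    have h3 := congrFun (h1.unique (isLm_uact 𝒬 a (∑ i, ρ k⁻¹ j i • coW hJ hρ i Φ))) x
    change (uact 𝒬 a (coW hJ hρ j Φ)).1 (x * k) = _ at h3
    rw [h3, map_sum, Submodule.coe_sum, Finset.sum_apply, Matrix.mulVec, dotProduct]
    refine Finset.sum_congr rfl fun i _ => ?_
    rw [map_smul]
    rfl
  refine ⟨{
    toFun := fun a =>
      { toFun := fun Φ => ⟨fun x j => (uact 𝒬 a (coW hJ hρ j Φ)).1 x, hmem a Φ⟩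
        map_add' := fun Φ Φ' => Subtype.ext (funext fun x => funext fun j => by
          change (uact 𝒬 a (coW hJ hρ j (Φ + Φ'))).1 x = _
          rw [map_add, map_add]
          rfl)
        map_smul' := fun z Φ => Subtype.ext (funext fun x => funext fun j => by
          change (uact 𝒬 a (coW hJ hρ j (z • Φ))).1 x = _
          rw [map_smul, map_smul]
          rfl) }
    map_one' := LinearMap.ext fun Φ => Subtype.ext (funext fun x => funext fun j => by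
      change (uact 𝒬 1 (coW hJ hρ j Φ)).1 x = _
      rw [map_one]
      rfl)
    map_mul' := fun a b => LinearMap.ext fun Φ => Subtype.ext (funext fun x => funext fun j => by
      change (uact 𝒬 (a * b) (coW hJ hρ j Φ)).1 x = _
      rw [map_mul]
      rfl)
    map_zero' := LinearMap.ext fun Φ => Subtype.ext (funext fun x => funext fun j => by
      change (uact 𝒬 0 (coW hJ hρ j Φ)).1 x = _
      rw [map_zero]
      rfl)
    map_add' := fun a b => LinearMap.ext fun Φ => Subtype.ext (funext fun x => funext fun j => by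
      change (uact 𝒬 (a + b) (coW hJ hρ j Φ)).1 x = _
      rw [map_add]
      rfl) }, fun a Φ x j => rfl⟩

theorem small_uact (𝒬 : QTow 𝒯 G) (φ : Ucf 𝒬) {ε : ℝ} (hε : 0 < ε) :
    ∃ s, ∀ a : 𝒯.La, 𝒯.la.pi s a = 0 → ∀ x, ‖(uact 𝒬 a φ).1 x‖ ≤ ε := by
  obtain ⟨s, hs⟩ := tr_small 𝒬 φ.2 hε
  refine ⟨s, fun a ha x => ?_⟩
  obtain ⟨t, ht⟩ := isLm_uact 𝒬 a φ ε hε
  obtain ⟨c, hc⟩ := pj_surj 𝒬 (max s t) (𝒯.la.pi (max s t) a)
  have h1 := hs c (by rw [pj_down 𝒬 (le_max_left s t) a c hc, ha]) x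
  have h2 := ht c (pj_down 𝒬 (le_max_right s t) a c hc) x
  have h3 : (uact 𝒬 a φ).1 x = tr ℓ G c φ.1 x + -(tr ℓ G c φ.1 x - (uact 𝒬 a φ).1 x) := by ring
  rw [h3]
  refine (IsUltrametricDist.norm_add_le_max _ _).trans (max_le h1 ?_)
  rwa [norm_neg]

theorem exists_act' (𝒬 : QTow 𝒯 G) (J : Subgroup G) (hJ : ∃ s, ∀ x, 𝒬.q s x = 1 → x ∈ J) {w : ℕ}
    (ρ : G →* Matrix (Fin w) (Fin w) (PadicAlgCl ℓ)) (hρ : IsSmall 𝒬 ρ) : ∃ act, IsAct 𝒬 J ρ act := by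
  obtain ⟨act, hact⟩ := exists_uact 𝒬 J hJ ρ hρ
  refine ⟨act, fun g Φ x => ?_, fun z Φ => ?_, fun Φ ε hε => ?_⟩
  · funext j
    rw [hact]
    exact congrFun ((isLm_uact 𝒬 _ (coW hJ hρ j Φ)).unique (isLm_gr g (coW hJ hρ j Φ).2)) x
  · refine Subtype.ext (funext fun x => funext fun j => ?_)
    rw [hact]
    exact congrFun ((isLm_uact 𝒬 _ (coW hJ hρ j Φ)).unique (isLm_zl z (coW hJ hρ j Φ).2)) x
  · have h1 : ∀ j : Fin w, ∃ s, ∀ a : 𝒯.La, 𝒯.la.pi s a = 0 → ∀ x, ‖(uact 𝒬 a (coW hJ hρ j Φ)).1 x‖ ≤ ε :=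
      fun j => small_uact 𝒬 (coW hJ hρ j Φ) hε
    choose s hs using h1
    refine ⟨Finset.univ.sup s, fun a ha x j => ?_⟩
    rw [hact]
    refine hs j a ?_ x
    have h2 := la_down (Finset.le_sup (f := s) (Finset.mem_univ j)) a 0 (by rw [ha, map_zero])
    rw [h2, map_zero]

end Pool.Agent.Lib.MP_666dc0_nt.FM
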