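import Pool.Agent.Lib.MP_666dc0_nt.FM.A
import Pool.Agent.Lib.MP_666dc0_nt.FM.B1c
import Pool.Agent.Lib.MP_666dc0_nt.Mg.G074
import Pool.Agent.Lib.MP_666dc0_nt.Mg.G076

/-!
# The rank of a non-zero element of the completed group ring
-/

namespace Pool.Agent.Lib.MP_666dc0_nt.FM

open ZO

variable {ℓ d : ℕ} [Fact ℓ.Prime] {𝒯 : UTow ℓ d} {G : Type} [Group G]

/-- The group ring maps to the completed group ring. -/
noncomputable def toLa (𝒬 : QTow 𝒯 G) : MonoidAlgebra ℤ G →+* 𝒯.La :=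
  (MonoidAlgebra.lift ℤ 𝒯.La G 𝒬.gr).toRingHom

theorem pi_toLa (𝒬 : QTow 𝒯 G) (s : ℕ) (c : MonoidAlgebra ℤ G) : 𝒯.la.pi s (toLa 𝒬 c) = pj 𝒬 s c := by
  induction c using MonoidAlgebra.induction_linear with
  | zero => simp only [map_zero]
  | add f g hf hg => simp only [map_add, hf, hg]
  | single g n =>
    rw [pj_single]
    change 𝒯.la.pi s (MonoidAlgebra.lift ℤ 𝒯.La G 𝒬.gr (MonoidAlgebra.single g n)) = _
    rw [MonoidAlgebra.lift_single, map_zsmul]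
    change n • (MonoidAlgebra.single (𝒬.q s g) 1 : MonoidAlgebra (ZMod (ℓ ^ (s + 1))) (𝒯.P s)) = _
    have h : (n : ZMod (ℓ ^ (s + 1))) = n • (1 : ZMod (ℓ ^ (s + 1))) := by rw [zsmul_one]
    rw [h]
    exact (MonoidAlgebra.smul_single n (𝒬.q s g) (1 : ZMod (ℓ ^ (s + 1))))

theorem act_toLa {𝒬 : QTow 𝒯 G} {J : Subgroup G} {w : ℕ} {ρ : G →* Matrix (Fin w) (Fin w) (PadicAlgCl ℓ)}
    {act : 𝒯.La →+* Module.End (PadicAlgCl ℓ) (WI J ρ)} (h : IsAct 𝒬 J ρ act) (c : MonoidAlgebra ℤ G) (Φ : WI J ρ)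
    (x : G) (j : Fin w) : (act (toLa 𝒬 c) Φ).1 x j = tr ℓ G c (fun x => Φ.1 x j) x := by
  induction c using MonoidAlgebra.induction_linear with
  | zero =>
    simp only [map_zero]
    rfl
  | add f g hf hg =>
    rw [map_add, map_add, map_add, LinearMap.add_apply, LinearMap.add_apply, Pi.add_apply, ← hf, ← hg]
    rfl
  | single g n =>
    rw [tr_single]
    change (act (MonoidAlgebra.lift ℤ 𝒯.La G 𝒬.gr (MonoidAlgebra.single g n)) Φ).1 x j = _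
    rw [MonoidAlgebra.lift_single, map_zsmul]
    change n • ((act (𝒬.gr g) Φ).1 x j) = _
    rw [h.gr, zsmul_eq_mul]

theorem IsAct.isLm {𝒬 : QTow 𝒯 G} {J : Subgroup G} {w : ℕ} {ρ : G →* Matrix (Fin w) (Fin w) (PadicAlgCl ℓ)}
    {act : 𝒯.La →+* Module.End (PadicAlgCl ℓ) (WI J ρ)} (h : IsAct 𝒬 J ρ act) (a : 𝒯.La) (Φ : WI J ρ) (j : Fin w) :
    IsLm 𝒬 a (fun x => Φ.1 x j) (fun x => (act a Φ).1 x j) := by
  intro ε hε
  obtain ⟨s, hs⟩ := h.cont Φ ε hε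
  refine ⟨s, fun c hc x => ?_⟩
  have h1 := hs (toLa 𝒬 c - a) (by rw [map_sub, pi_toLa, hc, sub_self]) x j
  have h2 : (act (toLa 𝒬 c - a) Φ).1 x j = tr ℓ G c (fun x => Φ.1 x j) x - (act a Φ).1 x j := by
    rw [map_sub, ← act_toLa h]
    rfl
  rwa [h2] at h1

theorem app_intCast {k : Type} [Field k] (r : Red ℓ k) (n : ℤ) : r.app (n : PadicAlgCl ℓ) = (n : k) := by
  have h : ‖(n : PadicAlgCl ℓ)‖ ≤ 1 := norm_int_le n
  have h1 : r.app (n : PadicAlgCl ℓ) = r.hom ⟨(n : PadicAlgCl ℓ), h⟩ := by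
    unfold Red.app
    rw [dif_pos h]
  have h2 : (⟨(n : PadicAlgCl ℓ), h⟩ : OK ℓ) = (n : OK ℓ) := Subtype.ext (by
    simp)
  rw [h1, h2, map_intCast]

/-- The reduction to a field of characteristic `ℓ`. -/
noncomputable def redk (𝒯 : UTow ℓ d) (k : Type) [Field k] [CharP k ℓ] (t : ℕ) :
    𝒯.la.A t →+* MonoidAlgebra k (𝒯.P t) :=
  (MonoidAlgebra.mapRingHom (𝒯.P t) (ZMod.castHom (dvd_refl ℓ) k)).comp (𝒯.redf t)

/-- The reduction of an element of `ℤ[G]` and its projection. -/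
theorem map_pj {k : Type} [Field k] [CharP k ℓ] (𝒬 : QTow 𝒯 G) (t : ℕ) (c : MonoidAlgebra ℤ G) :
    redk 𝒯 k t (pj 𝒬 t c) =
      MonoidAlgebra.mapDomain (𝒬.q t) (MonoidAlgebra.mapRingHom G (Int.castRingHom k) c) := by
  induction c using MonoidAlgebra.induction_linear with
  | zero => simp only [map_zero, MonoidAlgebra.mapDomain_zero]
  | add f g hf hg => simp only [map_add, MonoidAlgebra.mapDomain_add, hf, hg]
  | single g n =>
    rw [pj_single]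
    change MonoidAlgebra.mapRingHom (𝒯.P t) (ZMod.castHom (dvd_refl ℓ) k) (MonoidAlgebra.mapRingHom (𝒯.P t) _
      (MonoidAlgebra.single (𝒬.q t g) (n : ZMod (ℓ ^ (t + 1))))) = _
    rw [MonoidAlgebra.mapRingHom_single, MonoidAlgebra.mapRingHom_single, MonoidAlgebra.mapRingHom_single,
      MonoidAlgebra.mapDomain_single, map_intCast, map_intCast]
    rfl

theorem rank_act_red (𝒬 : QTow 𝒯 G) {k : Type} [Field k] (r : Red ℓ k) [CharP k ℓ] (b : 𝒯.La) {J : Subgroup G}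
    [J.FiniteIndex] {t : ℕ} (hJ : ∀ x, 𝒬.q t x = 1 → x ∈ J) {w : ℕ}
    {ρ : G →* Matrix (Fin w) (Fin w) (PadicAlgCl ℓ)} (hρ : IsSmall 𝒬 ρ)
    {act : 𝒯.La →+* Module.End (PadicAlgCl ℓ) (WI J ρ)} (hact : IsAct 𝒬 J ρ act) {c : MonoidAlgebra ℤ G}
    (hc : pj 𝒬 t c = 𝒯.la.pi t b) (h : ((G ⧸ J) → k) →ₗ[k] ((G ⧸ J) → k))
    (hh : ∀ f y, h f y = (MonoidAlgebra.mapRingHom G (Int.castRingHom k) c).coeff.sum fun g a => a * f (g⁻¹ • y)) :
    w * Module.finrank k (LinearMap.range h) ≤ Module.finrank (PadicAlgCl ℓ) (LinearMap.range (act b)) := by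
  have hl : (ℓ : ℝ)⁻¹ < 1 := inv_lt_one_of_one_lt₀ (by exact_mod_cast (Fact.out : ℓ.Prime).one_lt)
  have hl0 : (0 : ℝ) ≤ (ℓ : ℝ)⁻¹ := by positivity
  refine rank_red r ρ hρ.close J (act b) h fun Φ hΦ => ?_
  -- `Φ (x k)` is congruent to `Φ x`
  have hcong : ∀ x, ∀ k ∈ J, ∀ j, ‖Φ.1 (x * k) j - Φ.1 x j‖ ≤ (ℓ : ℝ)⁻¹ := by
    intro x k hk j
    have h1 : Φ.1 (x * k) j - Φ.1 x j = (ρ k⁻¹ - 1).mulVec (Φ.1 x) j := by
      rw [Φ.2 x k hk, Matrix.sub_mulVec, Matrix.one_mulVec]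
      rfl
    have h2 : ∀ i i', ‖(ρ k⁻¹ - 1) i i'‖ ≤ (ℓ : ℝ)⁻¹ := by
      intro i i'
      rw [Matrix.sub_apply]
      exact hρ.close _ i i'
    rw [h1]
    have h3 := norm_mulVec_le hl0 h2 zero_le_one (hΦ x) j
    rwa [mul_one] at h3
  have happ : ∀ (x : G) (k : G), k ∈ J → ∀ j, r.app (Φ.1 (x * k) j) = r.app (Φ.1 x j) := fun x k hk j =>
    r.app_eq (hΦ _ j) (lt_of_le_of_lt (hcong x k hk j) hl)
  -- the operator is congruent to the one of `c`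
  have hclose : ∀ x j, ‖(act b Φ).1 x j - tr ℓ G c (fun x => Φ.1 x j) x‖ < 1 := by
    intro x j
    obtain ⟨s, hs⟩ := hact.isLm b Φ j (ℓ : ℝ)⁻¹ (by
      have : (0 : ℝ) < (ℓ : ℝ) := by exact_mod_cast (Fact.out : ℓ.Prime).pos
      positivity)
    obtain ⟨c', hc'⟩ := pj_surj 𝒬 (max s t) (𝒯.la.pi (max s t) b)
    have h1 := hs c' (pj_down 𝒬 (le_max_left s t) b c' hc') x
    have h2 : pj 𝒬 t (c' - c) = 0 := by
      rw [map_sub, pj_down 𝒬 (le_max_right s t) b c' hc', hc, sub_self]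
    have h3 := norm_tr_small 𝒬 h2 (φ := fun x => Φ.1 x j) zero_le_one (fun x => hΦ x j) hl0 (fun g hg x => by
      have h4 : g * x = x * (x⁻¹ * g * x) := by group
      rw [h4]
      refine hcong x _ (hJ _ ?_) j
      rw [map_mul, map_mul, hg, mul_one, map_inv, inv_mul_cancel]) x
    have h5 : (act b Φ).1 x j - tr ℓ G c (fun x => Φ.1 x j) x =
        -(tr ℓ G c' (fun x => Φ.1 x j) x - (act b Φ).1 x j) + tr ℓ G (c' - c) (fun x => Φ.1 x j) x := by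
      rw [map_sub, LinearMap.sub_apply, Pi.sub_apply]
      ring
    rw [h5]
    refine lt_of_le_of_lt ((IsUltrametricDist.norm_add_le_max _ _).trans (max_le ?_ (h3.trans (max_le le_rfl ?_)))) hl
    · rw [norm_neg]
      exact h1
    · rw [mul_one]
      calc (ℓ : ℝ)⁻¹ ^ (t + 1) ≤ (ℓ : ℝ)⁻¹ ^ 1 := pow_le_pow_of_le_one hl0 hl.le (Nat.le_add_left 1 t)
        _ = (ℓ : ℝ)⁻¹ := pow_one _
  have hint : ∀ x j, ‖tr ℓ G c (fun x => Φ.1 x j) x‖ ≤ 1 := fun x j =>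
    norm_tr_le c zero_le_one (fun x => hΦ x j) x
  have hint' : ∀ x j, ‖(act b Φ).1 x j‖ ≤ 1 := by
    intro x j
    have h1 : (act b Φ).1 x j = ((act b Φ).1 x j - tr ℓ G c (fun x => Φ.1 x j) x) +
      tr ℓ G c (fun x => Φ.1 x j) x := by ring
    rw [h1]
    exact (IsUltrametricDist.norm_add_le_max _ _).trans (max_le (hclose x j).le (hint x j))
  refine ⟨hint', fun x j => ?_⟩
  rw [r.app_eq (hint' x j) (hclose x j), tr_apply, Finsupp.sum, r.app_sum, hh]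
  · have h1 : (MonoidAlgebra.mapRingHom G (Int.castRingHom k) c).coeff.sum
        (fun g a => a * r.app (Φ.1 (Quotient.out (g⁻¹ • (QuotientGroup.mk x : G ⧸ J))) j)) =
        c.coeff.sum fun g n => (n : k) * r.app (Φ.1 (Quotient.out (g⁻¹ • (QuotientGroup.mk x : G ⧸ J))) j) := by
      change (Finsupp.mapRange (Int.castRingHom k) (map_zero _) c.coeff).sum _ = _
      rw [Finsupp.sum_mapRange_index]
      · rfl
      · intro g
        rw [zero_mul]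
    rw [h1, Finsupp.sum]
    refine Finset.sum_congr rfl fun g _ => ?_
    rw [r.app_mul (norm_int_le _) (hΦ _ j), app_intCast]
    congr 1
    obtain ⟨u, hu⟩ := QuotientGroup.mk_out_eq_mul J (g⁻¹ * x)
    change _ = r.app (Φ.1 (Quotient.out ((QuotientGroup.mk (g⁻¹ * x) : G ⧸ J))) j)
    rw [hu]
    exact (happ (g⁻¹ * x) u u.2 j).symm
  · intro g _
    rw [norm_mul]
    exact mul_le_one₀ (norm_int_le _) (norm_nonneg _) (hΦ _ j)

theorem rank_act' (𝒬 : QTow 𝒯 G) (a : 𝒯.La) (ha : a ≠ 0) : ∃ C : ℝ, ∀ (s : ℕ) (J : Subgroup G),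
    (∃ s, ∀ x, 𝒬.q s x = 1 → x ∈ J) → (∀ x ∈ J, 𝒬.q s x = 1) →
    ∀ (w : ℕ) (ρ : G →* Matrix (Fin w) (Fin w) (PadicAlgCl ℓ)), IsSmall 𝒬 ρ → ∀ act, IsAct 𝒬 J ρ act →
    (1 - C / (ℓ : ℝ) ^ s) * (Module.finrank (PadicAlgCl ℓ) (WI J ρ) : ℝ) ≤
      (Module.finrank (PadicAlgCl ℓ) (LinearMap.range (act a)) : ℝ) := by
  obtain ⟨m, b, hab, hb⟩ := 𝒯.exists_pow_mul a ha
  obtain ⟨k, hk, ⟨r⟩⟩ := exists_red ℓ
  have hchar : CharP k ℓ := r.charP
  set bk : ∀ s, MonoidAlgebra k (𝒯.P s) := fun s =>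
    redk 𝒯 k s (𝒯.la.pi s b) with hbk
  obtain ⟨s₀, hs₀⟩ : ∃ s₀, bk s₀ ≠ 0 := by
    by_contra hcon
    push Not at hcon
    refine hb ((𝒯.om (ZMod ℓ)).ext fun s => ?_)
    rw [map_zero, UTow.pi_red]
    have h1 := hcon s
    refine MonoidAlgebra.map_injective (ZMod.castHom (dvd_refl ℓ) k : ZMod ℓ →+ k)
      (ZMod.castHom (dvd_refl ℓ) k).injective ?_
    change MonoidAlgebra.mapRingHom (𝒯.P s) (ZMod.castHom (dvd_refl ℓ) k) (𝒯.redf s (𝒯.la.pi s b)) =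
      MonoidAlgebra.mapRingHom (𝒯.P s) (ZMod.castHom (dvd_refl ℓ) k) 0
    rw [map_zero]
    exact h1
  have hcompat : ∀ s, MonoidAlgebra.mapDomain (𝒯.pr s) (bk (s + 1)) = bk s := by
    intro s
    obtain ⟨c, hc⟩ := pj_surj 𝒬 (s + 1) (𝒯.la.pi (s + 1) b)
    have hc' := pj_down 𝒬 (Nat.le_succ s) b c hc
    simp only [hbk]
    rw [← hc, ← hc', map_pj, map_pj]
    change MonoidAlgebra.ofCoeff (Finsupp.mapDomain _ (Finsupp.mapDomain _ _)) = MonoidAlgebra.ofCoeff _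
    rw [← Finsupp.mapDomain_comp]
    congr 2
    funext x
    exact 𝒬.compat s x
  obtain ⟨C, hC⟩ := rank_quot k G 𝒯.P 𝒯.pr 𝒬.q 𝒬.surj 𝒬.compat (fun s => ⟨𝒯.g s, 𝒯.ug s⟩) bk hcompat s₀ hs₀
  refine ⟨C, fun s J hJ hJs w ρ hρ act hact => ?_⟩
  obtain ⟨t₀, ht₀⟩ := hJ
  set t := max s t₀ with ht
  have hJt : ∀ x, 𝒬.q t x = 1 → x ∈ J := fun x hx => ht₀ x (q_down 𝒬 (le_max_right s t₀) x hx)
  have hker : (𝒬.q t).ker ≤ J := fun x hx => hJt x hx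
  have hfi : J.FiniteIndex := Subgroup.finiteIndex_of_le hker
  obtain ⟨c, hc⟩ := pj_surj 𝒬 t (𝒯.la.pi t b)
  -- the operator on functions on `G ⧸ J`
  let h : ((G ⧸ J) → k) →ₗ[k] ((G ⧸ J) → k) :=
    { toFun := fun f y => (MonoidAlgebra.mapRingHom G (Int.castRingHom k) c).coeff.sum fun g a => a * f (g⁻¹ • y)
      map_add' := fun f f' => by
        funext y
        rw [Pi.add_apply, ← Finsupp.sum_add]
        refine Finsupp.sum_congr fun g _ => ?_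
        rw [Pi.add_apply, mul_add]
      map_smul' := fun z f => by
        funext y
        rw [RingHom.id_apply, Pi.smul_apply, smul_eq_mul, Finsupp.mul_sum]
        refine Finsupp.sum_congr fun g _ => ?_
        rw [Pi.smul_apply, smul_eq_mul]
        ring }
  have h1 := hC s t J (le_max_left s t₀) (fun x hx => hJs x hx) hker
    (MonoidAlgebra.mapRingHom G (Int.castRingHom k) c) (by rw [← map_pj, hc]) h (fun f y => rfl)
  have h2 := rank_act_red 𝒬 r b hJt hρ hact hc h (fun f y => rfl)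
  have h3 : LinearMap.range (act a) = LinearMap.range (act b) := by
    have hz : ((ℓ : PadicAlgCl ℓ) ^ m) ≠ 0 := pow_ne_zero _ (by exact_mod_cast (Fact.out : ℓ.Prime).ne_zero)
    have h4 : ∀ Φ, act a Φ = ((ℓ : PadicAlgCl ℓ) ^ m) • act b Φ := by
      intro Φ
      rw [hab, map_mul, map_pow, map_natCast, Module.End.mul_apply]
      have h5 : ((ℓ : Module.End (PadicAlgCl ℓ) (WI J ρ)) ^ m) = ((ℓ : PadicAlgCl ℓ) ^ m) • 1 := by
        rw [← Nat.cast_pow, ← Nat.cast_pow, ← nsmul_one, ← Nat.cast_smul_eq_nsmul (PadicAlgCl ℓ)]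
      rw [h5]
      rfl
    refine le_antisymm ?_ ?_
    · rintro _ ⟨Φ, rfl⟩
      rw [h4]
      exact Submodule.smul_mem _ _ ⟨Φ, rfl⟩
    · rintro _ ⟨Φ, rfl⟩
      refine ⟨((ℓ : PadicAlgCl ℓ) ^ m)⁻¹ • Φ, ?_⟩
      rw [h4, map_smul, smul_smul, mul_inv_cancel₀ hz, one_smul]
  rw [h3, (finrank_WI' ρ J).2]
  have h4 : ((J.index * w : ℕ) : ℝ) = (Nat.card (G ⧸ J) : ℝ) * (w : ℝ) := by
    rw [Nat.cast_mul]
    rfl
  rw [h4, ← mul_assoc]
  calc _ ≤ (Module.finrank k (LinearMap.range h) : ℝ) * (w : ℝ) :=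
        mul_le_mul_of_nonneg_right h1 (Nat.cast_nonneg _)
    _ = ((w * Module.finrank k (LinearMap.range h) : ℕ) : ℝ) := by rw [Nat.cast_mul, mul_comm]
    _ ≤ _ := by exact_mod_cast h2

end Pool.Agent.Lib.MP_666dc0_nt.FM
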