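import Pool.Agent.Lib.MP_666dc0_nt.FM.MDefs

/-!
# FM, E1: eigenspaces of the ring `T`
-/

namespace Pool.Agent.Lib.MP_666dc0_nt.FM

section MFam

variable {Λ : Type} [Ring Λ] {Ω : Type} [Field Ω] {ℓ : ℕ} (𝒲 : MFam Λ Ω ℓ) (i : 𝒲.ix) {κ κ' κ'' : Type}

theorem MFam.mact_mul [Fintype κ'] [Fintype κ''] (X : Matrix κ κ' Λ) (Y : Matrix κ' κ'' Λ) (w : κ'' → 𝒲.W i) :
    𝒲.mact i (X * Y) w = 𝒲.mact i X (𝒲.mact i Y w) := by
  funext p
  simp only [MFam.mact_apply, Matrix.mul_apply, map_sum, LinearMap.sum_apply, map_mul, Module.End.mul_apply]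
  rw [Finset.sum_comm]

theorem MFam.mact_add [Fintype κ'] (X Y : Matrix κ κ' Λ) (w : κ' → 𝒲.W i) :
    𝒲.mact i (X + Y) w = 𝒲.mact i X w + 𝒲.mact i Y w := by
  funext p
  simp only [MFam.mact_apply, Matrix.add_apply, map_add, LinearMap.add_apply, Finset.sum_add_distrib, Pi.add_apply]

theorem MFam.mact_zero [Fintype κ'] (w : κ' → 𝒲.W i) : 𝒲.mact i (0 : Matrix κ κ' Λ) w = 0 := by
  funext p
  simp only [MFam.mact_apply, Matrix.zero_apply, map_zero, LinearMap.zero_apply, Finset.sum_const_zero, Pi.zero_apply]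

theorem MFam.mact_one [Fintype κ] [DecidableEq κ] (w : κ → 𝒲.W i) : 𝒲.mact i (1 : Matrix κ κ Λ) w = w := by
  funext p
  rw [MFam.mact_apply, Finset.sum_eq_single p]
  · rw [Matrix.one_apply_eq, map_one, Module.End.one_apply]
  · intro q _ hq
    rw [Matrix.one_apply_ne (Ne.symm hq), map_zero, LinearMap.zero_apply]
  · intro h
    exact absurd (Finset.mem_univ p) h

end MFam

variable {Ω : Type} [Field Ω] {ℓ : ℕ} {X : Type} (𝒜 : AFam Ω ℓ X)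

theorem AFam.mem_eig {i : 𝒜.fam.ix} {x : X} {w : 𝒜.R → 𝒜.fam.W i} :
    w ∈ 𝒜.eig i x ↔ ∀ t, 𝒜.fam.mact i (𝒜.m t) w = 𝒜.χ x t • w := Iff.rfl

/-- The operator given by an element of `T`. -/
private noncomputable def gop (i : 𝒜.fam.ix) (t : 𝒜.T) : Module.End Ω (𝒜.R → 𝒜.fam.W i) := 𝒜.fam.mact i (𝒜.m t)

/-- The eigenspaces for arbitrary functions on `T`. -/
private noncomputable def geig (i : 𝒜.fam.ix) (χ : 𝒜.T → Ω) : Submodule Ω (𝒜.R → 𝒜.fam.W i) :=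
  ⨅ t, Module.End.maxGenEigenspace (gop 𝒜 i t) (χ t)

private theorem eig_le_geig (i : 𝒜.fam.ix) (x : X) : 𝒜.eig i x ≤ geig 𝒜 i (𝒜.χ x) := by
  intro w hw
  refine (Submodule.mem_iInf _).2 fun t => ?_
  rw [Module.End.mem_maxGenEigenspace]
  refine ⟨1, ?_⟩
  rw [pow_one, LinearMap.sub_apply, LinearMap.smul_apply, Module.End.one_apply]
  exact sub_eq_zero.2 (hw t)

private theorem geig_indep (i : 𝒜.fam.ix) : iSupIndep (geig 𝒜 i) := by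
  have hcomm : ∀ t u, gop 𝒜 i t * gop 𝒜 i u = gop 𝒜 i u * gop 𝒜 i t := by
    intro t u
    refine LinearMap.ext fun w => ?_
    rw [Module.End.mul_apply, Module.End.mul_apply]
    unfold gop
    rw [← MFam.mact_mul, ← MFam.mact_mul, ← map_mul, ← map_mul, mul_comm]
  exact Module.End.independent_iInf_maxGenEigenspace_of_forall_mapsTo (gop 𝒜 i) fun t u φ =>
    Module.End.mapsTo_maxGenEigenspace_of_comm (hcomm u t) φ

/-- The span of the eigenvectors in `p`. -/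
noncomputable def AFam.sp (𝒜 : AFam Ω ℓ X) (i : 𝒜.fam.ix) (p : Set X) : Submodule Ω (𝒜.R → 𝒜.fam.W i) :=
  ⨆ x ∈ p, 𝒜.eig i x

theorem AFam.sp_mono (i : 𝒜.fam.ix) {p q : Set X} (h : p ⊆ q) : 𝒜.sp i p ≤ 𝒜.sp i q :=
  biSup_mono h

theorem AFam.sp_union (i : 𝒜.fam.ix) (p q : Set X) : 𝒜.sp i (p ∪ q) = 𝒜.sp i p ⊔ 𝒜.sp i q := by
  unfold AFam.sp
  rw [iSup_union]

private theorem sp_le (i : 𝒜.fam.ix) (p : Set X) : 𝒜.sp i p ≤ ⨆ χ ∈ (fun x => (𝒜.χ x : 𝒜.T → Ω)) '' p, geig 𝒜 i χ := by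
  unfold AFam.sp
  refine iSup₂_le fun x hx => ?_
  exact (eig_le_geig 𝒜 i x).trans (le_biSup (geig 𝒜 i) (Set.mem_image_of_mem _ hx))

theorem AFam.sp_disjoint (i : 𝒜.fam.ix) {p q : Set X} (h : ∀ x ∈ p, ∀ y ∈ q, 𝒜.χ x ≠ 𝒜.χ y) :
    Disjoint (𝒜.sp i p) (𝒜.sp i q) := by
  refine Disjoint.mono (sp_le 𝒜 i p) (sp_le 𝒜 i q) ((geig_indep 𝒜 i).disjoint_biSup_biSup ?_)
  rw [Set.disjoint_left]
  rintro _ ⟨x, hx, rfl⟩ ⟨y, hy, hxy⟩
  exact h x hx y hy (RingHom.ext fun t => (congrFun hxy t).symm)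

/-- The dimension of the span of the eigenvectors in `p`. -/
noncomputable def AFam.N (𝒜 : AFam Ω ℓ X) (i : 𝒜.fam.ix) (p : Set X) : ℕ := Module.finrank Ω (𝒜.sp i p)

theorem AFam.N_union (i : 𝒜.fam.ix) {p q : Set X} (h : ∀ x ∈ p, ∀ y ∈ q, 𝒜.χ x ≠ 𝒜.χ y) :
    𝒜.N i (p ∪ q) = 𝒜.N i p + 𝒜.N i q := by
  unfold AFam.N
  rw [𝒜.sp_union, ← Submodule.finrank_sup_add_finrank_inf_eq, (𝒜.sp_disjoint i h).eq_bot, finrank_bot, add_zero]

theorem AFam.N_mono (i : 𝒜.fam.ix) {p q : Set X} (h : p ⊆ q) : 𝒜.N i p ≤ 𝒜.N i q :=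
  Submodule.finrank_mono (𝒜.sp_mono i h)

theorem AFam.N_empty (i : 𝒜.fam.ix) : 𝒜.N i ∅ = 0 := by
  unfold AFam.N AFam.sp
  rw [iSup_emptyset, finrank_bot]

theorem AFam.N_univ (h : 𝒜.Good) (i : 𝒜.fam.ix) :
    𝒜.N i Set.univ = Fintype.card 𝒜.R * Module.finrank Ω (𝒜.fam.W i) := by
  unfold AFam.N AFam.sp
  rw [iSup_univ, h.span i, finrank_top, Module.finrank_pi_fintype, Finset.sum_const, Finset.card_univ, smul_eq_mul]

theorem AFam.range_le (h : 𝒜.Good) (i : 𝒜.fam.ix) (u : 𝒜.T) :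
    LinearMap.range (𝒜.fam.mact i (𝒜.m u)) ≤ LinearMap.range (𝒜.fam.mact i (𝒜.m (u ^ 2))) := by
  rintro _ ⟨w, rfl⟩
  have hw : w ∈ ⨆ x, 𝒜.eig i x := by
    rw [h.span i]
    exact Submodule.mem_top
  refine Submodule.iSup_induction (𝒜.eig i) (motive := fun w => 𝒜.fam.mact i (𝒜.m u) w ∈
    LinearMap.range (𝒜.fam.mact i (𝒜.m (u ^ 2)))) hw ?_ ?_ ?_
  · intro x w hx
    rw [hx u]
    rcases eq_or_ne (𝒜.χ x u) 0 with h0 | h0
    · rw [h0, zero_smul]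
      exact Submodule.zero_mem _
    · refine ⟨(𝒜.χ x u)⁻¹ • w, ?_⟩
      rw [map_smul, hx (u ^ 2), smul_smul, map_pow, sq, ← mul_assoc, inv_mul_cancel₀ h0, one_mul]
  · rw [map_zero]
    exact Submodule.zero_mem _
  · intro a b ha hb
    rw [map_add]
    exact Submodule.add_mem _ ha hb

theorem AFam.iSup_range (h : 𝒜.Good) (i : 𝒜.fam.ix) (I : Ideal 𝒜.T) :
    (⨆ t ∈ I, LinearMap.range (𝒜.fam.mact i (𝒜.m t)) : Submodule Ω (𝒜.R → 𝒜.fam.W i)) =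
      𝒜.sp i {x | ∃ t ∈ I, 𝒜.χ x t ≠ 0} := by
  apply le_antisymm
  · refine iSup₂_le fun t ht => ?_
    rintro _ ⟨w, rfl⟩
    have hw : w ∈ ⨆ x, 𝒜.eig i x := by
      rw [h.span i]
      exact Submodule.mem_top
    refine Submodule.iSup_induction (𝒜.eig i) (motive := fun w => 𝒜.fam.mact i (𝒜.m t) w ∈
      𝒜.sp i {x | ∃ t ∈ I, 𝒜.χ x t ≠ 0}) hw ?_ ?_ ?_
    · intro x w hx
      rw [hx t]
      rcases eq_or_ne (𝒜.χ x t) 0 with h0 | h0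
      · rw [h0, zero_smul]
        exact Submodule.zero_mem _
      · have h1 : 𝒜.eig i x ≤ 𝒜.sp i {x | ∃ t ∈ I, 𝒜.χ x t ≠ 0} :=
          le_biSup (𝒜.eig i) (show x ∈ {x | ∃ t ∈ I, 𝒜.χ x t ≠ 0} from ⟨t, ht, h0⟩)
        exact Submodule.smul_mem _ _ (h1 hx)
    · rw [map_zero]
      exact Submodule.zero_mem _
    · intro a b ha hb
      rw [map_add]
      exact Submodule.add_mem _ ha hb
  · refine iSup₂_le fun x hx => ?_
    obtain ⟨t, ht, h0⟩ := hx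
    intro w hw
    have h1 : w ∈ LinearMap.range (𝒜.fam.mact i (𝒜.m t)) := by
      refine ⟨(𝒜.χ x t)⁻¹ • w, ?_⟩
      rw [map_smul, hw t, smul_smul, inv_mul_cancel₀ h0, one_smul]
    exact (le_biSup (fun t => LinearMap.range (𝒜.fam.mact i (𝒜.m t))) ht :
      LinearMap.range (𝒜.fam.mact i (𝒜.m t)) ≤ _) h1

end Pool.Agent.Lib.MP_666dc0_nt.FM
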