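import Pool.Agent.Lib.MP_666dc0_nt.FM.ODefs
import Pool.Agent.Lib.MP_666dc0_nt.FM.E1

/-!
# FM, C1: the rank of a matrix with independent rows

Unit vectors complete the rows of `φ(Z)` to a basis of `R → D` (`exists_linearIndependent_extension` or
Steinitz), i.e. `κ ⊕ κ' ≃ R` and `M = (Z; unit vectors)` has a left inverse `Y'` over `D` with `Y' φ(M) = 1`; a left
common denominator `δ ≠ 0` of its entries gives `Y` over `Λ` with `Y M = δ • 1` (a scalar matrix with `δ` on the
diagonal). `ker (mact M) ≤ ker (mact (Y M)) = {w | act δ (w q) = 0 ∀ q}` has dimension at most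
`card R * (C / ℓ ^ dep) dim W` by `𝒲.lower δ`; `rank (mact M) ≤ rank (mact Z) + card κ' dim W`.
`MFam.mact_mul` etc. are in `E1`.
-/

namespace Pool.Agent.Lib.MP_666dc0_nt.FM

/-- A basis which extends independent vectors. -/
private theorem C1_basis {D V κ : Type} [DivisionRing D] [AddCommGroup V] [Module D V] [FiniteDimensional D V]
    (z : κ → V) (hz : LinearIndependent D z) :
    ∃ (m : ℕ) (c : Module.Basis (κ ⊕ Fin m) D V), ∀ p, c (Sum.inl p) = z p := by
  obtain ⟨T, hT⟩ := Submodule.exists_isCompl (Submodule.span D (Set.range z))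
  let b := Module.finBasis D T
  refine ⟨Module.finrank D T, ((Module.Basis.span hz).prod b).map
    (Submodule.prodEquivOfIsCompl _ T hT), fun p => ?_⟩
  rw [Module.Basis.map_apply, Submodule.coe_prodEquivOfIsCompl', Module.Basis.prod_apply_inl_fst,
    Module.Basis.prod_apply_inl_snd, Module.Basis.span_apply, ZeroMemClass.coe_zero, add_zero]

/-- Completion of independent rows to a matrix which is invertible up to a denominator. -/
private theorem C1_complete {Λ : Type} [Ring Λ] {D : Type} [DivisionRing D] (φ : Λ →+* D)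
    (hφ : Function.Injective φ)
    (hden : ∀ s : Finset D, ∃ a : Λ, a ≠ 0 ∧ ∀ y ∈ s, ∃ b : Λ, φ a * y = φ b)
    {R κ : Type} [Fintype R] [DecidableEq R] [Fintype κ] (Z : Matrix κ R Λ)
    (hZ : LinearIndependent D (fun p => (fun q => φ (Z p q) : R → D))) :
    ∃ (m : ℕ) (Z' : Matrix (Fin m) R Λ) (Y : Matrix R (κ ⊕ Fin m) Λ) (δ : Λ), δ ≠ 0 ∧
      Fintype.card κ + m = Fintype.card R ∧
      ∀ q q', ∑ p, Y q p * (Sum.elim Z Z' p q' : Λ) = if q = q' then δ else 0 := by
  classical
  obtain ⟨m, c, hc⟩ := C1_basis _ hZ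
  -- denominators of the new rows
  obtain ⟨a, ha, hs⟩ := hden (Finset.univ.image fun p : Fin m × R => c (Sum.inr p.1) p.2)
  have h1 : ∀ (p : Fin m) (q : R), ∃ x : Λ, φ a * c (Sum.inr p) q = φ x := fun p q =>
    hs _ (Finset.mem_image_of_mem (fun p : Fin m × R => c (Sum.inr p.1) p.2) (Finset.mem_univ (p, q)))
  choose Z' hZ' using h1
  have ha' : φ a ≠ 0 := fun h => ha (hφ (by rw [h, map_zero]))
  -- the left inverse
  let Y₁ : R → κ ⊕ Fin m → D := fun q => Sum.elim (fun p => c.repr (Pi.single q 1) (Sum.inl p))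
    (fun p => c.repr (Pi.single q 1) (Sum.inr p) * (φ a)⁻¹)
  obtain ⟨δ, hδ, hs'⟩ := hden (Finset.univ.image fun p : R × (κ ⊕ Fin m) => Y₁ p.1 p.2)
  have h2 : ∀ (q : R) (p : κ ⊕ Fin m), ∃ x : Λ, φ δ * Y₁ q p = φ x := fun q p =>
    hs' _ (Finset.mem_image_of_mem (fun p : R × (κ ⊕ Fin m) => Y₁ p.1 p.2) (Finset.mem_univ (q, p)))
  choose Y hY using h2
  refine ⟨m, Matrix.of Z', Matrix.of Y, δ, hδ, ?_, ?_⟩
  · have h3 := Module.finrank_eq_card_basis c
    rw [Module.finrank_fintype_fun_eq_card, Fintype.card_sum, Fintype.card_fin] at h3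
    exact h3.symm
  · intro q q'
    apply hφ
    have h4 : ∀ p, Y₁ q p * φ (Sum.elim Z (Matrix.of Z') p q') = c.repr (Pi.single q 1) p * c p q' := by
      intro p
      cases p with
      | inl p =>
        change c.repr (Pi.single q 1) (Sum.inl p) * φ (Z p q') = _
        rw [hc]
      | inr p =>
        change c.repr (Pi.single q 1) (Sum.inr p) * (φ a)⁻¹ * φ (Z' p q') = _
        rw [← hZ', mul_assoc, inv_mul_cancel_left₀ ha']
    have h5 : ∑ p, c.repr (Pi.single q 1) p * c p q' = (Pi.single q (1 : D) : R → D) q' := by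
      have h6 := c.sum_repr (Pi.single q (1 : D))
      have h7 := congrFun h6 q'
      rw [Finset.sum_apply] at h7
      exact h7
    rw [map_sum]
    have h8 : ∀ p, φ (Matrix.of Y q p * Sum.elim Z (Matrix.of Z') p q') =
        φ δ * (c.repr (Pi.single q 1) p * c p q') := by
      intro p
      rw [map_mul, ← h4, ← mul_assoc, hY]
      rfl
    rw [Finset.sum_congr rfl fun p _ => h8 p, ← Finset.mul_sum, h5]
    by_cases hq : q = q'
    · subst hq
      rw [Pi.single_eq_same, mul_one, if_pos rfl]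
    · rw [Pi.single_eq_of_ne (Ne.symm hq), mul_zero, if_neg hq, map_zero]

theorem rank_rows {Λ : Type} [Ring Λ] {D : Type} [DivisionRing D] (φ : Λ →+* D) (hφ : Function.Injective φ)
    (hden : ∀ s : Finset D, ∃ a : Λ, a ≠ 0 ∧ ∀ y ∈ s, ∃ b : Λ, φ a * y = φ b)
    {Ω : Type} [Field Ω] {ℓ : ℕ} (𝒲 : MFam Λ Ω ℓ) {R κ : Type} [Fintype R] [Fintype κ] (Z : Matrix κ R Λ)
    (hZ : LinearIndependent D (fun p => (fun q => φ (Z p q) : R → D))) :
    ∃ C : ℝ, ∀ i, ((Fintype.card κ : ℝ) - C / (ℓ : ℝ) ^ 𝒲.dep i) * Module.finrank Ω (𝒲.W i) ≤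
      (Module.finrank Ω (LinearMap.range (𝒲.mact i Z)) : ℝ) := by
  classical
  obtain ⟨m, Z', Y, δ, hδ, hcard, hYM⟩ := C1_complete φ hφ hden Z hZ
  obtain ⟨C, hC⟩ := 𝒲.lower δ hδ
  refine ⟨Fintype.card R * C, fun i => ?_⟩
  let M : Matrix (κ ⊕ Fin m) R Λ := Sum.elim Z Z'
  have hYM' : Y * M = Matrix.diagonal fun _ => δ := by
    ext q q'
    rw [Matrix.mul_apply, Matrix.diagonal_apply]
    exact hYM q q'
  have hdiag : ∀ w : R → 𝒲.W i, 𝒲.mact i (Matrix.diagonal fun _ => δ) w = fun q => 𝒲.act i δ (w q) := by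
    intro w
    funext q
    rw [MFam.mact_apply, Finset.sum_eq_single q]
    · rw [Matrix.diagonal_apply_eq]
    · intro q' _ hq
      rw [Matrix.diagonal_apply_ne _ (Ne.symm hq), map_zero, LinearMap.zero_apply]
    · intro h
      exact absurd (Finset.mem_univ q) h
  -- lower bound for the rank of `Y M`
  have h1 : Fintype.card R * Module.finrank Ω (LinearMap.range (𝒲.act i δ)) ≤
      Module.finrank Ω (LinearMap.range (𝒲.mact i (Matrix.diagonal fun _ : R => δ))) := by
    let e : (R → LinearMap.range (𝒲.act i δ)) →ₗ[Ω] (R → 𝒲.W i) :=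
      { toFun := fun w q => (w q : 𝒲.W i)
        map_add' := fun _ _ => rfl
        map_smul' := fun _ _ => rfl }
    have he : Function.Injective e := by
      intro w w' h
      funext q
      exact Subtype.ext (congrFun h q)
    have he' : LinearMap.range e ≤ LinearMap.range (𝒲.mact i (Matrix.diagonal fun _ : R => δ)) := by
      rintro _ ⟨w, rfl⟩
      have h2 : ∀ q, ∃ v, 𝒲.act i δ v = (w q : 𝒲.W i) := fun q => (w q).2
      choose v hv using h2
      refine ⟨v, ?_⟩
      rw [hdiag]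
      funext q
      exact hv q
    have h3 := Submodule.finrank_mono he'
    rw [LinearMap.finrank_range_of_inj he, Module.finrank_pi_fintype, Finset.sum_const, Finset.card_univ,
      smul_eq_mul] at h3
    exact h3
  -- `rank (Y M) ≤ rank M`
  have h2 : Module.finrank Ω (LinearMap.range (𝒲.mact i (Matrix.diagonal fun _ : R => δ))) ≤
      Module.finrank Ω (LinearMap.range (𝒲.mact i M)) := by
    have h3 : LinearMap.range (𝒲.mact i (Matrix.diagonal fun _ : R => δ)) ≤
        (LinearMap.range (𝒲.mact i M)).map (𝒲.mact i Y) := by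
      rintro _ ⟨w, rfl⟩
      rw [← hYM', MFam.mact_mul]
      exact ⟨_, ⟨w, rfl⟩, rfl⟩
    exact (Submodule.finrank_mono h3).trans (Submodule.finrank_map_le _ _)
  -- `rank M ≤ rank Z + m dim W`
  have h3 : Module.finrank Ω (LinearMap.range (𝒲.mact i M)) ≤
      Module.finrank Ω (LinearMap.range (𝒲.mact i Z)) + m * Module.finrank Ω (𝒲.W i) := by
    let e : LinearMap.range (𝒲.mact i M) →ₗ[Ω] (LinearMap.range (𝒲.mact i Z)) × (Fin m → 𝒲.W i) :=
      { toFun := fun v => (⟨fun p => v.1 (Sum.inl p), by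
          obtain ⟨_, w, rfl⟩ := v
          exact ⟨w, rfl⟩⟩, fun p => v.1 (Sum.inr p))
        map_add' := fun _ _ => rfl
        map_smul' := fun _ _ => rfl }
    have he : Function.Injective e := by
      intro v v' h
      refine Subtype.ext ?_
      funext p
      cases p with
      | inl p => exact congrFun (congrArg Subtype.val (congrArg Prod.fst h)) p
      | inr p => exact congrFun (congrArg Prod.snd h) p
    have h4 := LinearMap.finrank_le_finrank_of_injective he
    rw [Module.finrank_prod, Module.finrank_pi_fintype, Finset.sum_const, Finset.card_univ, Fintype.card_fin,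
      smul_eq_mul] at h4
    exact h4
  have h4 : Fintype.card R * Module.finrank Ω (LinearMap.range (𝒲.act i δ)) ≤
      Module.finrank Ω (LinearMap.range (𝒲.mact i Z)) + m * Module.finrank Ω (𝒲.W i) := h1.trans (h2.trans h3)
  have h4' : (Fintype.card R : ℝ) * (Module.finrank Ω (LinearMap.range (𝒲.act i δ)) : ℝ) ≤
      (Module.finrank Ω (LinearMap.range (𝒲.mact i Z)) : ℝ) + m * (Module.finrank Ω (𝒲.W i) : ℝ) := by
    exact_mod_cast h4
  have h5 := mul_le_mul_of_nonneg_left (hC i) (Nat.cast_nonneg (Fintype.card R) : (0 : ℝ) ≤ _)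
  have h6 : (Fintype.card κ : ℝ) = Fintype.card R - m := by
    rw [← hcard]
    push_cast
    ring
  rw [h6]
  have h7 : ((Fintype.card R : ℝ) - m - Fintype.card R * C / (ℓ : ℝ) ^ 𝒲.dep i) * (Module.finrank Ω (𝒲.W i) : ℝ) =
      Fintype.card R * ((1 - C / (ℓ : ℝ) ^ 𝒲.dep i) * (Module.finrank Ω (𝒲.W i) : ℝ)) -
        m * (Module.finrank Ω (𝒲.W i) : ℝ) := by ring
  rw [h7]
  linarith

end Pool.Agent.Lib.MP_666dc0_nt.FM
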