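import Pool.Agent.Lib.MP_666dc0_nt.FM.C0
import Pool.Agent.Lib.MP_666dc0_nt.FM.C1
import Pool.Agent.Lib.MP_666dc0_nt.Mg.G103
import Pool.Agent.Lib.MP_666dc0_nt.FM.C3

/-!
# FM, C: the law for ideals

On `V = (R → D)` (left `D`-space of row vectors) `u ∈ T` acts by `v ↦ v φ(m u)`. Choose `t ∈ I` with `srk t`
maximal `= e`, `N = card R`. Then every `u ∈ I` satisfies `ker (t^N) u^N = 0` (`srk_max`). Lower bound:
`range (mact (m (t^N)))`, whose `e` independent rows have rank `≥ (e - C / ℓ ^ dep) dim W`. Upper bound: `Y` from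
`exists_left_kernel` for `X = m (t^N)` satisfies `Y m(u)^N = 0` for all `u ∈ I`, so
`⨆ range (mact (m u)) = ⨆ range (mact (m u) ^ N) ≤ ker (mact Y)` (`hss`), of dimension
`≤ R dim W - (R - e - C / ℓ ^ dep) dim W`.
-/

namespace Pool.Agent.Lib.MP_666dc0_nt.FM

private theorem rowMul_pow {Λ : Type} [Ring Λ] {D : Type} [DivisionRing D] (φ : Λ →+* D) {R : Type} [Fintype R]
    [DecidableEq R] (X : Matrix R R Λ) (k : ℕ) : rowMul φ (X ^ k) = rowMul φ X ^ k := by
  induction k with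
  | zero => rw [pow_zero, pow_zero, rowMul_one]
  | succ k ih => rw [pow_succ, rowMul_mul, ih, pow_succ']

private theorem rowMul_natCast {Λ : Type} [Ring Λ] {D : Type} [DivisionRing D] (φ : Λ →+* D) {R : Type} [Fintype R]
    [DecidableEq R] (c : ℕ) : rowMul φ ((c : ℕ) : Matrix R R Λ) = (c : Module.End D (R → D)) := by
  induction c with
  | zero =>
    rw [Nat.cast_zero, Nat.cast_zero]
    refine LinearMap.ext fun v => funext fun q => ?_
    rw [rowMul_apply]
    simp only [Matrix.zero_apply, map_zero, mul_zero, Finset.sum_const_zero, LinearMap.zero_apply, Pi.zero_apply]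
  | succ c ih => rw [Nat.cast_succ, Nat.cast_succ, rowMul_add, ih, rowMul_one]

private theorem range_pow {Λ : Type} [Ring Λ] {Ω : Type} [Field Ω] {ℓ : ℕ} (𝒲 : MFam Λ Ω ℓ) {R : Type} [Fintype R]
    [DecidableEq R] {T : Type} [CommRing T] (m : T →+* Matrix R R Λ)
    (hss : ∀ i u, LinearMap.range (𝒲.mact i (m u)) ≤ LinearMap.range (𝒲.mact i (m (u ^ 2)))) (i : 𝒲.ix) (u : T)
    (k : ℕ) (hk : 0 < k) : LinearMap.range (𝒲.mact i (m u)) ≤ LinearMap.range (𝒲.mact i (m (u ^ k))) := by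
  induction k with
  | zero => omega
  | succ k ih =>
    rcases Nat.eq_zero_or_pos k with rfl | hk'
    · rw [zero_add, pow_one]
    · refine (ih hk').trans ?_
      rintro _ ⟨x, rfl⟩
      obtain ⟨k, rfl⟩ : ∃ j, k = j + 1 := ⟨k - 1, by omega⟩
      have h1 : 𝒲.mact i (m u) x ∈ LinearMap.range (𝒲.mact i (m (u ^ 2))) := hss i u ⟨x, rfl⟩
      obtain ⟨y, hy⟩ := h1
      refine ⟨y, ?_⟩
      rw [show u ^ (k + 1 + 1) = u ^ k * u ^ 2 by ring, map_mul, MFam.mact_mul, hy, ← MFam.mact_mul, ← map_mul,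
        ← pow_succ]

private theorem exists_rows' {Λ : Type} [Ring Λ] {D : Type} [DivisionRing D] (φ : Λ →+* D) {R : Type} [Fintype R]
    (X : Matrix R R Λ) {e : ℕ} (he : Module.finrank D (LinearMap.range (rowMul φ X)) = e) :
    ∃ (f : Fin e → R) (Z : Matrix (Fin e) R Λ), (∀ p q, Z p q = X (f p) q) ∧
      LinearIndependent D (fun p => (fun q => φ (Z p q) : R → D)) := by
  subst he
  obtain ⟨f, hf⟩ := exists_rows φ X
  exact ⟨f, fun p q => X (f p) q, fun _ _ => rfl, hf⟩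

private theorem exists_max {T : Type} [CommRing T] (I : Ideal T) (g : T → ℕ) (N : ℕ) (hg : ∀ t, g t ≤ N) :
    ∃ t ∈ I, ∀ u ∈ I, g u ≤ g t := by
  classical
  have hb : ∃ n, ∀ u ∈ I, g u ≤ n := ⟨N, fun u _ => hg u⟩
  obtain ⟨n, hn, hmin⟩ : ∃ n, (∀ u ∈ I, g u ≤ n) ∧ ∀ k, k < n → ¬∀ u ∈ I, g u ≤ k :=
    ⟨Nat.find hb, Nat.find_spec hb, fun k hk => Nat.find_min hb hk⟩
  rcases Nat.eq_zero_or_pos n with h0 | hpos
  · exact ⟨0, I.zero_mem, fun u hu => (hn u hu).trans (by omega)⟩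
  · have h1 := hmin (n - 1) (by omega)
    push Not at h1
    obtain ⟨t, ht, hlt⟩ := h1
    exact ⟨t, ht, fun u hu => (hn u hu).trans (by omega)⟩

theorem exists_law {Λ : Type} [Ring Λ] [NoZeroDivisors Λ] [Nontrivial Λ] [CharZero Λ] (hore : LeftOre Λ)
    {Ω : Type} [Field Ω] {ℓ : ℕ} (𝒲 : MFam Λ Ω ℓ) {R : Type} [Fintype R] [DecidableEq R] {T : Type} [CommRing T]
    (m : T →+* Matrix R R Λ)
    (hss : ∀ i u, LinearMap.range (𝒲.mact i (m u)) ≤ LinearMap.range (𝒲.mact i (m (u ^ 2)))) (I : Ideal T) :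
    ∃ e : ℕ, e ≤ Fintype.card R ∧ (e = 0 → ∀ t ∈ I, m t ^ Fintype.card R = 0) ∧ ∃ C : ℝ, ∀ i,
      |(Module.finrank Ω (⨆ t ∈ I, LinearMap.range (𝒲.mact i (m t)) : Submodule Ω (R → 𝒲.W i)) : ℝ) -
        e * Module.finrank Ω (𝒲.W i)| ≤ C / (ℓ : ℝ) ^ 𝒲.dep i * Module.finrank Ω (𝒲.W i) := by
  classical
  rcases Nat.eq_zero_or_pos (Fintype.card R) with hR0 | hRpos
  · have hemp : IsEmpty R := Fintype.card_eq_zero_iff.1 hR0
    refine ⟨0, Nat.zero_le _, fun _ t _ => Subsingleton.elim _ _, 0, fun i => ?_⟩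
    have h1 : Module.finrank Ω (⨆ t ∈ I, LinearMap.range (𝒲.mact i (m t)) : Submodule Ω (R → 𝒲.W i)) = 0 :=
      Module.finrank_zero_of_subsingleton
    rw [h1]
    simp
  obtain ⟨D, _, φ, hφ, hden⟩ := exists_division hore
  have hchar : CharZero D := charZero_of_injective_ringHom hφ
  have hN : Module.finrank D (R → D) = Fintype.card R := Module.finrank_fintype_fun_eq_card D
  obtain ⟨N, hNdef⟩ : ∃ N, N = Fintype.card R := ⟨_, rfl⟩
  rw [← hNdef] at hN hRpos
  -- the operator of `t`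
  let op : T → Module.End D (R → D) := fun t => rowMul φ (m t)
  have hop_pow : ∀ t k, op (t ^ k) = op t ^ k := fun t k => by
    simp only [op, map_pow, rowMul_pow]
  have hsrk : ∀ f : Module.End D (R → D), srk f = Module.finrank D (LinearMap.range (f ^ N)) := fun f => by
    unfold srk
    rw [hN]
  have hsrk_le : ∀ t, srk (op t) ≤ N := fun t => by
    rw [hsrk, ← hN]
    exact Submodule.finrank_le _
  obtain ⟨t, ht, hmax⟩ := exists_max I (fun t => srk (op t)) N hsrk_le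
  have hkill : ∀ u ∈ I, ∀ v, (op t ^ N) v = 0 → (op u ^ N) v = 0 := by
    intro u hu v hv
    have hcomm : Commute (op t) (op u) := by
      change rowMul φ (m t) * rowMul φ (m u) = rowMul φ (m u) * rowMul φ (m t)
      rw [← rowMul_mul, ← rowMul_mul, ← map_mul, ← map_mul, mul_comm]
    have h := srk_max (D := D) (V := R → D) (op t) (op u) hcomm
    rw [hN] at h
    refine h (fun c => ?_) v hv
    have hmem : (c : T) * t ^ N + u ^ N ∈ I :=
      I.add_mem (I.mul_mem_left _ (I.pow_mem_of_mem ht N hRpos)) (I.pow_mem_of_mem hu N hRpos)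
    have h1 := hmax _ hmem
    have h2 : op ((c : T) * t ^ N + u ^ N) = (c : Module.End D (R → D)) * op t ^ N + op u ^ N := by
      change rowMul φ (m ((c : T) * t ^ N + u ^ N)) = _
      have h4 : m ((c : T) * t ^ N + u ^ N) = (m t) ^ N * (c : Matrix R R Λ) + (m u) ^ N := by
        rw [map_add, mul_comm (c : T), map_mul, map_pow, map_pow, map_natCast]
      rw [h4, rowMul_add, rowMul_mul, rowMul_natCast, rowMul_pow, rowMul_pow]
    rw [← h2]
    exact h1
  obtain ⟨X, hX⟩ : ∃ X : Matrix R R Λ, X = m (t ^ N) := ⟨_, rfl⟩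
  have hXop : rowMul φ X = op t ^ N := by
    rw [hX, ← hop_pow]
  have he : Module.finrank D (LinearMap.range (rowMul φ X)) = srk (op t) := by rw [hXop, hsrk]
  obtain ⟨f, Z, hZX, hZ⟩ := exists_rows' φ X he
  obtain ⟨n, Y, hn, hY0, hY⟩ := exists_left_kernel φ hφ hden X
  obtain ⟨C₁, hC₁⟩ := rank_rows φ hφ hden 𝒲 Z hZ
  obtain ⟨C₂, hC₂⟩ := rank_rows φ hφ hden 𝒲 Y hY
  rw [he] at hn
  rw [Fintype.card_fin] at hC₂
  rw [Fintype.card_fin] at hC₁
  refine ⟨srk (op t), by rw [← hNdef]; exact hsrk_le t, fun h0 u hu => ?_, max C₁ C₂, fun i => ?_⟩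
  · have h1 : srk (op u) = 0 := Nat.le_zero.1 (h0 ▸ hmax u hu)
    rw [hsrk, ← hop_pow] at h1
    have h2 : LinearMap.range (op (u ^ N)) = ⊥ := Submodule.finrank_eq_zero.1 h1
    have h3 : op (u ^ N) = 0 := LinearMap.range_eq_bot.1 h2
    rw [← hNdef, ← map_pow]
    exact rowMul_eq_zero φ hφ h3
  · have hW : (0 : ℝ) ≤ Module.finrank Ω (𝒲.W i) := Nat.cast_nonneg _
    have hℓ : (0 : ℝ) ≤ (ℓ : ℝ) ^ 𝒲.dep i := pow_nonneg (Nat.cast_nonneg ℓ) _
    have hm1 : C₁ / (ℓ : ℝ) ^ 𝒲.dep i * Module.finrank Ω (𝒲.W i) ≤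
        max C₁ C₂ / (ℓ : ℝ) ^ 𝒲.dep i * Module.finrank Ω (𝒲.W i) :=
      mul_le_mul_of_nonneg_right (div_le_div_of_nonneg_right (le_max_left _ _) hℓ) hW
    have hm2 : C₂ / (ℓ : ℝ) ^ 𝒲.dep i * Module.finrank Ω (𝒲.W i) ≤
        max C₁ C₂ / (ℓ : ℝ) ^ 𝒲.dep i * Module.finrank Ω (𝒲.W i) :=
      mul_le_mul_of_nonneg_right (div_le_div_of_nonneg_right (le_max_right _ _) hℓ) hW
    -- the lower bound
    have low1 : Module.finrank Ω (LinearMap.range (𝒲.mact i Z)) ≤
        Module.finrank Ω (LinearMap.range (𝒲.mact i X)) := by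
      have h1 : LinearMap.range (𝒲.mact i Z) =
          (LinearMap.range (𝒲.mact i X)).map (LinearMap.funLeft Ω (𝒲.W i) f) := by
        rw [← LinearMap.range_comp]
        congr 1
        refine LinearMap.ext fun w => funext fun p => ?_
        rw [LinearMap.comp_apply, LinearMap.funLeft_apply, MFam.mact_apply, MFam.mact_apply]
        simp only [hZX]
      rw [h1]
      exact Submodule.finrank_map_le _ _
    have low2 : LinearMap.range (𝒲.mact i X) ≤
        (⨆ t ∈ I, LinearMap.range (𝒲.mact i (m t)) : Submodule Ω (R → 𝒲.W i)) := by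
      rw [hX]
      exact le_biSup (fun t => LinearMap.range (𝒲.mact i (m t))) (I.pow_mem_of_mem ht N hRpos)
    have low3 := Submodule.finrank_mono low2
    have low4 : (srk (op t) : ℝ) * Module.finrank Ω (𝒲.W i) - C₁ / (ℓ : ℝ) ^ 𝒲.dep i * Module.finrank Ω (𝒲.W i) ≤
        (Module.finrank Ω (⨆ t ∈ I, LinearMap.range (𝒲.mact i (m t)) : Submodule Ω (R → 𝒲.W i)) : ℝ) := by
      rw [← sub_mul]
      refine (hC₁ i).trans ?_
      exact_mod_cast low1.trans low3
    -- the upper bound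
    have up1 : (⨆ t ∈ I, LinearMap.range (𝒲.mact i (m t)) : Submodule Ω (R → 𝒲.W i)) ≤
        LinearMap.ker (𝒲.mact i Y) := by
      refine iSup₂_le fun u hu => (range_pow 𝒲 m hss i u N hRpos).trans ?_
      have hYu : Y * m (u ^ N) = 0 := by
        funext p q
        apply hφ
        have h1 := hkill u hu (fun q => φ (Y p q)) (by rw [← hXop]; exact hY0 p)
        rw [← hop_pow] at h1
        have h2 := congrFun h1 q
        have h3 : (op (u ^ N)) (fun q => φ (Y p q)) q = ∑ r, φ (Y p r) * φ (m (u ^ N) r q) := rfl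
        rw [h3] at h2
        rw [Matrix.mul_apply, map_sum, Matrix.zero_apply, map_zero]
        simp only [map_mul]
        exact h2
      rintro _ ⟨x, rfl⟩
      rw [LinearMap.mem_ker, ← MFam.mact_mul, hYu, MFam.mact_zero]
    have up2 := Submodule.finrank_mono up1
    have up3 := LinearMap.finrank_range_add_finrank_ker (𝒲.mact i Y)
    rw [Module.finrank_pi_fintype, Finset.sum_const, Finset.card_univ, smul_eq_mul] at up3
    have up4 : (Module.finrank Ω (LinearMap.range (𝒲.mact i Y)) : ℝ) +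
        Module.finrank Ω (LinearMap.ker (𝒲.mact i Y)) = (Fintype.card R : ℝ) * Module.finrank Ω (𝒲.W i) := by
      exact_mod_cast up3
    have up5 : (n : ℝ) + srk (op t) = Fintype.card R := by exact_mod_cast hn
    have up6 : (Module.finrank Ω (⨆ t ∈ I, LinearMap.range (𝒲.mact i (m t)) : Submodule Ω (R → 𝒲.W i)) : ℝ) ≤
        Module.finrank Ω (LinearMap.ker (𝒲.mact i Y)) := by exact_mod_cast up2
    have up7 := hC₂ i
    rw [sub_mul] at up7
    rw [← up5, add_mul] at up4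
    rw [abs_le]
    constructor
    · linarith
    · linarith

end Pool.Agent.Lib.MP_666dc0_nt.FM
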