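import Pool.Agent.Lib.MP_666dc0_nt.FM.BDefs
import Pool.Agent.Lib.MP_666dc0_nt.ZO.X2b

/-!
# FM, D2: coordinates of vector valued functions with values in `WI`

`Φ ∈ VF U (tow K J) ρ 1` is determined by the functions `Φ_r(k) = Φ (pt r * k)`, `r ∈ R`, in `WI (J.subgroupOf (K 0)) ρ`.
`coordW_formula`: `Chart.apply_eq` of ZO/X2b. Surjective: for `f : R → WI` put `Φ g = f (cls g) (kap g)`: `IsTF` by
`cls_left`, `kap_left`, `cls_right` (`Subgroup.mem_sup_left`), `kap_tame`; `eqv` by `cls_right`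
(`Subgroup.mem_sup_right`), `kap_mul` and `(f _).2`; coordinates by `cls_right`, `cls_pt`, `kap_mul`, `kap_pt`.
-/

open NumberField IsDedekindDomain
open scoped NumberField

namespace Pool.Agent.Lib.MP_666dc0_nt.FM

open WL ZO

variable {F : Type} [Field F] [NumberField F] {n : ℕ} {D : Datum F n} {ℓ : ℕ} [Fact ℓ.Prime]
  {U : Subgroup D.Ad} {K : ℕ → Subgroup D.Ad}

/-- The coordinates `Φ_r(k) = Φ (pt r * k)`. -/
noncomputable def coordW (c : Chart U K) (J : Subgroup D.Ad) {w : ℕ}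
    (ρ : K 0 →* Matrix (Fin w) (Fin w) (PadicAlgCl ℓ)) :
    VF U (tow K J) ρ 1 →ₗ[PadicAlgCl ℓ] (c.R → WI (J.subgroupOf (K 0)) ρ) where
  toFun Φ r := ⟨fun k => Φ.1 (c.pt r * k), fun x k hk => by
    have h : IsVF U (tow K J) ρ 1 Φ.1 := Φ.2
    have h2 := h.eqv (c.pt r * x) k (Subgroup.mem_subgroupOf.1 hk)
    change Φ.1 (c.pt r * ((x : D.Ad) * (k : D.Ad))) = _
    rw [← mul_assoc]
    exact h2⟩
  map_add' _ _ := rfl
  map_smul' _ _ := rfl

theorem coordW_apply (c : Chart U K) (J : Subgroup D.Ad) {w : ℕ}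
    (ρ : K 0 →* Matrix (Fin w) (Fin w) (PadicAlgCl ℓ)) (Φ : VF U (tow K J) ρ 1) (r : c.R) (k : K 0) :
    (coordW c J ρ Φ r).1 k = Φ.1 (c.pt r * k) := rfl

theorem coordW_formula (c : Chart U K) (hU : IsTame ℓ U)
    (hK : ∀ g ∈ K 0, ∀ v : HeightOneSpectrum (𝓞 F), (ℓ : 𝓞 F) ∉ v.asIdeal → TrivialAt v g) (J : Subgroup D.Ad)
    {w : ℕ} (ρ : K 0 →* Matrix (Fin w) (Fin w) (PadicAlgCl ℓ)) (Φ : VF U (tow K J) ρ 1) (g : D.Ad) :
    Φ.1 g = (coordW c J ρ Φ (c.cls g)).1 (c.kap g) := by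
  have h : IsVF U (tow K J) ρ 1 Φ.1 := Φ.2
  rw [coordW_apply]
  exact c.apply_eq hU hK h.tf g

theorem coordW_bijective (c : Chart U K) (hU : IsTame ℓ U)
    (hK : ∀ g ∈ K 0, ∀ v : HeightOneSpectrum (𝓞 F), (ℓ : 𝓞 F) ∉ v.asIdeal → TrivialAt v g) {J : Subgroup D.Ad}
    (_hJ : J ≤ K 0) {w : ℕ} (ρ : K 0 →* Matrix (Fin w) (Fin w) (PadicAlgCl ℓ)) :
    Function.Bijective (coordW c J ρ) := by
  constructor
  · intro Φ Ψ h
    refine Subtype.ext (funext fun g => ?_)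
    rw [coordW_formula c hU hK J ρ Φ g, coordW_formula c hU hK J ρ Ψ g, h]
  · intro f
    have hvf : IsVF U (tow K J) ρ 1 fun g => (f (c.cls g)).1 (c.kap g) := by
      refine ⟨⟨fun γ g => ?_, fun g u hu => ?_⟩, fun g (k : K 0) hk => ?_⟩
      · rw [c.cls_left, c.kap_left]
      · rw [c.cls_right _ _ (Subgroup.mem_sup_left hu), c.kap_tame _ _ hu]
      · have h1 : c.cls (g * (k : D.Ad)) = c.cls g := c.cls_right _ _ (Subgroup.mem_sup_right k.2)
        have h2 : c.kap (g * (k : D.Ad)) = c.kap g * k := c.kap_mul g k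
        have h3 : (f (c.cls g)).1 (c.kap g * k) = (ρ k⁻¹).mulVec ((f (c.cls g)).1 (c.kap g)) :=
          (f (c.cls g)).2 _ _ (Subgroup.mem_subgroupOf.2 hk)
        change (f (c.cls (g * (k : D.Ad)))).1 (c.kap (g * (k : D.Ad))) = _
        rw [h1, h2]
        exact h3
    refine ⟨⟨_, hvf⟩, funext fun r => Subtype.ext (funext fun k => ?_)⟩
    rw [coordW_apply]
    change (f (c.cls (c.pt r * k))).1 (c.kap (c.pt r * k)) = _
    rw [c.cls_right _ _ (Subgroup.mem_sup_right k.2), c.cls_pt, c.kap_mul, c.kap_pt, one_mul]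

end Pool.Agent.Lib.MP_666dc0_nt.FM
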