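import Pool.Agent.Lib.MP_666dc0_nt.FM.E2
import Pool.Agent.Lib.MP_666dc0_nt.Mg.G103

/-!
# FM, E: the abstract theorem
-/

namespace Pool.Agent.Lib.MP_666dc0_nt.FM

variable {Ω : Type} [Field Ω] {ℓ : ℕ} {X : Type}

private theorem div_mono {ℓ : ℕ} {a b x : ℝ} (h : a ≤ b) (s : ℕ) (hx : 0 ≤ x) :
    a / (ℓ : ℝ) ^ s * x ≤ b / (ℓ : ℝ) ^ s * x :=
  mul_le_mul_of_nonneg_right (div_le_div_of_nonneg_right h (pow_nonneg (Nat.cast_nonneg ℓ) s)) hx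

theorem AFam.families (𝒜 : AFam Ω ℓ X) (h : 𝒜.Good) (hℓ : 1 < ℓ) :
    ∃ (k : ℕ) (C : Fin k → Set X) (a : Fin k → ℕ), Function.Injective C ∧ (∀ j, Irr 𝒜.Closed (C j)) ∧
      (∀ j, 0 < a j) ∧ (⋃ j, C j) = Set.univ ∧ ∑ j, a j = Fintype.card 𝒜.R ∧
      ∀ p, 𝒜.Closed p → ∃ c : ℝ, ∀ i,
        |(Module.finrank Ω (⨆ x ∈ p, 𝒜.eig i x : Submodule Ω (𝒜.R → 𝒜.fam.W i)) : ℝ) -
          ((∑ j, (open Classical in if C j ⊆ p then a j else 0) : ℕ) : ℝ) * Module.finrank Ω (𝒜.fam.W i)| ≤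
        c / (ℓ : ℝ) ^ 𝒜.fam.dep i * Module.finrank Ω (𝒜.fam.W i) := by
  classical
  have hex : ∀ p : Set X, ∃ r : ℕ, 𝒜.Closed p → (r ≤ Fintype.card 𝒜.R ∧
      (p ≠ Set.univ → r < Fintype.card 𝒜.R) ∧ ∃ c : ℝ, ∀ i,
      |(𝒜.N i p : ℝ) - r * Module.finrank Ω (𝒜.fam.W i)| ≤
        c / (ℓ : ℝ) ^ 𝒜.fam.dep i * Module.finrank Ω (𝒜.fam.W i)) := by
    intro p
    by_cases hp : 𝒜.Closed p
    · obtain ⟨r, hr⟩ := 𝒜.exists_density h hp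
      exact ⟨r, fun _ => hr⟩
    · exact ⟨0, fun hp' => absurd hp' hp⟩
  choose ρ hρ using hex
  have hW : ∀ i, (0 : ℝ) ≤ Module.finrank Ω (𝒜.fam.W i) := fun i => Nat.cast_nonneg _
  -- a general comparison
  have hcmp : ∀ {a b : ℕ} {c : ℝ}, (∀ i, ((a : ℝ) - b) * Module.finrank Ω (𝒜.fam.W i) ≤
      c / (ℓ : ℝ) ^ 𝒜.fam.dep i * Module.finrank Ω (𝒜.fam.W i)) → a ≤ b := fun {a b c} hab =>
    𝒜.le_of_lim hℓ hab
  have hmono : ∀ p q, 𝒜.Closed p → 𝒜.Closed q → p ⊆ q → ρ p ≤ ρ q := by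
    intro p q hp hq hpq
    obtain ⟨c, hc⟩ := (hρ p hp).2.2
    obtain ⟨c', hc'⟩ := (hρ q hq).2.2
    refine hcmp (c := c + c') fun i => ?_
    have h1 := (abs_le.1 (hc i)).1
    have h2 := (abs_le.1 (hc' i)).2
    have h3 : (𝒜.N i p : ℝ) ≤ 𝒜.N i q := by exact_mod_cast 𝒜.N_mono i hpq
    have h4 : (c + c') / (ℓ : ℝ) ^ 𝒜.fam.dep i * Module.finrank Ω (𝒜.fam.W i) =
        c / (ℓ : ℝ) ^ 𝒜.fam.dep i * Module.finrank Ω (𝒜.fam.W i) +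
        c' / (ℓ : ℝ) ^ 𝒜.fam.dep i * Module.finrank Ω (𝒜.fam.W i) := by ring
    rw [h4, sub_mul]
    linarith
  have hmod : ∀ p q, 𝒜.Closed p → 𝒜.Closed q → ρ (p ∪ q) + ρ (p ∩ q) = ρ p + ρ q := by
    intro p q hp hq
    obtain ⟨c1, hc1⟩ := (hρ p hp).2.2
    obtain ⟨c2, hc2⟩ := (hρ q hq).2.2
    obtain ⟨c3, hc3⟩ := (hρ _ (𝒜.closed_union hp hq)).2.2
    obtain ⟨c4, hc4⟩ := (hρ _ (𝒜.closed_inter hp hq)).2.2
    have hsum : ∀ i, (c1 + c2 + c3 + c4) / (ℓ : ℝ) ^ 𝒜.fam.dep i * Module.finrank Ω (𝒜.fam.W i) =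
        c1 / (ℓ : ℝ) ^ 𝒜.fam.dep i * Module.finrank Ω (𝒜.fam.W i) +
        c2 / (ℓ : ℝ) ^ 𝒜.fam.dep i * Module.finrank Ω (𝒜.fam.W i) +
        c3 / (ℓ : ℝ) ^ 𝒜.fam.dep i * Module.finrank Ω (𝒜.fam.W i) +
        c4 / (ℓ : ℝ) ^ 𝒜.fam.dep i * Module.finrank Ω (𝒜.fam.W i) := fun i => by ring
    have hN : ∀ i, (𝒜.N i (p ∪ q) : ℝ) + 𝒜.N i (p ∩ q) = 𝒜.N i p + 𝒜.N i q := fun i => by
      exact_mod_cast 𝒜.N_modular i hp hq
    apply le_antisymm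
    · refine hcmp (c := c1 + c2 + c3 + c4) fun i => ?_
      have h1 := abs_le.1 (hc1 i)
      have h2 := abs_le.1 (hc2 i)
      have h3 := abs_le.1 (hc3 i)
      have h4 := abs_le.1 (hc4 i)
      rw [hsum i]
      push_cast
      have h5 := hN i
      nlinarith
    · refine hcmp (c := c1 + c2 + c3 + c4) fun i => ?_
      have h1 := abs_le.1 (hc1 i)
      have h2 := abs_le.1 (hc2 i)
      have h3 := abs_le.1 (hc3 i)
      have h4 := abs_le.1 (hc4 i)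
      rw [hsum i]
      push_cast
      have h5 := hN i
      nlinarith
  have h0 : ρ ∅ = 0 := by
    obtain ⟨c, hc⟩ := (hρ _ 𝒜.closed_empty).2.2
    refine Nat.le_zero.1 (hcmp (c := c) fun i => ?_)
    have h1 := (abs_le.1 (hc i)).1
    rw [𝒜.N_empty i] at h1
    push_cast at h1 ⊢
    rw [sub_mul]
    linarith
  have hu : ρ Set.univ = Fintype.card 𝒜.R := by
    obtain ⟨hle, -, c, hc⟩ := hρ _ 𝒜.closed_univ
    refine le_antisymm hle (hcmp (c := c) fun i => ?_)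
    have h1 := (abs_le.1 (hc i)).2
    rw [𝒜.N_univ h i] at h1
    push_cast at h1
    rw [sub_mul]
    linarith
  obtain ⟨k, C, a, hinj, hirr, hpos, hcov, hsum⟩ := exists_families 𝒜.Closed ρ 𝒜.closed_univ 𝒜.closed_empty
    (fun p q => 𝒜.closed_union) (fun p q => 𝒜.closed_inter) (fun f hf hle => 𝒜.dcc h f hf hle) hmono hmod h0
    (fun p hp hne => by
      rw [hu]
      exact (hρ p hp).2.1 hne)
  refine ⟨k, C, a, hinj, hirr, hpos, hcov, ?_, fun p hp => ?_⟩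
  · rw [← hu, hsum _ 𝒜.closed_univ]
    refine Finset.sum_congr rfl fun j _ => ?_
    rw [if_pos (Set.subset_univ _)]
  · obtain ⟨-, -, c, hc⟩ := hρ p hp
    refine ⟨c, fun i => ?_⟩
    rw [← hsum p hp]
    exact hc i

end Pool.Agent.Lib.MP_666dc0_nt.FM
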