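import Pool.Agent.Lib.MP_666dc0_nt.FM.E1
import Pool.Agent.Lib.MP_666dc0_nt.FM.C

/-!
# FM, E2: closed sets, the descending chain condition, the density of a closed set
-/

namespace Pool.Agent.Lib.MP_666dc0_nt.FM

variable {Ω : Type} [Field Ω] {ℓ : ℕ} {X : Type} (𝒜 : AFam Ω ℓ X)

/-- The ideal of a set of characters. -/
def AFam.idl (p : Set X) : Ideal 𝒜.T where
  carrier := {t | ∀ y ∈ p, 𝒜.χ y t = 0}
  add_mem' {a b} ha hb y hy := by rw [map_add, ha y hy, hb y hy, add_zero]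
  zero_mem' y _ := map_zero _
  smul_mem' c a ha y hy := by rw [smul_eq_mul, map_mul, ha y hy, mul_zero]

theorem AFam.mem_idl {p : Set X} {t : 𝒜.T} : t ∈ 𝒜.idl p ↔ ∀ y ∈ p, 𝒜.χ y t = 0 := Iff.rfl

theorem AFam.closed_iff {p : Set X} : 𝒜.Closed p ↔ ∀ x, x ∉ p → ∃ t ∈ 𝒜.idl p, 𝒜.χ x t ≠ 0 := by
  constructor
  · intro h x hx
    by_contra hcon
    refine hx (h x fun t ht => ?_)
    by_contra h0
    exact hcon ⟨t, ht, h0⟩
  · intro h x hx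
    by_contra hcon
    obtain ⟨t, ht, h0⟩ := h x hcon
    exact h0 (hx t ht)

theorem AFam.closed_univ : 𝒜.Closed Set.univ := fun x _ => Set.mem_univ x

theorem AFam.closed_empty : 𝒜.Closed ∅ := by
  rw [AFam.closed_iff]
  intro x _
  refine ⟨1, fun y hy => absurd hy (Set.notMem_empty y), ?_⟩
  rw [map_one]
  exact one_ne_zero

theorem AFam.closed_union {p q : Set X} (hp : 𝒜.Closed p) (hq : 𝒜.Closed q) : 𝒜.Closed (p ∪ q) := by
  rw [AFam.closed_iff] at hp hq ⊢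
  intro x hx
  rw [Set.mem_union, not_or] at hx
  obtain ⟨t, ht, ht0⟩ := hp x hx.1
  obtain ⟨u, hu, hu0⟩ := hq x hx.2
  refine ⟨t * u, fun y hy => ?_, ?_⟩
  · rw [map_mul]
    rcases hy with hy | hy
    · rw [ht y hy, zero_mul]
    · rw [hu y hy, mul_zero]
  · rw [map_mul]
    exact mul_ne_zero ht0 hu0

theorem AFam.closed_inter {p q : Set X} (hp : 𝒜.Closed p) (hq : 𝒜.Closed q) : 𝒜.Closed (p ∩ q) := by
  intro x hx
  exact ⟨hp x fun t ht => hx t fun y hy => ht y hy.1, hq x fun t ht => hx t fun y hy => ht y hy.2⟩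

theorem AFam.closed_sat {p : Set X} (hp : 𝒜.Closed p) {x y : X} (hx : x ∈ p) (h : 𝒜.χ x = 𝒜.χ y) : y ∈ p :=
  hp y fun t ht => by rw [← h]; exact ht x hx

theorem AFam.N_modular (i : 𝒜.fam.ix) {p q : Set X} (hp : 𝒜.Closed p) (hq : 𝒜.Closed q) :
    𝒜.N i (p ∪ q) + 𝒜.N i (p ∩ q) = 𝒜.N i p + 𝒜.N i q := by
  have _ := hq
  have h1 : 𝒜.N i (p ∪ q) = 𝒜.N i p + 𝒜.N i (q \ p) := by
    rw [← 𝒜.N_union i, Set.union_sdiff_self]
    intro x hx y hy hxy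
    exact hy.2 (𝒜.closed_sat hp hx hxy)
  have h2 : 𝒜.N i q = 𝒜.N i (p ∩ q) + 𝒜.N i (q \ p) := by
    rw [← 𝒜.N_union i]
    · congr 1
      rw [Set.inter_comm, Set.inter_union_sdiff]
    · intro x hx y hy hxy
      exact hy.2 (𝒜.closed_sat hp hx.1 hxy)
  omega

theorem AFam.N_compl (h : 𝒜.Good) (i : 𝒜.fam.ix) {p : Set X} (hp : 𝒜.Closed p) :
    𝒜.N i p + 𝒜.N i pᶜ = Fintype.card 𝒜.R * Module.finrank Ω (𝒜.fam.W i) := by
  rw [← 𝒜.N_univ h i, ← 𝒜.N_union i, Set.union_compl_self]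
  intro x hx y hy hxy
  exact hy (𝒜.closed_sat hp hx hxy)

theorem AFam.closed_compl {p : Set X} (hp : 𝒜.Closed p) : {x | ∃ t ∈ 𝒜.idl p, 𝒜.χ x t ≠ 0} = pᶜ := by
  ext x
  constructor
  · rintro ⟨t, ht, h0⟩ hx
    exact h0 (ht x hx)
  · intro hx
    exact 𝒜.closed_iff.1 hp x hx

/-- The density of a closed set. -/
theorem AFam.exists_density (h : 𝒜.Good) {p : Set X} (hp : 𝒜.Closed p) :
    ∃ r : ℕ, r ≤ Fintype.card 𝒜.R ∧ (p ≠ Set.univ → r < Fintype.card 𝒜.R) ∧ ∃ c : ℝ, ∀ i,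
      |(𝒜.N i p : ℝ) - r * Module.finrank Ω (𝒜.fam.W i)| ≤
        c / (ℓ : ℝ) ^ 𝒜.fam.dep i * Module.finrank Ω (𝒜.fam.W i) := by
  obtain ⟨e, he, he0, c, hc⟩ := exists_law 𝒜.ore 𝒜.fam 𝒜.m (𝒜.range_le h) (𝒜.idl p)
  refine ⟨Fintype.card 𝒜.R - e, Nat.sub_le _ _, fun hpu => ?_, c, fun i => ?_⟩
  · by_contra hcon
    have hcard : e = 0 ∨ Fintype.card 𝒜.R = 0 := by omega
    have hall : ∀ t ∈ 𝒜.idl p, 𝒜.m t ^ Fintype.card 𝒜.R = 0 := by
      intro t ht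
      rcases hcard with h0 | h0
      · exact he0 h0 t ht
      · have : IsEmpty 𝒜.R := Fintype.card_eq_zero_iff.1 h0
        exact Subsingleton.elim _ _
    apply hpu
    refine Set.eq_univ_of_forall fun x => ?_
    by_contra hx
    obtain ⟨t, ht, h0⟩ := 𝒜.closed_iff.1 hp x hx
    have h1 : t ^ Fintype.card 𝒜.R = 0 := by
      apply 𝒜.inj
      rw [map_pow, map_zero]
      exact hall t ht
    have h2 : 𝒜.χ x t ^ Fintype.card 𝒜.R = 0 := by rw [← map_pow, h1, map_zero]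
    have hR : Fintype.card 𝒜.R ≠ 0 := by
      intro hR
      rw [hR, pow_zero] at h2
      exact one_ne_zero h2
    exact h0 ((pow_eq_zero_iff hR).1 h2)
  · have h1 := hc i
    rw [𝒜.iSup_range h i, 𝒜.closed_compl hp] at h1
    have h2 := 𝒜.N_compl h i hp
    have h3 : ((𝒜.N i p : ℕ) : ℝ) + (𝒜.N i pᶜ : ℕ) = (Fintype.card 𝒜.R : ℝ) * Module.finrank Ω (𝒜.fam.W i) := by
      exact_mod_cast h2
    have h4 : (𝒜.N i p : ℝ) - ((Fintype.card 𝒜.R - e : ℕ) : ℝ) * Module.finrank Ω (𝒜.fam.W i) =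
        -((𝒜.N i pᶜ : ℝ) - e * Module.finrank Ω (𝒜.fam.W i)) := by
      rw [Nat.cast_sub he]
      linarith
    rw [h4, abs_neg]
    exact h1

theorem AFam.le_of_lim (hℓ : 1 < ℓ) {a b : ℕ} {c : ℝ}
    (h : ∀ i, ((a : ℝ) - b) * Module.finrank Ω (𝒜.fam.W i) ≤
      c / (ℓ : ℝ) ^ 𝒜.fam.dep i * Module.finrank Ω (𝒜.fam.W i)) : a ≤ b := by
  by_contra hcon
  have h1 : (1 : ℝ) ≤ (a : ℝ) - b := by
    have : (b : ℝ) + 1 ≤ a := by exact_mod_cast Nat.succ_le_of_lt (not_le.1 hcon)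
    linarith
  have hℓ' : (1 : ℝ) < ℓ := by exact_mod_cast hℓ
  obtain ⟨s, hs⟩ := pow_unbounded_of_one_lt c hℓ'
  obtain ⟨i, hi, hpos⟩ := 𝒜.deep s
  have hpos' : (0 : ℝ) < Module.finrank Ω (𝒜.fam.W i) := by exact_mod_cast hpos
  have h2 : (a : ℝ) - b ≤ c / (ℓ : ℝ) ^ 𝒜.fam.dep i := le_of_mul_le_mul_right (h i) hpos'
  have h3 : (0 : ℝ) < (ℓ : ℝ) ^ 𝒜.fam.dep i := by positivity
  have h4 : c / (ℓ : ℝ) ^ 𝒜.fam.dep i < 1 := by
    rw [div_lt_one h3]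
    exact hs.trans_le (pow_le_pow_right₀ hℓ'.le hi)
  linarith

/-- The submodule spanned by the rows of the matrices in an ideal. -/
noncomputable def AFam.rows (p : Set X) : Submodule 𝒜.Λ (𝒜.R → 𝒜.Λ) :=
  Submodule.span 𝒜.Λ {y | ∃ t ∈ 𝒜.idl p, ∃ r, y = 𝒜.m t r}

/-- The action of a row. -/
private theorem rows_kill {p : Set X} {x : X} (hx : x ∈ p) {i : 𝒜.fam.ix} {w : 𝒜.R → 𝒜.fam.W i}
    (hw : w ∈ 𝒜.eig i x) {y : 𝒜.R → 𝒜.Λ} (hy : y ∈ 𝒜.rows p) : ∑ q, 𝒜.fam.act i (y q) (w q) = 0 := by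
  induction hy using Submodule.span_induction with
  | mem y hy =>
    obtain ⟨t, ht, r, rfl⟩ := hy
    have h1 := congrFun (hw t) r
    rw [ht x hx, zero_smul] at h1
    exact h1
  | zero => simp only [Pi.zero_apply, map_zero, LinearMap.zero_apply, Finset.sum_const_zero]
  | add a b _ _ ha hb =>
    simp only [Pi.add_apply, map_add, LinearMap.add_apply, Finset.sum_add_distrib, ha, hb, add_zero]
  | smul c a _ ha =>
    simp only [Pi.smul_apply, smul_eq_mul, map_mul, Module.End.mul_apply]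
    rw [← map_sum, ha, map_zero]

theorem AFam.dcc (h : 𝒜.Good) (f : ℕ → Set X) (hf : ∀ n, 𝒜.Closed (f n))
    (hle : ∀ n, f (n + 1) ⊆ f n) : ∃ n, ∀ m, n ≤ m → f m = f n := by
  have hnoeth : IsNoetherian 𝒜.Λ (𝒜.R → 𝒜.Λ) := by
    have := 𝒜.noeth
    exact isNoetherian_pi
  have hanti : Antitone f := antitone_nat_of_succ_le hle
  have hmono : Monotone fun n => 𝒜.rows (f n) := by
    intro n m hnm
    refine Submodule.span_mono ?_
    rintro y ⟨t, ht, r, rfl⟩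
    exact ⟨t, fun x hx => ht x (hanti hnm hx), r, rfl⟩
  obtain ⟨n, hn⟩ := monotone_stabilizes_iff_noetherian.2 hnoeth ⟨_, hmono⟩
  refine ⟨n, fun m hm => Set.Subset.antisymm (hanti hm) ?_⟩
  intro x hx
  by_contra hxm
  obtain ⟨t, ht, h0⟩ := 𝒜.closed_iff.1 (hf m) x hxm
  obtain ⟨i, hi⟩ := h.occ x
  obtain ⟨w, hw, hw0⟩ := Submodule.exists_mem_ne_zero_of_ne_bot hi
  apply hw0
  have h1 : 𝒜.fam.mact i (𝒜.m t) w = 0 := by
    funext r
    have h2 : 𝒜.m t r ∈ 𝒜.rows (f m) := Submodule.subset_span ⟨t, ht, r, rfl⟩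
    have h3 : 𝒜.rows (f n) = 𝒜.rows (f m) := hn m hm
    rw [← h3] at h2
    exact rows_kill 𝒜 hx hw h2
  have h2 := hw t
  rw [h1] at h2
  exact (smul_eq_zero.1 h2.symm).resolve_left h0

end Pool.Agent.Lib.MP_666dc0_nt.FM
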