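import Pool.Agent.Lib.MP_666dc0_nt.ZO.Defs

/-!
# Families of systems of eigenvalues: definitions (complete, NOT a task)
-/

open NumberField IsDedekindDomain
open scoped NumberField

namespace Pool.Agent.Lib.MP_666dc0_nt.FM

open WL ZO

variable {F : Type} [Field F] [NumberField F] {n : ℕ} {D : Datum F n} {U : Subgroup D.Ad}

/-- The property `p` of systems of eigenvalues is closed: every system of eigenvalues which is controlled by the systems
with the property `p` has the property `p`. -/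
def IsClosedProp (ℓ : ℕ) [Fact ℓ.Prime] (S : Finset (HeightOneSpectrum (𝓞 F))) (ι : ℂ ≃+* PadicAlgCl ℓ)
    (p : (∀ v, Hecke U v → ℂ) → Prop) : Prop :=
  ∀ lam ∈ AllSys ℓ S U, Controlled ℓ S ι {e | e ∈ AllSys ℓ S U ∧ p e} lam → p lam

/-- For some `C`, for all `s`, all levels `J ⊆ K s` and all weights `Q` the eigenforms with weights in `Q`, of level
`U J`, whose system has the property `p`, span a space of dimension `a [K 0 : J] dim Q`, up to an error of at most
`C ℓ ^ (-s) [K 0 : J] dim Q`. -/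
def HasDensity (ℓ : ℕ) (S : Finset (HeightOneSpectrum (𝓞 F))) (U : Subgroup D.Ad) (K : ℕ → Subgroup D.Ad)
    (p : (∀ v, Hecke U v → ℂ) → Prop) (a : ℕ) : Prop :=
  ∃ C : ℝ, ∀ s J, IsLevel ℓ U J → J ≤ K s → ∀ Q, IsWeight D Q →
    |(dimE S Q U J p : ℝ) - a * wt Q (K 0) J| ≤ C / (ℓ : ℝ) ^ s * wt Q (K 0) J

open Classical in
/-- The systems of eigenvalues of tame level `U` are the union of the distinct, non-empty, closed, irreducible families
`C i` with the multiplicities `a i ≥ 1`, whose sum is the dimension of the span of the eigenforms of weight zero and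
level `U K 0`, and every closed property `p` has the density `∑ a i`, the sum over the `i` such that all members of `C i`
have the property. -/
structure IsFamilies (ℓ : ℕ) [Fact ℓ.Prime] (S : Finset (HeightOneSpectrum (𝓞 F))) (K : ℕ → Subgroup D.Ad)
    (ι : ℂ ≃+* PadicAlgCl ℓ) {k : ℕ} (C : Fin k → Set (∀ v, Hecke U v → ℂ)) (a : Fin k → ℕ) : Prop where
  inj : Function.Injective C
  pos : ∀ i, 0 < a i
  sum : ∑ i, a i = dimE S (constSub D) U (K 0) fun _ => True
  cover : ⋃ i, C i = AllSys ℓ S U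
  nonempty : ∀ i, (C i).Nonempty
  closed : ∀ i, IsClosedProp ℓ S ι (· ∈ C i)
  irred : ∀ i p q, IsClosedProp ℓ S ι p → IsClosedProp ℓ S ι q → (∀ lam ∈ C i, p lam ∨ q lam) →
    (∀ lam ∈ C i, p lam) ∨ ∀ lam ∈ C i, q lam
  density : ∀ p, IsClosedProp ℓ S ι p → HasDensity ℓ S U K p (∑ i with ∀ lam ∈ C i, p lam, a i)

/-- Descending chains of closed properties of systems of eigenvalues are stationary. -/
def IsNoeth (ℓ : ℕ) [Fact ℓ.Prime] (S : Finset (HeightOneSpectrum (𝓞 F))) (U : Subgroup D.Ad)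
    (ι : ℂ ≃+* PadicAlgCl ℓ) : Prop :=
  ∀ p : ℕ → (∀ v, Hecke U v → ℂ) → Prop, (∀ j, IsClosedProp ℓ S ι (p j)) →
    (∀ j, ∀ lam ∈ AllSys ℓ S U, p (j + 1) lam → p j lam) →
    ∃ j, ∀ j', j ≤ j' → ∀ lam ∈ AllSys ℓ S U, p j lam → p j' lam

end Pool.Agent.Lib.MP_666dc0_nt.FM
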