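import Pool.Agent.Lib.MP_666dc0_nt.FM.FDefs

/-!
# Families of systems of eigenvalues: attached homomorphisms
-/

open NumberField IsDedekindDomain
open scoped NumberField

namespace Pool.Agent.Lib.MP_666dc0_nt.FM

open WL ZO

/-- The regular functions `f` on `Ĝ` such that `(g, σ) ↦ f(g)` is invariant under conjugation by `Ĝ`. -/
def InvFun {B : Type} [CommRing B] {Γ : Type*} [Group Γ] {O : Type} [CommRing O] [HopfAlgebra B O]
    (A : OverB.HopfAction B Γ O) (σ : Γ) : Type :=
  {f : O // ∀ (R : Type) [CommRing R] [Algebra B R] (x g : OverB.Pts B O R),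
    (x * g * (A.onPts R σ x)⁻¹).hom f = g.hom f}

variable {F : Type} [Field F] [NumberField F] {n : ℕ} {D : Datum F n} {U : Subgroup D.Ad}
  {B : Type} [CommRing B] (ℓ : ℕ) [Fact ℓ.Prime] [Algebra B (PadicAlgCl ℓ)] {O : Type} [CommRing O]
  [HopfAlgebra B O] (A : OverB.HopfAction B Gal(AlgebraicClosure F/F) O)
  (S : Finset (HeightOneSpectrum (𝓞 F))) (φ : HeightOneSpectrum (𝓞 F) → Gal(AlgebraicClosure F/F))

/-- There is a homomorphism `r : Γ_F → ᴸG(ℚ̄_ℓ)` attached to the values `e v f`: it is compatible with the projections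
to `Γ_F`, continuous (every regular function `f` on `Ĝ` gives a continuous function `γ ↦ f(r(γ))`), and for `v ∉ S` it is
trivial on the inertia groups at `v` and every invariant function `f` has the value `e v f` at `r(φ v)`. -/
def HasRep (e : ∀ v, InvFun A (φ v) → PadicAlgCl ℓ) : Prop :=
  ∃ r : Gal(AlgebraicClosure F/F) →* A.LGroup (PadicAlgCl ℓ),
    (∀ γ, (r γ).right = γ) ∧ (∀ f : O, Continuous fun γ => (r γ).left.hom f) ∧
      ∀ v, v ∉ S → (∀ P u, IsInertiaAt v P u → (r u).left = 1) ∧ ∀ f, (r (φ v)).left.hom f.1 = e v f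

/-- There is a homomorphism `r : Γ_F → ᴸG(ℚ̄_ℓ)` attached to the image under `ι` of the system `lam`. -/
def HasAtt (sat : ∀ v, InvFun A (φ v) → Hecke U v) (ι : ℂ ≃+* PadicAlgCl ℓ) (lam : ∀ v, Hecke U v → ℂ) : Prop :=
  HasRep ℓ A S φ fun v f => ι (lam v (sat v f))

/-- The statement of Buzzard and Gee for the system `lam`: the eigenvalues outside `S` are in a number
field `E`, and for every embedding of `E` into `ℚ̄_ℓ` there is an attached homomorphism. -/
def BGSys (sat : ∀ v, InvFun A (φ v) → Hecke U v) (lam : ∀ v, Hecke U v → ℂ) : Prop :=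
  ∃ (E : IntermediateField ℚ ℂ) (μ : ∀ v, Hecke U v → E), FiniteDimensional ℚ E ∧
    (∀ v, v ∉ S → ∀ h, (μ v h : ℂ) = lam v h) ∧
      ∀ ι : E →+* PadicAlgCl ℓ, HasRep ℓ A S φ fun v f => ι (μ v (sat v f))

end Pool.Agent.Lib.MP_666dc0_nt.FM
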