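import Pool.Agent.Lib.MP_666dc0_nt.Mg.G104
import Pool.Agent.Lib.MP_666dc0_nt.FM.VDefs

/-!
# Families of systems of eigenvalues: the final theorem
-/

open NumberField IsDedekindDomain TensorProduct
open scoped NumberField TensorProduct

namespace Pool.Agent.Lib.MP_666dc0_nt.FM

open WL ZO

variable {F : Type} [Field F] [NumberField F] {n : ℕ} {D : Datum F n} {U : Subgroup D.Ad}
  {B : Type} [CommRing B] {ℓ : ℕ} [Fact ℓ.Prime] [Algebra B (PadicAlgCl ℓ)] {O : Type} [CommRing O]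
  [HopfAlgebra B O] {A : OverB.HopfAction B Gal(AlgebraicClosure F/F) O}
  {S : Finset (HeightOneSpectrum (𝓞 F))} {φ : HeightOneSpectrum (𝓞 F) → Gal(AlgebraicClosure F/F)}

private theorem hasRep_iff (e : ∀ v, InvFun A (φ v) → PadicAlgCl ℓ) :
    HasRep ℓ A S φ e ↔ ∃ r : Gal(AlgebraicClosure F/F) →* A.LGroup (PadicAlgCl ℓ),
      OverB.IsAttachedTo A S φ (fun v (f : A.inv (φ v)) => e v ⟨f.1, f.2⟩) r := by
  constructor
  · rintro ⟨r, h1, h2, h3⟩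
    exact ⟨r, ⟨h1, h2, fun v hv => (h3 v hv).1, fun v hv f => (h3 v hv).2 ⟨f.1, f.2⟩⟩⟩
  · rintro ⟨r, h⟩
    exact ⟨r, h.proj, h.cont, fun v hv => ⟨h.unram v hv, fun f => h.value v hv ⟨f.1, f.2⟩⟩⟩

/-- The final theorem. -/
theorem main' [IsTotallyReal F] {B : Type} [CommRing B] (hD : IsTotPosDef D.q)
    [IsDomain B] [IsPrincipalIdealRing B] [Algebra B ℚ] [IsFractionRing B ℚ] [Algebra B (PadicAlgCl ℓ)]
    {O : Type} [CommRing O] [HopfAlgebra B O] [Algebra.FiniteType B O] [Module.Free B O]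
    (hO : LinearlyReductive (ℚ ⊗[B] O)) (A : OverB.HopfAction B Gal(AlgebraicClosure F/F) O)
    (hA : IsOpen (A.act.ker : Set Gal(AlgebraicClosure F/F)))
    (hS : ∀ v, v ∉ S → ∀ P u, IsInertiaAt v P u → A.act u = 1)
    (hSl : ∀ v : HeightOneSpectrum (𝓞 F), (ℓ : 𝓞 F) ∈ v.asIdeal → v ∈ S)
    (φ : HeightOneSpectrum (𝓞 F) → Gal(AlgebraicClosure F/F))
    (hφ : ∀ v, v ∉ S → ∃ P : Ideal (𝓞 (AlgebraicClosure F)), IsOver v P ∧
      (IsFrob v P (φ v) ∨ IsFrob v P (φ v)⁻¹))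
    (hU : IsTame ℓ U) (hUS : ∀ v, v ∉ S → IsGoodAt U v)
    (sat : ∀ v, InvFun A (φ v) → Hecke U v) (hsat : ∀ v f, (sat v f).IsIntegral ℓ)
    {d : ℕ} {K : ℕ → Subgroup D.Ad} (hK : IsUniform ℓ d U K) :
    (∀ ι : ℂ ≃+* PadicAlgCl ℓ,
      (∃ (k : ℕ) (C : Fin k → Set (∀ v, Hecke U v → ℂ)) (a : Fin k → ℕ), IsFamilies ℓ S K ι C a ∧
        ∀ (k' : ℕ) (C' : Fin k' → Set (∀ v, Hecke U v → ℂ)) (a' : Fin k' → ℕ), IsFamilies ℓ S K ι C' a' →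
          ∃ σ : Fin k ≃ Fin k', ∀ i, C' (σ i) = C i ∧ a' (σ i) = a i) ∧
      IsNoeth ℓ S U ι ∧ IsClosedProp ℓ S ι (HasAtt ℓ A S φ sat ι) ∧
      ∀ P : MvPolynomial (IX ℓ S U) ℤ, IsClosedProp ℓ S ι fun lam => pval ℓ S lam P = 0) ∧
    (Count ℓ S U K fun _ => True) ∧
    ((∀ lam ∈ AllSys ℓ S U, BGSys ℓ A S φ sat lam) ∨ Abundant ℓ S U K fun lam => ¬BGSys ℓ A S φ sat lam) := by
  have h := main hD hO A hA hS hSl φ hφ hU hUS (fun v (f : A.inv (φ v)) => sat v ⟨f.1, f.2⟩)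
    (fun v f => hsat v _) hK
  have h1 : ∀ ι : ℂ ≃+* PadicAlgCl ℓ, HasAtt ℓ A S φ sat ι =
      Att ℓ A S φ (fun v (f : A.inv (φ v)) => sat v ⟨f.1, f.2⟩) ι := fun ι =>
    funext fun lam => propext (hasRep_iff _)
  have h2 : BGSys ℓ A S φ sat = Q1Sys ℓ A S φ (fun v (f : A.inv (φ v)) => sat v ⟨f.1, f.2⟩) :=
    funext fun lam => propext <| exists_congr fun E => exists_congr fun μ => and_congr Iff.rfl <|
      and_congr Iff.rfl <| forall_congr' fun ι => hasRep_iff _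
  rw [h2]
  refine ⟨fun ι => ?_, h.2⟩
  rw [h1 ι]
  exact h.1 ι

end Pool.Agent.Lib.MP_666dc0_nt.FM
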